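import Mathlib

/-!
Definitions used in the statement on lollipop graphs and the Turan colouring.
-/

namespace Pool.Agent.Work.MP_f2e3c0_co

/-- The lollipop with clique `K_(m+1)` and a pendant path of `l` edges.  The clique consists of
the vertices `inl i` and the vertex `inr 0`; the path is `inr 0, inr 1, ..., inr l`. -/
def lollipop (m l : ℕ) : SimpleGraph (Fin m ⊕ Fin (l + 1)) :=
  SimpleGraph.fromRel fun a b =>
    match a, b with
    | .inl _, .inl _ => True
    | .inl _, .inr j => j.val = 0
    | .inr _, .inl _ => False
    | .inr i, .inr j => j.val = i.val + 1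

/-- The number of monochromatic labelled copies of `H` in the colouring of the complete graph
on `Fin n` whose red graph is `G` and whose blue graph is the complement of `G`. -/
noncomputable def monoCount {W : Type} (H : SimpleGraph W) {n : ℕ} (G : SimpleGraph (Fin n)) : ℕ :=
  Nat.card {f : W ↪ Fin n //
    (∀ a b, H.Adj a b → G.Adj (f a) (f b)) ∨ (∀ a b, H.Adj a b → Gᶜ.Adj (f a) (f b))}

/-- `H` is a two-colour bonbon: `H` is connected and for all large `n` the colourings with the
least number of monochromatic labelled copies of `H` are exactly the Turan colourings with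
`χ(H) - 1` parts, up to permuting vertices and swapping the colours.  (In the Turan colouring
the blue graph is the Turan graph.) -/
def IsBonbon {W : Type} (H : SimpleGraph W) : Prop :=
  H.Connected ∧ ∃ n₀ : ℕ, ∀ n ≥ n₀, ∀ G : SimpleGraph (Fin n),
    (∀ G' : SimpleGraph (Fin n), monoCount H G ≤ monoCount H G') ↔
      (Nonempty (Gᶜ ≃g SimpleGraph.turanGraph n (H.chromaticNumber.toNat - 1)) ∨
        Nonempty (G ≃g SimpleGraph.turanGraph n (H.chromaticNumber.toNat - 1)))

end Pool.Agent.Work.MP_f2e3c0_co
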