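import Mathlib
import Pool.Agent.Work.MP_f2e3c0_co.Defs

-- merged part: Pool.Agent.Work.MP_f2e3c0_co.Count
section
/-!
Counting cliques, walks and homomorphisms of the lollipop.
-/

set_option linter.unusedSectionVars false

namespace Pool.Agent.Work.MP_f2e3c0_co

open Finset

variable {V : Type*} [Fintype V] [DecidableEq V]

open Classical in
/-- neighbours of `v` inside `U` -/
noncomputable def nb (G : SimpleGraph V) (U : Finset V) (v : V) : Finset V := U.filter (G.Adj v)

@[simp] lemma mem_nb {G : SimpleGraph V} {U : Finset V} {v u : V} :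
    u ∈ nb G U v ↔ u ∈ U ∧ G.Adj v u := by
  classical
  simp [nb]

lemma nb_subset (G : SimpleGraph V) (U : Finset V) (v : V) : nb G U v ⊆ U :=
  fun _ h => (mem_nb.1 h).1

lemma nb_mono (G : SimpleGraph V) {U U' : Finset V} (h : U ⊆ U') (v : V) : nb G U v ⊆ nb G U' v :=
  fun _ hu => mem_nb.2 ⟨h (mem_nb.1 hu).1, (mem_nb.1 hu).2⟩

/-- number of labelled cliques of size `j` inside `U` -/
noncomputable def kq (G : SimpleGraph V) : ℕ → Finset V → ℕ
  | 0, _ => 1
  | j + 1, U => ∑ v ∈ U, kq G j (nb G U v)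

lemma kq_mono (G : SimpleGraph V) (j : ℕ) : ∀ {U U' : Finset V}, U ⊆ U' → kq G j U ≤ kq G j U' := by
  induction j with
  | zero => intro U U' _; simp [kq]
  | succ j ih =>
    intro U U' h
    simp only [kq]
    exact (sum_le_sum fun v _ => ih (nb_mono G h v)).trans (sum_le_sum_of_subset h)

/-- sum over neighbours -/
noncomputable def av (G : SimpleGraph V) (g : V → ℝ) (v : V) : ℝ := ∑ u ∈ nb G univ v, g u

/-- number of walks of length `j` starting at `v` -/
noncomputable def wk (G : SimpleGraph V) (j : ℕ) : V → ℝ := (av G)^[j] (fun _ => 1)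

lemma wk_zero (G : SimpleGraph V) (v : V) : wk G 0 v = 1 := rfl

lemma wk_succ (G : SimpleGraph V) (j : ℕ) (v : V) : wk G (j + 1) v = ∑ u ∈ nb G univ v, wk G j u := by
  unfold wk; rw [Function.iterate_succ_apply']; rfl

lemma av_iter_nonneg (G : SimpleGraph V) {g : V → ℝ} (hg : ∀ v, 0 ≤ g v) (j : ℕ) :
    ∀ v, 0 ≤ (av G)^[j] g v := by
  induction j with
  | zero => exact hg
  | succ j ih =>
    intro v
    rw [Function.iterate_succ_apply']
    exact sum_nonneg fun u _ => ih u

lemma wk_nonneg (G : SimpleGraph V) (j : ℕ) (v : V) : 0 ≤ wk G j v :=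
  av_iter_nonneg G (fun _ => zero_le_one) j v

lemma sum_nb_comm (G : SimpleGraph V) (A B : Finset V) (F : V → V → ℝ) :
    ∑ v ∈ A, ∑ u ∈ nb G B v, F v u = ∑ u ∈ B, ∑ v ∈ nb G A u, F v u := by
  refine sum_comm' fun v u => ?_
  simp only [mem_nb]
  constructor
  · rintro ⟨h1, h2, h3⟩; exact ⟨⟨h1, h3.symm⟩, h2⟩
  · rintro ⟨⟨h1, h3⟩, h2⟩; exact ⟨h1, h2, h3.symm⟩

open Classical in
/-- labelled cliques inside `U` -/
noncomputable def cliq (G : SimpleGraph V) (j : ℕ) (U : Finset V) : Finset (Fin j → V) :=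
  univ.filter (fun c => (∀ i, c i ∈ U) ∧ ∀ i i', i ≠ i' → G.Adj (c i) (c i'))

lemma mem_cliq {G : SimpleGraph V} {j : ℕ} {U : Finset V} {c : Fin j → V} :
    c ∈ cliq G j U ↔ (∀ i, c i ∈ U) ∧ ∀ i i', i ≠ i' → G.Adj (c i) (c i') := by
  classical
  simp [cliq]

lemma card_cliq_fiber (G : SimpleGraph V) (j : ℕ) (U : Finset V) {v : V} (hv : v ∈ U) :
    ((cliq G (j + 1) U).filter (fun c => c 0 = v)).card = (cliq G j (nb G U v)).card := by
  symm
  refine card_bij' (fun c _ => Fin.cons v c) (fun c _ => Fin.tail c) ?_ ?_ ?_ ?_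
  · intro c hc
    rw [mem_cliq] at hc
    rw [mem_filter, mem_cliq]
    refine ⟨⟨fun i => ?_, fun i i' hii => ?_⟩, by simp⟩
    · refine Fin.cases ?_ (fun i => ?_) i
      · simpa using hv
      · simpa using (mem_nb.1 (hc.1 i)).1
    · revert hii
      refine Fin.cases ?_ (fun i => ?_) i <;> refine Fin.cases ?_ (fun i' => ?_) i' <;> intro hii
      · exact absurd rfl hii
      · simpa using (mem_nb.1 (hc.1 i')).2
      · simpa using (mem_nb.1 (hc.1 i)).2.symm
      · simpa using hc.2 i i' (fun h => hii (by rw [h]))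
  · intro c hc
    rw [mem_filter, mem_cliq] at hc
    rw [mem_cliq]
    refine ⟨fun i => mem_nb.2 ⟨hc.1.1 _, ?_⟩, fun i i' hii => hc.1.2 _ _ (by simpa using hii)⟩
    rw [← hc.2]
    exact hc.1.2 _ _ (Fin.succ_ne_zero i).symm
  · intro c _; simp
  · intro c hc
    rw [mem_filter] at hc
    rw [← hc.2]; simp

lemma card_cliq (G : SimpleGraph V) (j : ℕ) : ∀ U : Finset V, (cliq G j U).card = kq G j U := by
  induction j with
  | zero =>
    intro U
    have : cliq G 0 U = univ := by
      ext c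
      simp only [mem_cliq, mem_univ, iff_true]
      exact ⟨fun i => i.elim0, fun i => i.elim0⟩
    simp [this, kq]
  | succ j ih =>
    intro U
    rw [card_eq_sum_card_fiberwise (f := fun c => c 0) (t := U)
      (fun c hc => (mem_cliq.1 hc).1 0)]
    simp only [kq]
    exact sum_congr rfl fun v hv => by rw [card_cliq_fiber G j U hv, ih]

open Classical in
/-- walks of length `l` -/
noncomputable def walks (G : SimpleGraph V) (l : ℕ) : Finset (Fin (l + 1) → V) :=
  univ.filter (fun p => ∀ i : Fin l, G.Adj (p i.castSucc) (p i.succ))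

lemma mem_walks {G : SimpleGraph V} {l : ℕ} {p : Fin (l + 1) → V} :
    p ∈ walks G l ↔ ∀ i : Fin l, G.Adj (p i.castSucc) (p i.succ) := by
  classical
  simp [walks]

lemma sum_walks_succ (G : SimpleGraph V) (l : ℕ) (F : (Fin (l + 2) → V) → ℝ) :
    ∑ p ∈ walks G (l + 1), F p = ∑ p ∈ walks G l, ∑ v ∈ nb G univ (p 0), F (Fin.cons v p) := by
  rw [sum_sigma']
  symm
  refine sum_bij' (fun x _ => Fin.cons x.2 x.1) (fun p _ => ⟨Fin.tail p, p 0⟩) ?_ ?_ ?_ ?_ ?_
  · rintro ⟨p, v⟩ hx
    rw [mem_sigma, mem_walks, mem_nb] at hx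
    rw [mem_walks]
    intro i
    refine Fin.cases ?_ (fun i => ?_) i
    · simpa using hx.2.2.symm
    · have := hx.1 i
      rw [← Fin.succ_castSucc]
      simpa using this
  · intro p hp
    rw [mem_walks] at hp
    rw [mem_sigma, mem_walks, mem_nb]
    refine ⟨fun i => ?_, mem_univ _, ?_⟩
    · have := hp i.succ
      rw [← Fin.succ_castSucc] at this
      exact this
    · exact (hp 0).symm
  · rintro ⟨p, v⟩ _; simp
  · intro p _; simp
  · intro x _; rfl

lemma sum_walks_zero (G : SimpleGraph V) (l : ℕ) : ∀ g : V → ℝ,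
    ∑ p ∈ walks G l, g (p 0) = ∑ v, g v * wk G l v := by
  induction l with
  | zero =>
    intro g
    have : walks G 0 = univ := by ext p; simp [mem_walks]
    rw [this]
    simp only [wk_zero, mul_one]
    exact Fintype.sum_equiv (Equiv.funUnique (Fin 1) V) _ _ (fun p => rfl)
  | succ l ih =>
    intro g
    rw [sum_walks_succ]
    simp only [Fin.cons_zero]
    have := ih (av G g)
    unfold av at this
    rw [this]
    simp only [wk_succ, sum_mul, mul_sum]
    exact sum_nb_comm G univ univ (fun v u => g u * wk G l v)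

lemma sum_walks_at (G : SimpleGraph V) (h : V → ℝ) (j : ℕ) : ∀ (l : ℕ) (hj : j < l + 1) (g : V → ℝ),
    ∑ p ∈ walks G l, g (p 0) * h (p ⟨j, hj⟩) = ∑ v, (av G)^[j] g v * h v * wk G (l - j) v := by
  induction j with
  | zero =>
    intro l hj g
    exact sum_walks_zero G l (fun v => g v * h v)
  | succ j ih =>
    intro l hj g
    obtain ⟨l, rfl⟩ : ∃ l', l = l' + 1 := ⟨l - 1, by omega⟩
    rw [sum_walks_succ]
    have e : ∀ (p : Fin (l + 1) → V) (v : V),
        (Fin.cons v p : Fin (l + 2) → V) ⟨j + 1, hj⟩ = p ⟨j, by omega⟩ := fun p v => rfl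
    simp only [Fin.cons_zero, e, ← sum_mul]
    have := ih l (by omega) (av G g)
    rw [Function.iterate_succ_apply, Nat.add_sub_add_right]
    exact this

/-- vertex type of the lollipop -/
abbrev LV (m l : ℕ) : Type := Fin m ⊕ Fin (l + 1)

/-- homomorphisms of a graph -/
def IsHom {W : Type*} (H : SimpleGraph W) (G : SimpleGraph V) (f : W → V) : Prop :=
  ∀ a b, H.Adj a b → G.Adj (f a) (f b)

lemma isHom_lollipop {m l : ℕ} {G : SimpleGraph V} {f : LV m l → V} :
    IsHom (lollipop m l) G f ↔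
      (fun i => f (.inr i)) ∈ walks G l ∧ (fun i => f (.inl i)) ∈ cliq G m (nb G univ (f (.inr 0))) := by
  rw [mem_walks, mem_cliq]
  constructor
  · intro h
    refine ⟨fun i => h _ _ ?_, fun i => mem_nb.2 ⟨mem_univ _, h _ _ ?_⟩, fun i i' hii => h _ _ ?_⟩
    · rw [lollipop, SimpleGraph.fromRel_adj]
      refine ⟨fun e => ?_, Or.inl rfl⟩
      have := congrArg Fin.val (Sum.inr.inj e)
      simp at this
    · rw [lollipop, SimpleGraph.fromRel_adj]
      exact ⟨Sum.inr_ne_inl, Or.inr rfl⟩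
    · rw [lollipop, SimpleGraph.fromRel_adj]
      exact ⟨fun e => hii (Sum.inl.inj e), Or.inl trivial⟩
  · rintro ⟨hw, hc, hc'⟩
    have key : ∀ a b : LV m l, a ≠ b → (match a, b with
        | .inl _, .inl _ => True
        | .inl _, .inr j => j.val = 0
        | .inr _, .inl _ => False
        | .inr i, .inr j => j.val = i.val + 1) → G.Adj (f a) (f b) := by
      rintro (i | i) (j | j) hab h
      · exact hc' i j (fun e => hab (by rw [e]))
      · have : j = 0 := Fin.ext h
        rw [this]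
        exact (mem_nb.1 (hc i)).2.symm
      · exact h.elim
      · have hi : i.val < l := by have := j.2; simp only at h; omega
        have := hw ⟨i.val, hi⟩
        have e1 : (⟨i.val, hi⟩ : Fin l).castSucc = i := rfl
        have e2 : (⟨i.val, hi⟩ : Fin l).succ = j := Fin.ext (by simp only at h; simp [h])
        rwa [e1, e2] at this
    intro a b hab
    rw [lollipop, SimpleGraph.fromRel_adj] at hab
    rcases hab.2 with h | h
    · exact key a b hab.1 h
    · exact (key b a hab.1.symm h).symm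

open Classical in
/-- all homomorphisms -/
noncomputable def homs {W : Type*} [Fintype W] (H : SimpleGraph W) (G : SimpleGraph V) :
    Finset (W → V) := univ.filter (IsHom H G)

lemma mem_homs {W : Type*} [Fintype W] {H : SimpleGraph W} {G : SimpleGraph V} {f : W → V} :
    f ∈ homs H G ↔ IsHom H G f := by
  classical
  simp [homs]

lemma sum_homs (m l : ℕ) (G : SimpleGraph V) (F : (LV m l → V) → ℝ) :
    ∑ f ∈ homs (lollipop m l) G, F f
      = ∑ p ∈ walks G l, ∑ c ∈ cliq G m (nb G univ (p 0)), F (Sum.elim c p) := by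
  rw [sum_sigma']
  refine sum_bij' (fun f _ => ⟨fun i => f (.inr i), fun i => f (.inl i)⟩)
    (fun x _ => Sum.elim x.2 x.1) ?_ ?_ ?_ ?_ ?_
  · intro f hf
    rw [mem_homs, isHom_lollipop] at hf
    exact mem_sigma.2 hf
  · rintro ⟨p, c⟩ hx
    rw [mem_homs, isHom_lollipop]
    exact mem_sigma.1 hx
  · intro f _
    ext (i | i) <;> rfl
  · rintro ⟨p, c⟩ _; rfl
  · intro f _
    congr 1
    ext (i | i) <;> rfl

/-- number of cliques `K_(m+1)` through a vertex -/
noncomputable def kv (G : SimpleGraph V) (m : ℕ) (v : V) : ℝ := (kq G m (nb G univ v) : ℝ)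

lemma kv_nonneg (G : SimpleGraph V) (m : ℕ) (v : V) : 0 ≤ kv G m v := Nat.cast_nonneg _

lemma card_homs (m l : ℕ) (G : SimpleGraph V) :
    ((homs (lollipop m l) G).card : ℝ) = ∑ v, kv G m v * wk G l v := by
  rw [← sum_walks_zero, card_eq_sum_ones, Nat.cast_sum, sum_homs]
  refine sum_congr rfl fun p _ => ?_
  simp [kv, card_cliq]

lemma card_homs_at (m l : ℕ) (G : SimpleGraph V) (j : Fin (l + 1)) (x : V) :
    (((homs (lollipop m l) G).filter (fun f => f (.inr j) = x)).card : ℝ)
      = (av G)^[j] (kv G m) x * wk G (l - j) x := by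
  have h := sum_walks_at G (fun v => if v = x then 1 else 0) j l j.2 (kv G m)
  simp only [mul_ite, mul_one, mul_zero, ite_mul, zero_mul, sum_ite_eq', mem_univ, if_true] at h
  rw [← h, card_filter, Nat.cast_sum, sum_homs]
  refine sum_congr rfl fun p _ => ?_
  simp only [Sum.elim_inr]
  by_cases hp : p j = x
  · simp [hp, kv, card_cliq]
  · simp [hp]

lemma card_homs_pair (m l : ℕ) (G : SimpleGraph V) {u v : V} (huv : G.Adj u v) :
    (((homs (lollipop (m + 1) l) G).filter (fun f => f (.inr 0) = u ∧ f (.inl 0) = v)).card : ℝ)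
      = kq G m (nb G (nb G univ u) v) * wk G l u := by
  have h := sum_walks_zero G l (fun w => if w = u then (kq G m (nb G (nb G univ u) v) : ℝ) else 0)
  simp only [ite_mul, zero_mul, sum_ite_eq', mem_univ, if_true] at h
  rw [← h, card_filter, Nat.cast_sum, sum_homs]
  refine sum_congr rfl fun p _ => ?_
  simp only [Sum.elim_inr, Sum.elim_inl]
  by_cases hp : p 0 = u
  · simp only [hp, true_and, if_true]
    rw [← card_cliq, ← card_cliq_fiber G m _ (mem_nb.2 ⟨mem_univ _, huv⟩), card_filter, Nat.cast_sum]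
  · simp [hp]

end Pool.Agent.Work.MP_f2e3c0_co
end

-- merged part: Pool.Agent.Work.MP_f2e3c0_co.Tools
section
/-!
Degree bookkeeping, a Ramsey multiplicity bound, a greedy clique bound and walk lower bounds.
-/

set_option linter.unusedSectionVars false

namespace Pool.Agent.Work.MP_f2e3c0_co

open Finset

variable {V : Type*} [Fintype V] [DecidableEq V]

/-- degree of `v` into `U` -/
noncomputable def dg (G : SimpleGraph V) (U : Finset V) (v : V) : ℝ := ((nb G U v).card : ℝ)

/-- number of non-neighbours of `v` in `U` (counting `v` itself if it lies in `U`) -/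
noncomputable def nn (G : SimpleGraph V) (U : Finset V) (v : V) : ℝ :=
  ((U \ nb G U v).card : ℝ)

/-- number of pairs in `A × B` joined by an edge -/
noncomputable def ee (G : SimpleGraph V) (A B : Finset V) : ℝ := ∑ v ∈ A, dg G B v

lemma dg_nonneg (G : SimpleGraph V) (U : Finset V) (v : V) : 0 ≤ dg G U v := Nat.cast_nonneg _

lemma nn_nonneg (G : SimpleGraph V) (U : Finset V) (v : V) : 0 ≤ nn G U v := Nat.cast_nonneg _

lemma ee_nonneg (G : SimpleGraph V) (A B : Finset V) : 0 ≤ ee G A B :=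
  sum_nonneg fun v _ => dg_nonneg G B v

lemma dg_mono (G : SimpleGraph V) {U U' : Finset V} (h : U ⊆ U') (v : V) :
    dg G U v ≤ dg G U' v := by
  unfold dg; exact_mod_cast card_le_card (nb_mono G h v)

lemma dg_le_card (G : SimpleGraph V) (U : Finset V) (v : V) : dg G U v ≤ U.card := by
  unfold dg; exact_mod_cast card_le_card (nb_subset G U v)

lemma nn_mono (G : SimpleGraph V) {U U' : Finset V} (h : U ⊆ U') (v : V) :
    nn G U v ≤ nn G U' v := by
  unfold nn
  refine Nat.cast_le.2 (card_le_card fun u hu => ?_)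
  rw [mem_sdiff, mem_nb] at hu ⊢
  exact ⟨h hu.1, fun h' => hu.2 ⟨hu.1, h'.2⟩⟩

lemma dg_add_nn (G : SimpleGraph V) (U : Finset V) (v : V) : dg G U v + nn G U v = U.card := by
  unfold dg nn
  rw [← Nat.cast_add, add_comm, card_sdiff_add_card_eq_card (nb_subset G U v)]

lemma nn_of_not_mem (G : SimpleGraph V) {U : Finset V} {v : V} (hv : v ∉ U) :
    nn G U v = dg Gᶜ U v := by
  unfold nn dg
  congr 2
  ext u
  rw [mem_sdiff, mem_nb, mem_nb, SimpleGraph.compl_adj]
  constructor
  · rintro ⟨h1, h2⟩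
    exact ⟨h1, fun e => hv (e ▸ h1), fun h => h2 ⟨h1, h⟩⟩
  · rintro ⟨h1, _, h3⟩
    exact ⟨h1, fun h => h3 h.2⟩

lemma nn_le (G : SimpleGraph V) (U : Finset V) (v : V) : nn G U v ≤ dg Gᶜ U v + 1 := by
  unfold nn dg
  have : U \ nb G U v ⊆ insert v (nb Gᶜ U v) := by
    intro u hu
    rw [mem_sdiff, mem_nb] at hu
    rw [mem_insert, mem_nb, SimpleGraph.compl_adj]
    by_cases e : u = v
    · exact Or.inl e
    · exact Or.inr ⟨hu.1, fun e' => e e'.symm, fun h => hu.2 ⟨hu.1, h⟩⟩
  exact_mod_cast (card_le_card this).trans (card_insert_le _ _)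

lemma dg_compl_le_nn (G : SimpleGraph V) (U : Finset V) (v : V) : dg Gᶜ U v ≤ nn G U v := by
  unfold nn dg
  refine Nat.cast_le.2 (card_le_card fun u hu => ?_)
  rw [mem_nb, SimpleGraph.compl_adj] at hu
  rw [mem_sdiff, mem_nb]
  exact ⟨hu.1, fun h => hu.2.2 h.2⟩

lemma dg_add_compl_ge (G : SimpleGraph V) (U : Finset V) (v : V) :
    (U.card : ℝ) - 1 ≤ dg G U v + dg Gᶜ U v := by
  have := dg_add_nn G U v
  have := nn_le G U v
  linarith

lemma dg_add_compl_le (G : SimpleGraph V) (U : Finset V) (v : V) :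
    dg G U v + dg Gᶜ U v ≤ U.card := by
  have := dg_add_nn G U v
  have := dg_compl_le_nn G U v
  linarith

lemma dg_add_compl_of_not_mem (G : SimpleGraph V) {U : Finset V} {v : V} (hv : v ∉ U) :
    dg G U v + dg Gᶜ U v = U.card := by
  rw [← nn_of_not_mem G hv, dg_add_nn]

lemma dg_eq_sum (G : SimpleGraph V) (U : Finset V) (v : V) :
    dg G U v = ∑ u ∈ nb G U v, (1 : ℝ) := by
  simp [dg]

lemma dg_union (G : SimpleGraph V) {A B : Finset V} (h : Disjoint A B) (v : V) :
    dg G (A ∪ B) v = dg G A v + dg G B v := by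
  unfold dg
  have : nb G (A ∪ B) v = nb G A v ∪ nb G B v := by
    ext u; simp only [mem_nb, mem_union]; tauto
  rw [this, card_union_of_disjoint (h.mono (nb_subset _ _ _) (nb_subset _ _ _)), Nat.cast_add]

lemma dg_sdiff (G : SimpleGraph V) {A B : Finset V} (h : B ⊆ A) (v : V) :
    dg G A v = dg G B v + dg G (A \ B) v := by
  rw [← dg_union G disjoint_sdiff, union_sdiff_of_subset h]

lemma dg_le_add (G : SimpleGraph V) (A B : Finset V) (v : V) :
    dg G A v ≤ dg G B v + ((A \ B).card : ℝ) := by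
  have h1 : dg G A v ≤ dg G (B ∪ (A \ B)) v := dg_mono G (by
    intro u hu; rw [mem_union, mem_sdiff]; tauto) v
  rw [dg_union G disjoint_sdiff] at h1
  have := dg_le_card G (A \ B) v
  linarith

lemma dg_biUnion {ι : Type*} [DecidableEq ι] (G : SimpleGraph V) (I : Finset ι) (W : ι → Finset V)
    (h : ∀ i ∈ I, ∀ j ∈ I, i ≠ j → Disjoint (W i) (W j)) (v : V) :
    dg G (I.biUnion W) v = ∑ i ∈ I, dg G (W i) v := by
  unfold dg
  have : nb G (I.biUnion W) v = I.biUnion (fun i => nb G (W i) v) := by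
    ext u; simp only [mem_nb, mem_biUnion]; tauto
  rw [this, card_biUnion, Nat.cast_sum]
  intro i hi j hj hij
  exact (h i hi j hj hij).mono (nb_subset _ _ _) (nb_subset _ _ _)

lemma ee_comm (G : SimpleGraph V) (A B : Finset V) : ee G A B = ee G B A := by
  unfold ee
  simp only [dg_eq_sum]
  exact sum_nb_comm G A B (fun _ _ => 1)

lemma ee_union_left (G : SimpleGraph V) {A B : Finset V} (h : Disjoint A B) (C : Finset V) :
    ee G (A ∪ B) C = ee G A C + ee G B C := by
  unfold ee; rw [sum_union h]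

lemma ee_union_right (G : SimpleGraph V) {A B : Finset V} (h : Disjoint A B) (C : Finset V) :
    ee G C (A ∪ B) = ee G C A + ee G C B := by
  unfold ee; rw [← sum_add_distrib]; exact sum_congr rfl fun v _ => dg_union G h v

lemma ee_le_of (G : SimpleGraph V) {A B : Finset V} {c : ℝ} (h : ∀ v ∈ A, dg G B v ≤ c) :
    ee G A B ≤ A.card * c := by
  unfold ee
  refine (sum_le_sum h).trans ?_
  simp

lemma le_ee_of (G : SimpleGraph V) {A B : Finset V} {c : ℝ} (h : ∀ v ∈ A, c ≤ dg G B v) :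
    A.card * c ≤ ee G A B := by
  unfold ee
  refine le_trans ?_ (sum_le_sum h)
  simp

lemma card_le_n (U : Finset V) : (U.card : ℝ) ≤ Fintype.card V := by
  exact_mod_cast card_le_univ U

/-- Ramsey multiplicity bound. -/
lemma ramsey_mult (G : SimpleGraph V) {s : ℕ} (hs : 1 ≤ s) (c : ℕ) :
    ∀ (a b : ℕ) (U : Finset V), a + b = c → 3 ^ c * s ≤ U.card →
      s ^ a ≤ kq G a U ∨ s ^ b ≤ kq Gᶜ b U := by
  induction c with
  | zero =>
    intro a b U hab _
    obtain rfl : a = 0 := by omega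
    left; simp [kq]
  | succ c ih =>
    intro a b U hab hU
    rcases a with _ | a
    · left; simp [kq]
    rcases b with _ | b
    · right; simp [kq]
    by_contra hcon
    push Not at hcon
    obtain ⟨h1, h2⟩ := hcon
    have key : ∀ v ∈ U, s ^ a ≤ kq G a (nb G U v) ∨ s ^ b ≤ kq Gᶜ b (nb Gᶜ U v) := by
      intro v hv
      have hd := dg_add_compl_ge G U v
      unfold dg at hd
      have hd' : U.card ≤ (nb G U v).card + (nb Gᶜ U v).card + 1 := by
        have : (U.card : ℝ) ≤ (nb G U v).card + (nb Gᶜ U v).card + 1 := by linarith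
        exact_mod_cast this
      have hp : 1 ≤ 3 ^ c * s := Nat.mul_pos (by positivity) hs
      rw [pow_succ] at hU
      have : 3 ^ c * s ≤ (nb G U v).card ∨ 3 ^ c * s ≤ (nb Gᶜ U v).card := by
        by_contra hh; push Not at hh
        have e : 3 ^ c * 3 * s = 3 * (3 ^ c * s) := by ring
        omega
      rcases this with h | h
      · rcases ih a (b + 1) _ (by omega) h with h' | h'
        · exact Or.inl h'
        · exact absurd (h'.trans (kq_mono _ _ (nb_subset _ _ _))) (not_le.2 h2)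
      · rcases ih (a + 1) b _ (by omega) h with h' | h'
        · exact absurd (h'.trans (kq_mono _ _ (nb_subset _ _ _))) (not_le.2 h1)
        · exact Or.inr h'
    set A := U.filter (fun v => s ^ a ≤ kq G a (nb G U v)) with hA
    set B := U.filter (fun v => s ^ b ≤ kq Gᶜ b (nb Gᶜ U v)) with hB
    have hAB : U ⊆ A ∪ B := by
      intro v hv
      rw [mem_union, hA, hB, mem_filter, mem_filter]
      rcases key v hv with h | h
      · exact Or.inl ⟨hv, h⟩
      · exact Or.inr ⟨hv, h⟩
    have hc := (card_le_card hAB).trans (card_union_le _ _)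
    have h3 : 3 * s ≤ 3 ^ (c + 1) * s :=
      Nat.mul_le_mul_right _ (by rw [pow_succ]; exact Nat.le_mul_of_pos_left _ (by positivity))
    have hA' : A.card * s ^ a ≤ kq G (a + 1) U := by
      simp only [kq]
      calc A.card * s ^ a = ∑ _v ∈ A, s ^ a := by simp
        _ ≤ ∑ v ∈ A, kq G a (nb G U v) := sum_le_sum fun v hv => (mem_filter.1 hv).2
        _ ≤ _ := sum_le_sum_of_subset (filter_subset _ _)
    have hB' : B.card * s ^ b ≤ kq Gᶜ (b + 1) U := by
      simp only [kq]
      calc B.card * s ^ b = ∑ _v ∈ B, s ^ b := by simp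
        _ ≤ ∑ v ∈ B, kq Gᶜ b (nb Gᶜ U v) := sum_le_sum fun v hv => (mem_filter.1 hv).2
        _ ≤ _ := sum_le_sum_of_subset (filter_subset _ _)
    have : s ≤ A.card ∨ s ≤ B.card := by omega
    rcases this with h | h
    · have := Nat.mul_le_mul_right (s ^ a) h
      rw [pow_succ, mul_comm] at h1
      omega
    · have := Nat.mul_le_mul_right (s ^ b) h
      rw [pow_succ, mul_comm] at h2
      omega

/-- Greedy clique bound. -/
lemma greedy_clique {ι : Type*} [DecidableEq ι] (G : SimpleGraph V) {s r : ℝ} (hs : 0 ≤ s)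
    (hr : 0 ≤ r) (I : Finset ι) :
    ∀ (U : Finset V) (Y : ι → Finset V), (∀ i ∈ I, Y i ⊆ U) →
      (∀ i ∈ I, ∀ i' ∈ I, i ≠ i' → ∀ y ∈ Y i, nn G (Y i') y ≤ r) →
      (∀ i ∈ I, s + I.card * r ≤ (Y i).card) → s ^ I.card ≤ (kq G I.card U : ℝ) := by
  induction I using Finset.induction_on with
  | empty => intro U Y _ _ _; simp [kq]
  | insert i0 I hi0 ih =>
    intro U Y hYU hnn hc
    rw [card_insert_of_notMem hi0] at hc ⊢
    simp only [kq]
    have hstep : ∀ y ∈ Y i0, s ^ I.card ≤ (kq G I.card (nb G U y) : ℝ) := by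
      intro y hy
      refine ih (nb G U y) (fun i => nb G (Y i) y)
        (fun i hi => nb_mono G (hYU i (mem_insert_of_mem hi)) y) ?_ ?_
      · intro i hi i' hi' hne z hz
        exact (nn_mono G (nb_subset _ _ _) z).trans
          (hnn i (mem_insert_of_mem hi) i' (mem_insert_of_mem hi') hne z (nb_subset _ _ _ hz))
      · intro i hi
        have h1 := hc i (mem_insert_of_mem hi)
        have h2 := hnn i0 (mem_insert_self _ _) i (mem_insert_of_mem hi)
          (fun e => hi0 (e ▸ hi)) y hy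
        have h3 := dg_add_nn G (Y i) y
        unfold dg at h3
        push_cast at h1
        linarith
    have h0 := hc i0 (mem_insert_self _ _)
    have h0' : s ≤ (Y i0).card := by
      have : (0 : ℝ) ≤ ((I.card + 1 : ℕ) : ℝ) * r := by positivity
      linarith
    push_cast
    calc s ^ (I.card + 1) = s * s ^ I.card := by ring
      _ ≤ (Y i0).card * s ^ I.card := by gcongr
      _ = ∑ _y ∈ Y i0, s ^ I.card := by simp
      _ ≤ ∑ y ∈ Y i0, (kq G I.card (nb G U y) : ℝ) := sum_le_sum hstep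
      _ ≤ _ := sum_le_sum_of_subset_of_nonneg (hYU i0 (mem_insert_self _ _))
          fun _ _ _ => Nat.cast_nonneg _

/-- Greedy clique bound inside one almost complete set. -/
lemma greedy_clique_one (G : SimpleGraph V) {s r : ℝ} (hs : 0 ≤ s) (hr : 0 ≤ r) (j : ℕ)
    {U Y : Finset V} (hYU : Y ⊆ U) (hnn : ∀ y ∈ Y, nn G Y y ≤ r) (hc : s + j * r ≤ Y.card) :
    s ^ j ≤ (kq G j U : ℝ) := by
  have := greedy_clique G hs hr (univ : Finset (Fin j)) U (fun _ => Y) (fun _ _ => hYU)
    (fun _ _ _ _ _ y hy => hnn y hy) (fun _ _ => by simpa using hc)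
  simpa using this

lemma av_ge (G : SimpleGraph V) {g : V → ℝ} (hg : ∀ v, 0 ≤ g v) {Z : Finset V} {c : ℝ}
    (hc : ∀ z ∈ Z, c ≤ g z) (v : V) : dg G Z v * c ≤ av G g v := by
  unfold av dg
  calc ((nb G Z v).card : ℝ) * c = ∑ _u ∈ nb G Z v, c := by simp
    _ ≤ ∑ u ∈ nb G Z v, g u := sum_le_sum fun u hu => hc u (nb_subset _ _ _ hu)
    _ ≤ _ := sum_le_sum_of_subset_of_nonneg (nb_mono G (subset_univ _) v) fun u _ _ => hg u

/-- Walk lower bound inside a set of large minimum degree. -/
lemma av_iter_ge (G : SimpleGraph V) {g : V → ℝ} (hg : ∀ v, 0 ≤ g v) {Z : Finset V} {c lam : ℝ}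
    (hc0 : 0 ≤ c) (hl : 0 ≤ lam) (hc : ∀ z ∈ Z, c ≤ g z) (hd : ∀ z ∈ Z, lam ≤ dg G Z z) (j : ℕ) :
    ∀ z ∈ Z, lam ^ j * c ≤ (av G)^[j] g z := by
  induction j with
  | zero => intro z hz; simpa using hc z hz
  | succ j ih =>
    intro z hz
    rw [Function.iterate_succ_apply']
    refine le_trans ?_ (av_ge G (av_iter_nonneg G hg j) ih z)
    rw [pow_succ', mul_assoc]
    exact mul_le_mul_of_nonneg_right (hd z hz) (by positivity)

lemma av_iter_succ_ge (G : SimpleGraph V) {g : V → ℝ} (hg : ∀ v, 0 ≤ g v) {Z : Finset V}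
    {c lam : ℝ} (hc0 : 0 ≤ c) (hl : 0 ≤ lam) (hc : ∀ z ∈ Z, c ≤ g z)
    (hd : ∀ z ∈ Z, lam ≤ dg G Z z) (j : ℕ) (v : V) :
    dg G Z v * (lam ^ j * c) ≤ (av G)^[j + 1] g v := by
  rw [Function.iterate_succ_apply']
  exact av_ge G (av_iter_nonneg G hg j) (av_iter_ge G hg hc0 hl hc hd j) v

lemma wk_ge (G : SimpleGraph V) {Z : Finset V} {lam : ℝ} (hl : 0 ≤ lam)
    (hd : ∀ z ∈ Z, lam ≤ dg G Z z) (j : ℕ) : ∀ z ∈ Z, lam ^ j ≤ wk G j z := by
  intro z hz
  have := av_iter_ge G (g := fun _ => 1) (fun _ => zero_le_one) zero_le_one hl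
    (fun _ _ => le_rfl) hd j z hz
  simpa [wk] using this

lemma wk_succ_ge (G : SimpleGraph V) {Z : Finset V} {lam : ℝ} (hl : 0 ≤ lam)
    (hd : ∀ z ∈ Z, lam ≤ dg G Z z) (j : ℕ) (v : V) :
    dg G Z v * lam ^ j ≤ wk G (j + 1) v := by
  have := av_iter_succ_ge G (g := fun _ => 1) (fun _ => zero_le_one) zero_le_one hl
    (fun _ _ => le_rfl) hd j v
  simpa [wk] using this

end Pool.Agent.Work.MP_f2e3c0_co
end

-- merged part: Pool.Agent.Work.MP_f2e3c0_co.Rich
section
/-!
Vertices starting many walks, a robust form of the stability argument for cliques, and an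
entropy bound for weighted walks.
-/

set_option linter.unusedSectionVars false

namespace Pool.Agent.Work.MP_f2e3c0_co

open Finset

variable {V : Type*} [Fintype V] [DecidableEq V]

lemma wk_pos_of_adj (G : SimpleGraph V) (j : ℕ) : ∀ {v u : V}, G.Adj v u → 0 < wk G j v := by
  induction j with
  | zero => intro v u _; simp [wk_zero]
  | succ j ih =>
    intro v u h
    rw [wk_succ]
    exact (ih h.symm).trans_le (single_le_sum (f := fun u => wk G j u)
      (fun u _ => wk_nonneg G j u) (mem_nb.2 ⟨mem_univ _, h⟩))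

/-- normalised minimum of walk counts -/
noncomputable def phi (G : SimpleGraph V) (l : ℕ) (lam : ℝ) (v : V) : ℝ :=
  (range (l + 1)).inf' ⟨0, by simp⟩ (fun j => wk G j v / lam ^ j)

lemma phi_le (G : SimpleGraph V) {l j : ℕ} (lam : ℝ) (v : V) (hj : j ≤ l) :
    phi G l lam v ≤ wk G j v / lam ^ j :=
  inf'_le (fun j => wk G j v / lam ^ j) (mem_range.2 (by omega))

lemma phi_eq (G : SimpleGraph V) (l : ℕ) (lam : ℝ) (v : V) :
    ∃ j ≤ l, phi G l lam v = wk G j v / lam ^ j := by
  obtain ⟨j, hj, h⟩ := exists_mem_eq_inf' (s := range (l + 1)) ⟨0, by simp⟩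
    (fun j => wk G j v / lam ^ j)
  exact ⟨j, by have := mem_range.1 hj; omega, h⟩

lemma phi_nonneg (G : SimpleGraph V) (l : ℕ) {lam : ℝ} (hl : 0 < lam) (v : V) :
    0 ≤ phi G l lam v := by
  obtain ⟨j, _, h⟩ := phi_eq G l lam v
  rw [h]; exact div_nonneg (wk_nonneg _ _ _) (by positivity)

lemma phi_pos (G : SimpleGraph V) (l : ℕ) {lam : ℝ} (hl : 0 < lam) {v u : V} (h : G.Adj v u) :
    0 < phi G l lam v := by
  obtain ⟨j, _, h'⟩ := phi_eq G l lam v
  rw [h']; exact div_pos (wk_pos_of_adj G j h) (by positivity)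

lemma av_phi_le (G : SimpleGraph V) (l : ℕ) {lam : ℝ} (hl : 0 < lam) {v : V}
    (hv : phi G l lam v < 1) : av G (phi G l lam) v ≤ lam * phi G l lam v := by
  obtain ⟨j, hj, h⟩ := phi_eq G l lam v
  rcases j with _ | j
  · rw [h] at hv; simp [wk_zero] at hv
  rw [h, wk_succ]
  unfold av
  calc ∑ u ∈ nb G univ v, phi G l lam u ≤ ∑ u ∈ nb G univ v, wk G j u / lam ^ j :=
        sum_le_sum fun u _ => phi_le G lam u (by omega)
    _ = _ := by rw [← sum_div]; field_simp; ring

lemma rich_set (G : SimpleGraph V) (l : ℕ) {lam : ℝ} (hl : 0 < lam)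
    (hln : lam ≤ Fintype.card V) {N : ℕ} (hN : 1 ≤ N) :
    ∃ S : Finset V, (∀ v ∈ S, (1 / (N : ℝ)) ^ N * lam ^ l ≤ wk G l v) ∧
      (∀ v ∉ S, dg G S v ≤ 2 * Fintype.card V / N) ∧
      (∀ U, Disjoint U S → ee G U U ≤ U.card * lam) := by
  classical
  have hNpos : (0 : ℝ) < N := by exact_mod_cast hN
  set ε : ℝ := 1 / N with hε
  have hε0 : 0 < ε := by positivity
  have hε1 : ε ≤ 1 := by rw [hε, div_le_one hNpos]; exact_mod_cast hN
  set S : ℕ → Finset V := fun i => univ.filter (fun v => ε ^ i ≤ phi G l lam v) with hS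
  have hmem : ∀ i v, v ∈ S i ↔ ε ^ i ≤ phi G l lam v := by intro i v; simp [hS]
  have hsub : ∀ i, S i ⊆ S (i + 1) := by
    intro i v hv
    rw [hmem] at hv ⊢
    exact (pow_le_pow_of_le_one hε0.le hε1 (Nat.le_succ i)).trans hv
  obtain ⟨i, hi, hci⟩ : ∃ i < N, ((S (i + 1)).card : ℝ) - (S i).card ≤ Fintype.card V / N := by
    clear * - N V S hN
    by_contra hcon
    push Not at hcon
    have h1 : ∑ _i ∈ range N, (Fintype.card V : ℝ) / N
        < ∑ i ∈ range N, (((S (i + 1)).card : ℝ) - (S i).card) :=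
      sum_lt_sum_of_nonempty ⟨0, by simp; omega⟩ fun i hi => hcon i (mem_range.1 hi)
    rw [sum_range_sub (fun i => ((S i).card : ℝ))] at h1
    simp only [sum_const, card_range, nsmul_eq_mul] at h1
    have h2 := card_le_n (S N)
    have h3 : (0 : ℝ) ≤ (S 0).card := Nat.cast_nonneg _
    have h4 : (N : ℝ) * (Fintype.card V / N) = Fintype.card V := by field_simp
    linarith
  have hlt : ∀ v ∉ S (i + 1), phi G l lam v < 1 := by
    intro v hv
    rw [hmem, not_le] at hv
    exact hv.trans_le (pow_le_one₀ hε0.le hε1)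
  refine ⟨S (i + 1), fun v hv => ?_, fun v hv => ?_, fun U hU => ?_⟩
  · rw [hmem] at hv
    have h1 := phi_le G lam v (le_refl l)
    have h2 : ε ^ N ≤ ε ^ (i + 1) := pow_le_pow_of_le_one hε0.le hε1 hi
    have h3 : ε ^ N ≤ wk G l v / lam ^ l := by linarith
    rwa [le_div_iff₀ (by positivity)] at h3
  · have h1 := av_phi_le G l hl (hlt v hv)
    have h2 := av_ge G (phi_nonneg G l hl) (Z := S i) (c := ε ^ i) (fun z hz => (hmem _ _).1 hz) v
    rw [hmem, not_le] at hv
    have h3 : dg G (S i) v * ε ^ i ≤ (lam * ε) * ε ^ i := by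
      calc _ ≤ lam * phi G l lam v := h2.trans h1
        _ ≤ lam * ε ^ (i + 1) := by gcongr
        _ = _ := by ring
    have h4 : dg G (S i) v ≤ lam * ε := le_of_mul_le_mul_right h3 (by positivity)
    have h5 := dg_le_add G (S (i + 1)) (S i) v
    rw [card_sdiff_of_subset (hsub i), Nat.cast_sub (card_le_card (hsub i))] at h5
    have h6 : lam * ε ≤ Fintype.card V / N := by
      rw [hε, mul_one_div]; gcongr
    have h7 : 2 * (Fintype.card V : ℝ) / N = Fintype.card V / N + Fintype.card V / N := by ring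
    linarith
  · set φ := phi G l lam with hφ
    have h1 : ee G U U ≤ ∑ v ∈ U, ∑ u ∈ nb G U v, (φ u / φ v + φ v / φ u) / 2 := by
      clear * - V G U φ l lam hl hφ
      unfold ee
      refine sum_le_sum fun v _ => ?_
      rw [dg_eq_sum]
      refine sum_le_sum fun u hu => ?_
      have hadj := (mem_nb.1 hu).2
      have hv := phi_pos G l hl hadj
      have hu' := phi_pos G l hl hadj.symm
      rw [← hφ] at hv hu'
      rw [div_add_div _ _ hv.ne' hu'.ne', le_div_iff₀ (by norm_num), le_div_iff₀ (by positivity)]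
      nlinarith [sq_nonneg (φ u - φ v)]
    have h2 : ∑ v ∈ U, ∑ u ∈ nb G U v, (φ u / φ v + φ v / φ u) / 2
        = ∑ v ∈ U, ∑ u ∈ nb G U v, φ u / φ v := by
      have := sum_nb_comm G U U (fun v u => φ v / φ u)
      simp only [add_div, sum_add_distrib, ← sum_div] at this ⊢
      rw [this]; ring
    rw [h2] at h1
    refine h1.trans ?_
    have : ∀ v ∈ U, ∑ u ∈ nb G U v, φ u / φ v ≤ lam := by
      intro v hv
      have hvS : v ∉ S (i + 1) := disjoint_left.1 hU hv
      have h3 := av_phi_le G l hl (hlt v hvS)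
      rw [← hφ] at h3
      rw [← sum_div]
      have h4 : ∑ u ∈ nb G U v, φ u ≤ av G φ v :=
        sum_le_sum_of_subset_of_nonneg (nb_mono G (subset_univ _) v)
          fun u _ _ => phi_nonneg G l hl u
      rcases (phi_nonneg G l hl v).eq_or_lt with h0 | h0
      · rw [← hφ] at h0; rw [← h0]; simpa using hl.le
      · rw [← hφ] at h0; rw [div_le_iff₀ h0]; linarith
    refine (sum_le_sum this).trans ?_
    simp

/-- number of ordered cross pairs between different parts -/
noncomputable def crs {ι : Type*} [Fintype ι] [DecidableEq ι] (G : SimpleGraph V)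
    (W : ι → Finset V) : ℝ := ∑ i, ∑ j, if i = j then 0 else ee G (W i) (W j)

lemma exists_low (f : V → ℝ) (U : Finset V) (g : ℕ) (hg : g ≤ U.card) :
    ∃ L ⊆ U, L.card = g ∧ ∀ a ∈ L, ∀ b ∈ U, b ∉ L → f b ≤ f a := by
  induction g with
  | zero => exact ⟨∅, empty_subset _, rfl, by simp⟩
  | succ g ih =>
    obtain ⟨L, hL, hc, h⟩ := ih (by omega)
    have hne : (U \ L).Nonempty := by
      rw [← card_pos, card_sdiff_of_subset hL]; omega
    obtain ⟨a, ha, hmax⟩ := exists_max_image (U \ L) f hne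
    rw [mem_sdiff] at ha
    refine ⟨insert a L, insert_subset ha.1 hL, by rw [card_insert_of_notMem ha.2, hc], ?_⟩
    intro x hx b hb hbL
    rw [mem_insert, not_or] at hbL
    rcases mem_insert.1 hx with rfl | hx
    · exact hmax b (mem_sdiff.2 ⟨hb, hbL.2⟩)
    · exact h x hx b hb hbL.2

/-- Robust stability: few cliques in the complement give a near partition into cliques. -/
lemma robust_stab (G : SimpleGraph V) (g : ℕ) (m : ℕ) :
    ∀ U : Finset V, kq Gᶜ (m + 1) U < g ^ (m + 1) →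
      ∃ W : Fin m → Finset V, (∀ i, W i ⊆ U) ∧ (∀ i j, i ≠ j → Disjoint (W i) (W j)) ∧
        (U.card : ℝ) ≤ ∑ i, ((W i).card : ℝ) + g ∧
        ∑ i, ((W i).card : ℝ) ^ 2 + crs G W / 2 - m * ((g + 1) * Fintype.card V) ≤ ee G U U := by
  induction m with
  | zero =>
    intro U hU
    refine ⟨fun i => i.elim0, fun i => i.elim0, fun i => i.elim0, ?_, ?_⟩
    · simp [kq] at hU
      simpa using hU.le
    · simpa [crs] using ee_nonneg G U U
  | succ m ih =>
    intro U hU
    by_cases hg : U.card < g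
    · refine ⟨fun _ => ∅, fun _ => empty_subset _, fun _ _ _ => by simp, ?_, ?_⟩
      · simpa using hg.le
      · have := ee_nonneg G U U
        have h2 : (0 : ℝ) ≤ ((m + 1 : ℕ) : ℝ) * ((g + 1) * Fintype.card V) := by positivity
        have h3 : crs G (fun _ : Fin (m + 1) => (∅ : Finset V)) = 0 := by simp [crs, ee]
        simp only [card_empty, Nat.cast_zero, h3]
        simp only [ne_eq, OfNat.ofNat_ne_zero, not_false_eq_true, zero_pow, sum_const_zero]
        linarith
    push Not at hg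
    obtain ⟨L, hL, hLc, hLmax⟩ := exists_low (fun v => dg Gᶜ U v) U g hg
    obtain ⟨v, hvL, hv⟩ : ∃ v ∈ L, kq Gᶜ (m + 1) (nb Gᶜ U v) < g ^ (m + 1) := by
      by_contra hcon
      push Not at hcon
      have h1 : g * g ^ (m + 1) ≤ kq Gᶜ (m + 1 + 1) U := by
        rw [kq]
        calc g * g ^ (m + 1) = ∑ _v ∈ L, g ^ (m + 1) := by simp [hLc]
          _ ≤ ∑ v ∈ L, kq Gᶜ (m + 1) (nb Gᶜ U v) := sum_le_sum hcon
          _ ≤ _ := sum_le_sum_of_subset hL
      rw [pow_succ' g (m + 1)] at hU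
      omega
    set U1 := nb Gᶜ U v with hU1
    have hU1U : U1 ⊆ U := nb_subset _ _ _
    set W0 := U \ U1 with hW0
    obtain ⟨W, hWU, hWd, hWc, hWe⟩ := ih U1 hv
    have hd0 : Disjoint W0 U1 := sdiff_disjoint
    have hcard : (W0.card : ℝ) + U1.card = U.card := by
      rw [← Nat.cast_add, card_sdiff_add_card_eq_card hU1U]
    refine ⟨Fin.cons W0 W, fun i => ?_, fun i j hij => ?_, ?_, ?_⟩
    · refine Fin.cases ?_ (fun i => ?_) i
      · simpa using sdiff_subset
      · simpa using (hWU i).trans hU1U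
    · revert hij
      refine Fin.cases ?_ (fun i => ?_) i <;> refine Fin.cases ?_ (fun j => ?_) j <;> intro hij
      · exact absurd rfl hij
      · simpa using hd0.mono_right (hWU j)
      · simpa using (hd0.mono_right (hWU i)).symm
      · simpa using hWd i j (fun e => hij (by rw [e]))
    · rw [Fin.sum_univ_succ]
      simp only [Fin.cons_zero, Fin.cons_succ]
      linarith
    · have hcrs : crs G (Fin.cons W0 W : Fin (m + 1) → Finset V)
          = crs G W + 2 * ∑ j, ee G W0 (W j) := by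
        unfold crs
        rw [Fin.sum_univ_succ, Fin.sum_univ_succ]
        simp only [Fin.sum_univ_succ, Fin.cons_zero, Fin.cons_succ, if_true, Fin.succ_inj,
          Fin.succ_ne_zero, (Fin.succ_ne_zero _).symm, if_false, sum_add_distrib]
        simp only [ee_comm G (W _) W0]
        ring
      have hsum : ∑ j, ee G W0 (W j) ≤ ee G W0 U1 := by
        unfold ee
        rw [sum_comm]
        refine sum_le_sum fun u _ => ?_
        rw [← dg_biUnion G univ W (fun i _ j _ hij => hWd i j hij)]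
        exact dg_mono G (biUnion_subset.2 fun i _ => hWU i) u
      have hU' : U = W0 ∪ U1 := (sdiff_union_of_subset hU1U).symm
      have he : ee G U U = ee G W0 U + ee G W0 U1 + ee G U1 U1 := by
        conv_lhs => rw [hU', ee_union_left G hd0, ← hU']
        conv_lhs => arg 2; rw [hU', ee_union_right G hd0, ee_comm G U1 W0]
        ring
      have hW0e : (W0.card : ℝ) ^ 2 - (g + 1) * Fintype.card V ≤ ee G W0 U := by
        clear * - V G W0 L U v hLmax hvL U1 hcard g m hLc
        have h1 : ee G (W0 \ L) U ≤ ee G W0 U :=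
          sum_le_sum_of_subset_of_nonneg sdiff_subset fun u _ _ => dg_nonneg _ _ _
        have h2 : ((W0 \ L).card : ℝ) * (W0.card - 1) ≤ ee G (W0 \ L) U := by
          refine le_ee_of G fun u hu => ?_
          rw [mem_sdiff] at hu
          have h3 := hLmax v hvL u (sdiff_subset hu.1) hu.2
          have h4 := dg_add_compl_ge G U u
          have h5 : dg Gᶜ U v = U1.card := rfl
          linarith
        have h3 : (W0.card : ℝ) - g ≤ (W0 \ L).card := by
          have := le_card_sdiff L W0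
          rw [hLc] at this
          have h' : W0.card ≤ (W0 \ L).card + g := by omega
          have : (W0.card : ℝ) ≤ (W0 \ L).card + g := by exact_mod_cast h'
          linarith
        have h4 := card_le_n W0
        have h5 : ((W0 \ L).card : ℝ) ≤ W0.card := by exact_mod_cast card_le_card sdiff_subset
        have h6 : (0 : ℝ) ≤ W0.card := Nat.cast_nonneg _
        have h7 : (0 : ℝ) ≤ g := Nat.cast_nonneg _
        nlinarith
      rw [hcrs, Fin.sum_univ_succ]
      simp only [Fin.cons_zero, Fin.cons_succ]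
      push_cast
      linarith

lemma jensen_log {ι : Type*} (s : Finset ι) (p x : ι → ℝ) (hp : ∀ i ∈ s, 0 ≤ p i)
    (hx : ∀ i ∈ s, 0 < x i) (hP : 0 < ∑ i ∈ s, p i) :
    ∑ i ∈ s, p i * Real.log (x i)
      ≤ (∑ i ∈ s, p i) * Real.log ((∑ i ∈ s, p i * x i) / ∑ i ∈ s, p i) := by
  set P := ∑ i ∈ s, p i with hPd
  set M := ∑ i ∈ s, p i * x i with hM
  have hMpos : 0 < M := by
    obtain ⟨i, hi, hpi⟩ := exists_lt_of_sum_lt (f := fun _ => (0 : ℝ)) (g := p) (s := s)
      (by simpa using hP)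
    exact (mul_pos hpi (hx i hi)).trans_le (single_le_sum (f := fun i => p i * x i)
      (fun j hj => mul_nonneg (hp j hj) (hx j hj).le) hi)
  set μ := M / P with hμ
  have hμpos : 0 < μ := div_pos hMpos hP
  have h1 : ∀ i ∈ s, p i * Real.log (x i) ≤ p i * Real.log μ + (p i * x i / μ - p i) := by
    intro i hi
    have h2 := Real.log_le_sub_one_of_pos (div_pos (hx i hi) hμpos)
    rw [Real.log_div (hx i hi).ne' hμpos.ne'] at h2
    have h3 := mul_le_mul_of_nonneg_left h2 (hp i hi)
    have : p i * (x i / μ - 1) = p i * x i / μ - p i := by ring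
    linarith
  refine (sum_le_sum h1).trans ?_
  rw [sum_add_distrib, sum_sub_distrib, ← sum_mul, ← sum_div, ← hM, ← hPd]
  have : M / μ = P := by rw [hμ]; field_simp
  linarith

lemma wk_pos (G : SimpleGraph V) (hd : ∀ v, 0 < dg G univ v) (j : ℕ) (v : V) : 0 < wk G j v := by
  have := hd v
  unfold dg at this
  obtain ⟨u, hu⟩ := card_pos.1 (Nat.cast_pos.1 this)
  exact wk_pos_of_adj G j (mem_nb.1 hu).2

lemma entropy_walk (G : SimpleGraph V) (hd : ∀ v, 0 < dg G univ v) (j : ℕ) :
    j * ∑ v, dg G univ v * Real.log (dg G univ v) ≤ ∑ v, dg G univ v * Real.log (wk G j v) := by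
  induction j with
  | zero => simp [wk_zero]
  | succ j ih =>
    have h1 : ∀ v, ∑ u ∈ nb G univ v, Real.log (wk G j u)
        ≤ dg G univ v * Real.log (wk G (j + 1) v) - dg G univ v * Real.log (dg G univ v) := by
      intro v
      have h := jensen_log (nb G univ v) (fun _ => 1) (wk G j) (fun _ _ => zero_le_one)
        (fun u _ => wk_pos G hd j u) (by rw [← dg_eq_sum]; exact hd v)
      simp only [one_mul, ← dg_eq_sum, ← wk_succ] at h
      rw [Real.log_div (wk_pos G hd _ _).ne' (hd v).ne'] at h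
      linarith
    have h2 := sum_le_sum fun v (_ : v ∈ (univ : Finset V)) => h1 v
    rw [sum_nb_comm G univ univ (fun _ u => Real.log (wk G j u)), sum_sub_distrib] at h2
    simp only [sum_const, nsmul_eq_mul] at h2
    unfold dg at *
    push_cast
    linarith

/-- Entropy bound for weighted walks. -/
lemma entropy_bound [Nonempty V] (G : SimpleGraph V) (hd : ∀ v, 0 < dg G univ v) (g : V → ℝ)
    (hg : ∀ v, 0 < g v) (l : ℕ) :
    ∑ v, dg G univ v * Real.log (g v)
        + l * (ee G univ univ * Real.log (ee G univ univ / Fintype.card V))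
      ≤ ee G univ univ * Real.log ((∑ v, g v * wk G (l + 1) v) / ee G univ univ) := by
  set Q := ee G univ univ with hQ
  have hQ' : Q = ∑ v, dg G univ v := rfl
  have hQpos : 0 < Q := by rw [hQ']; exact sum_pos (fun v _ => hd v) univ_nonempty
  have hn : (0 : ℝ) < Fintype.card V := by exact_mod_cast Fintype.card_pos
  have h1 := entropy_walk G hd (l + 1)
  have h2 := jensen_log univ (dg G univ) (fun v => (dg G univ v)⁻¹) (fun v _ => (hd v).le)
    (fun v _ => inv_pos.2 (hd v)) (hQ' ▸ hQpos)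
  have h2a : ∑ v, dg G univ v * (dg G univ v)⁻¹ = Fintype.card V := by
    rw [sum_congr rfl fun v _ => mul_inv_cancel₀ (hd v).ne']; simp
  rw [h2a, ← hQ'] at h2
  simp only [Real.log_inv, mul_neg, sum_neg_distrib] at h2
  have h2b : Real.log (Fintype.card V / Q) = - Real.log (Q / Fintype.card V) := by
    rw [← Real.log_inv, inv_div]
  rw [h2b] at h2
  have h3 := jensen_log univ (dg G univ) (fun v => g v * wk G (l + 1) v / dg G univ v)
    (fun v _ => (hd v).le) (fun v _ => div_pos (mul_pos (hg v) (wk_pos G hd _ _)) (hd v))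
    (hQ' ▸ hQpos)
  have h3a : ∑ v, dg G univ v * (g v * wk G (l + 1) v / dg G univ v)
      = ∑ v, g v * wk G (l + 1) v :=
    sum_congr rfl fun v _ => by have := (hd v).ne'; field_simp
  have h3b : ∑ v, dg G univ v * Real.log (g v * wk G (l + 1) v / dg G univ v)
      = ∑ v, dg G univ v * Real.log (g v) + ∑ v, dg G univ v * Real.log (wk G (l + 1) v)
        - ∑ v, dg G univ v * Real.log (dg G univ v) := by
    rw [← sum_add_distrib, ← sum_sub_distrib]
    refine sum_congr rfl fun v _ => ?_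
    rw [Real.log_div (mul_pos (hg v) (wk_pos G hd _ _)).ne' (hd v).ne',
      Real.log_mul (hg v).ne' (wk_pos G hd _ _).ne']
    ring
  rw [h3a, h3b, ← hQ'] at h3
  push_cast at h1
  have h4 : (l : ℝ) * (Q * Real.log (Q / Fintype.card V))
      ≤ l * ∑ v, dg G univ v * Real.log (dg G univ v) :=
    mul_le_mul_of_nonneg_left (by linarith) (Nat.cast_nonneg _)
  linarith

end Pool.Agent.Work.MP_f2e3c0_co
end

-- merged part: Pool.Agent.Work.MP_f2e3c0_co.Stage1
section
/-!
Rough structure: one of the two colours has `m` large cores with few edges between them.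
-/

set_option linter.unusedSectionVars false

namespace Pool.Agent.Work.MP_f2e3c0_co

open Finset

variable {V : Type*} [Fintype V] [DecidableEq V]

/-- large disjoint sets with few edges of `G` between them -/
def Cores (G : SimpleGraph V) (m : ℕ) (D η : ℝ) (C : Fin m → Finset V) : Prop :=
  (∀ i j, i ≠ j → Disjoint (C i) (C j)) ∧ (∀ i, D - η ≤ (C i).card) ∧
    (∀ i, ∀ v ∈ C i, ∑ j ∈ univ.erase i, dg G (C j) v ≤ η)

lemma crs_ge {ι : Type*} [Fintype ι] [DecidableEq ι] (G : SimpleGraph V) (W : ι → Finset V)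
    (i : ι) : ∑ v ∈ W i, ∑ j ∈ univ.erase i, dg G (W j) v ≤ crs G W := by
  unfold crs
  refine le_trans ?_ (single_le_sum (f := fun i => ∑ j, if i = j then 0 else ee G (W i) (W j))
    (fun i _ => sum_nonneg fun j _ => by split_ifs; exacts [le_rfl, ee_nonneg _ _ _]) (mem_univ i))
  rw [sum_comm, ← add_sum_erase _ _ (mem_univ i)]
  simp only [if_true, zero_add]
  refine sum_le_sum fun j hj => ?_
  rw [if_neg (ne_of_mem_erase hj).symm]
  rfl

lemma crs_nonneg {ι : Type*} [Fintype ι] [DecidableEq ι] (G : SimpleGraph V) (W : ι → Finset V) :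
    0 ≤ crs G W :=
  sum_nonneg fun _ _ => sum_nonneg fun _ _ => by split_ifs; exacts [le_rfl, ee_nonneg _ _ _]

lemma sum_sq_dev {m : ℕ} (w : Fin m → ℝ) (D : ℝ) :
    ∑ i, w i ^ 2 = ∑ i, (w i - D) ^ 2 + 2 * D * ∑ i, w i - m * D ^ 2 := by
  have : ∀ i, w i ^ 2 = (w i - D) ^ 2 + 2 * D * w i - D ^ 2 := fun i => by ring
  rw [sum_congr rfl fun i _ => this i, sum_sub_distrib, sum_add_distrib, ← mul_sum]
  simp

lemma nine_pow_ge (m : ℕ) : (9 + 2 * m : ℝ) ≤ 9 ^ (m + 1) := by
  induction m with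
  | zero => simp
  | succ m ih =>
    rw [pow_succ]; push_cast
    have : (0 : ℝ) ≤ m := Nat.cast_nonneg _
    linarith

lemma stage1_aux (G : SimpleGraph V) {m : ℕ} (hm : 3 ≤ m) {D η e δ : ℝ} {g : ℕ}
    (hn : (Fintype.card V : ℝ) = m * D) (hD : 0 < D) (hη : 0 < η) (he : 0 ≤ e)
    (hg1 : 1 ≤ g) (hgδ : (g : ℝ) ≤ δ) {SR SB : Finset V}
    (hKR : kq G (m + 1) SR < g ^ (m + 1)) (hKB : kq Gᶜ (m + 1) SB < g ^ (m + 1))
    (hbB : ∀ v ∉ SB, dg Gᶜ SB v ≤ δ)
    (hcR : ∀ U, Disjoint U SR → ee G U U ≤ U.card * (D + e))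
    (hcB : ∀ U, Disjoint U SB → ee Gᶜ U U ≤ U.card * (D + e))
    (hB : ((SR \ SB).card : ℝ) ≤ 2 * δ)
    (hτ : 4 * (Fintype.card V * (2 * e + 3 * 9 ^ (m + 1) * δ)) ≤ η ^ 2) :
    ∃ C, Cores G m D η C := by
  classical
  set n : ℝ := (Fintype.card V : ℝ) with hnd
  have hδ1 : 1 ≤ δ := le_trans (by exact_mod_cast hg1) hgδ
  have hA : ((SR ∩ SB).card : ℝ) ≤ 9 ^ (m + 1) * δ := by
    by_contra hcon
    push Not at hcon
    have h1 : 3 ^ (m + 1 + (m + 1)) * g ≤ (SR ∩ SB).card := by
      have : ((3 ^ (m + 1 + (m + 1)) * g : ℕ) : ℝ) ≤ (SR ∩ SB).card := by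
        push_cast
        rw [pow_add, ← mul_pow]
        norm_num
        exact le_trans (by gcongr) hcon.le
      exact_mod_cast this
    rcases ramsey_mult G hg1 _ (m + 1) (m + 1) _ rfl h1 with h | h
    · exact absurd (h.trans (kq_mono _ _ inter_subset_left)) (not_le.2 hKR)
    · exact absurd (h.trans (kq_mono _ _ inter_subset_right)) (not_le.2 hKB)
  have ha : (SR.card : ℝ) ≤ (9 ^ (m + 1) + 2) * δ := by
    have := card_sdiff_add_card_inter SR SB
    have h' : ((SR \ SB).card : ℝ) + (SR ∩ SB).card = SR.card := by exact_mod_cast this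
    linarith
  set C := SB \ SR with hC
  set Dd := (SR ∪ SB)ᶜ with hDd
  have hdisj : Disjoint C Dd := by
    rw [disjoint_left]; intro v hv hv'
    rw [hDd, mem_compl, mem_union] at hv'
    exact hv' (Or.inr (mem_sdiff.1 hv).1)
  have hP : C ∪ Dd = SRᶜ := by
    clear * - V C Dd SR SB hC hDd
    ext v; simp only [hC, hDd, mem_union, mem_sdiff, mem_compl]; tauto
  have hcd : (C.card : ℝ) + Dd.card = n - SR.card := by
    rw [← Nat.cast_add, ← card_union_of_disjoint hdisj, hP, card_compl,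
      Nat.cast_sub (card_le_univ _)]
  have h1 := hcR (C ∪ Dd) (by rw [hP]; exact disjoint_compl_left)
  rw [ee_union_left G hdisj, ee_union_right G hdisj, ee_union_right G hdisj, ee_comm G C Dd,
    card_union_of_disjoint hdisj, Nat.cast_add] at h1
  have h2 : (Dd.card : ℝ) * (C.card - δ) ≤ ee G Dd C := by
    refine le_ee_of G fun v hv => ?_
    have hvC : v ∉ C := disjoint_right.1 hdisj hv
    have hvB : v ∉ SB := by
      rw [hDd, mem_compl, mem_union] at hv; exact fun h => hv (Or.inr h)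
    have := dg_add_compl_of_not_mem G hvC
    have := dg_mono Gᶜ (sdiff_subset : C ⊆ SB) v
    have := hbB v hvB
    linarith
  have h3 : (Dd.card : ℝ) * (Dd.card - 1) ≤ ee G Dd Dd + ee Gᶜ Dd Dd := by
    unfold ee
    rw [← sum_add_distrib]
    refine le_trans ?_ (sum_le_sum fun v _ => dg_add_compl_ge G Dd v)
    simp; linarith
  have h4 := hcB Dd (by
    rw [disjoint_left]; intro v hv hv'
    rw [hDd, mem_compl, mem_union] at hv; exact hv (Or.inr hv'))
  obtain ⟨W, hWC, hWd, hWc, hWe⟩ := robust_stab G g m C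
    (lt_of_le_of_lt (kq_mono _ _ sdiff_subset) hKB)
  rw [sum_sq_dev _ D] at hWe
  set c : ℝ := (C.card : ℝ)
  set d : ℝ := (Dd.card : ℝ)
  set a : ℝ := (SR.card : ℝ)
  set S := ∑ i, (((W i).card : ℝ) - D) ^ 2 with hS
  set w := ∑ i, ((W i).card : ℝ)
  have hc0 : 0 ≤ c := Nat.cast_nonneg _
  have hd0 : 0 ≤ d := Nat.cast_nonneg _
  have ha0 : 0 ≤ a := Nat.cast_nonneg _
  have hm3 : (3 : ℝ) ≤ m := by exact_mod_cast hm
  have h3D : 3 * D ≤ n := by rw [hn]; gcongr
  have hg0 : (0 : ℝ) ≤ g := Nat.cast_nonneg _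
  have hmain : S + crs G W / 2 ≤ n * (2 * e + 3 * 9 ^ (m + 1) * δ) := by
    clear * - m D n hn d a c hc0 h3D V Dd g w hWc hD SR hcd ha0 e he δ hδ1 hd0 hgδ hm hg1 ha S G W
      C h3 h4 h1 h2 hWe
    have e1 : (m : ℝ) * D ^ 2 = n * D := by rw [hn]; ring
    have e2 : d * (3 * D - n + a - c) ≤ d * a := by gcongr; linarith
    have e3 : 2 * D * (c - g) ≤ 2 * D * w := by gcongr; linarith
    have e4 : D * a ≤ n * a := by gcongr; linarith
    have e5 : d * a ≤ n * a := by gcongr; linarith
    have e6 : (c + 2 * d) * e ≤ 2 * n * e := by gcongr; linarith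
    have e7 : d * δ ≤ n * δ := by gcongr; linarith
    have e8 : d ≤ n * δ := le_trans (le_mul_of_one_le_right hd0 hδ1) e7
    have e9 : (m : ℝ) * ((g + 1) * n) ≤ m * ((2 * δ) * n) := by gcongr; linarith
    have e10 : D * g ≤ n * δ := by gcongr; linarith
    have hn0 : 0 ≤ n := by linarith
    have e11 : n * a ≤ n * ((9 ^ (m + 1) + 2) * δ) := by gcongr
    have e12 : (9 + 2 * m : ℝ) * (n * δ) ≤ 9 ^ (m + 1) * (n * δ) :=
      mul_le_mul_of_nonneg_right (nine_pow_ge m) (mul_nonneg hn0 (by linarith))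
    have e13 : c = n - a - d := by linarith
    have e14 : n * D - D * c + 2 * D * d - 2 * d * c - d ^ 2 = D * a + d * (3 * D - n + a - c) := by
      rw [e13]; ring
    linarith
  have hS0 : 0 ≤ S := sum_nonneg fun _ _ => sq_nonneg _
  have hcr0 := crs_nonneg G W
  refine ⟨fun i => (W i).filter (fun v => ∑ j ∈ univ.erase i, dg G (W j) v ≤ η), ?_, ?_, ?_⟩
  · intro i j hij
    exact (hWd i j hij).mono (filter_subset _ _) (filter_subset _ _)
  · intro i
    have k1 : (((W i).card : ℝ) - D) ^ 2 ≤ (η / 2) ^ 2 := by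
      have : (((W i).card : ℝ) - D) ^ 2 ≤ S :=
        single_le_sum (f := fun i => (((W i).card : ℝ) - D) ^ 2) (fun _ _ => sq_nonneg _) (mem_univ i)
      linarith
    have k2 : D - η / 2 ≤ (W i).card := by
      clear * - η V W i D k1 hη
      have := abs_le_of_sq_le_sq' k1 (by linarith)
      linarith [this.1]
    have k3 := crs_ge G W i
    set B := (W i).filter (fun v => ¬ ∑ j ∈ univ.erase i, dg G (W j) v ≤ η) with hBd
    have k4 : (B.card : ℝ) * η ≤ ∑ v ∈ W i, ∑ j ∈ univ.erase i, dg G (W j) v := by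
      calc (B.card : ℝ) * η = ∑ _v ∈ B, η := by simp
        _ ≤ ∑ v ∈ B, ∑ j ∈ univ.erase i, dg G (W j) v :=
          sum_le_sum fun v hv => (not_le.1 (mem_filter.1 hv).2).le
        _ ≤ _ := sum_le_sum_of_subset_of_nonneg (filter_subset _ _)
          fun v _ _ => sum_nonneg fun j _ => dg_nonneg _ _ _
    have k5 : (B.card : ℝ) ≤ η / 2 := by
      clear * - η V B n e m δ S G W i hτ hmain hS0 k3 k4 hη
      refine le_of_mul_le_mul_right ?_ hη
      linarith
    have k6 := card_filter_add_card_filter_not (s := W i)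
      (fun v => ∑ j ∈ univ.erase i, dg G (W j) v ≤ η)
    have k7 : (((W i).filter (fun v => ∑ j ∈ univ.erase i, dg G (W j) v ≤ η)).card : ℝ) + B.card
        = (W i).card := by exact_mod_cast k6
    clear * - D η V m G W i B k2 k5 k7
    linarith
  · intro i v hv
    refine le_trans (sum_le_sum fun j _ => dg_mono G (filter_subset _ _) v) (mem_filter.1 hv).2

lemma kq_rich_lt (G : SimpleGraph V) {m l N : ℕ} (hm : 1 ≤ m) {D : ℝ} (hN : 1 ≤ N)
    (hn : (Fintype.card V : ℝ) = m * D) (hD : 0 < D)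
    (hl : 2 * (N : ℝ) ^ (N + m + 1) < (1 + 1 / (N : ℝ)) ^ l)
    (hR : ∑ v, kv G m v * wk G l v ≤ 2 * Fintype.card V * D ^ (m + l)) {S : Finset V}
    (hS : ∀ v ∈ S, (1 / (N : ℝ)) ^ N * (D + D / N) ^ l ≤ wk G l v) :
    kq G (m + 1) S < ⌈(Fintype.card V : ℝ) / N⌉₊ ^ (m + 1) := by
  set n : ℝ := (Fintype.card V : ℝ) with hnd
  have hNpos : (0 : ℝ) < N := by exact_mod_cast hN
  have hm1 : (1 : ℝ) ≤ m := by exact_mod_cast hm
  have hDn : D ≤ n := by clear * - D n m hn hD hm1; rw [hn]; nlinarith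
  have hnpos : 0 < n := by linarith
  by_contra hcon
  push Not at hcon
  have h1 : (n / N) ^ (m + 1) ≤ (kq G (m + 1) S : ℝ) := by
    refine le_trans ?_ (Nat.cast_le.2 hcon)
    push_cast
    gcongr
    exact Nat.le_ceil _
  have h2 : (kq G (m + 1) S : ℝ) * ((1 / (N : ℝ)) ^ N * (D + D / N) ^ l)
      ≤ ∑ v, kv G m v * wk G l v := by
    rw [kq, Nat.cast_sum, sum_mul]
    refine le_trans (sum_le_sum fun v hv => ?_) (sum_le_sum_of_subset_of_nonneg (subset_univ S)
      fun v _ _ => mul_nonneg (kv_nonneg _ _ _) (wk_nonneg _ _ _))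
    refine mul_le_mul ?_ (hS v hv) (by positivity) (kv_nonneg _ _ _)
    exact Nat.cast_le.2 (kq_mono _ _ (nb_mono G (subset_univ _) v))
  have h3 : (n / N) ^ (m + 1) * ((1 / (N : ℝ)) ^ N * (D + D / N) ^ l) ≤ 2 * n * D ^ (m + l) :=
    le_trans (by gcongr) (h2.trans hR)
  have e1 : D + D / N = (1 + 1 / (N : ℝ)) * D := by ring
  rw [e1, mul_pow] at h3
  have h4 : (n / N) ^ (m + 1) * ((1 / (N : ℝ)) ^ N * ((2 * (N : ℝ) ^ (N + m + 1)) * D ^ l))
      < (n / N) ^ (m + 1) * ((1 / (N : ℝ)) ^ N * ((1 + 1 / (N : ℝ)) ^ l * D ^ l)) := by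
    clear * - n N m D l hl hD hN hnpos
    gcongr
  have e2 : (n / N) ^ (m + 1) * ((1 / (N : ℝ)) ^ N * ((2 * (N : ℝ) ^ (N + m + 1)) * D ^ l))
      = 2 * n * (n ^ m * D ^ l) := by
    rw [div_pow, one_div, inv_pow]
    field_simp
    ring
  have h5 : 2 * n * D ^ (m + l) ≤ 2 * n * (n ^ m * D ^ l) := by
    clear * - n D m l hD hDn hnpos
    rw [pow_add]; gcongr
  clear * - n N m l D h3 h4 e2 h5
  linarith

lemma stage1 (G : SimpleGraph V) {m l N : ℕ} (hm : 3 ≤ m) {D κ : ℝ}
    (hn : (Fintype.card V : ℝ) = m * D) (hD : 0 < D) (hκ : 0 < κ) (hN1 : 1 ≤ N)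
    (hN : 32 * (m : ℝ) ^ 2 * 9 ^ (m + 1) ≤ κ ^ 2 * N)
    (hl : 2 * (N : ℝ) ^ (N + m + 1) < (1 + 1 / (N : ℝ)) ^ l) (hnN : N ≤ Fintype.card V)
    (hR : ∑ v, kv G m v * wk G l v ≤ 2 * Fintype.card V * D ^ (m + l))
    (hB : ∑ v, kv Gᶜ m v * wk Gᶜ l v ≤ 2 * Fintype.card V * D ^ (m + l)) :
    (∃ C, Cores G m D (κ * D) C) ∨ (∃ C, Cores Gᶜ m D (κ * D) C) := by
  classical
  have hNpos : (0 : ℝ) < N := by exact_mod_cast hN1
  have hN1' : (1 : ℝ) ≤ N := by exact_mod_cast hN1
  have hm3 : (3 : ℝ) ≤ m := by exact_mod_cast hm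
  have hDN : D / N ≤ D := div_le_self hD.le hN1'
  have hlam : D + D / N ≤ Fintype.card V := by clear * - D N V m hn hD hDN hm3; rw [hn]; nlinarith
  have hlam0 : 0 < D + D / N := by positivity
  obtain ⟨SR, hR1, hR2, hR3⟩ := rich_set G l hlam0 hlam hN1
  obtain ⟨SB, hB1, hB2, hB3⟩ := rich_set Gᶜ l hlam0 hlam hN1
  have hKR := kq_rich_lt G (by omega) hN1 hn hD hl hR hR1
  have hKB := kq_rich_lt Gᶜ (by omega) hN1 hn hD hl hB hB1
  set n : ℝ := (Fintype.card V : ℝ) with hnd
  set g := ⌈n / N⌉₊ with hg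
  set δ := 2 * n / N with hδ
  have hnN' : 1 ≤ n / N := by rw [le_div_iff₀ hNpos, one_mul, hnd]; exact_mod_cast hnN
  have hg1 : 1 ≤ g := Nat.one_le_iff_ne_zero.2 (Nat.ceil_pos.2 (by linarith)).ne'
  have hgδ : (g : ℝ) ≤ δ := by
    clear * - n N hnN' δ hδ g
    have := Nat.ceil_lt_add_one (a := n / N) (by linarith)
    have e : δ = n / N + n / N := by rw [hδ]; ring
    linarith
  have hτ : 4 * (n * (2 * (D / N) + 3 * 9 ^ (m + 1) * δ)) ≤ (κ * D) ^ 2 := by
    clear * - n D N m δ hδ hn κ hNpos hm3 hN hD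
    have e : 4 * (n * (2 * (D / N) + 3 * 9 ^ (m + 1) * δ))
        = (8 * m + 24 * (m : ℝ) ^ 2 * 9 ^ (m + 1)) / N * D ^ 2 := by
      rw [hδ, hn]; ring
    rw [e, mul_pow]
    gcongr
    rw [div_le_iff₀ hNpos]
    have h9 : (1 : ℝ) ≤ 9 ^ (m + 1) := one_le_pow₀ (by norm_num)
    have : (m : ℝ) ≤ (m : ℝ) ^ 2 * 9 ^ (m + 1) := by nlinarith
    linarith
  have hBC : ((SR \ SB).card : ℝ) ≤ 2 * δ ∨ ((SB \ SR).card : ℝ) ≤ 2 * δ := by
    clear * - V SR SB δ G hR2 hB2 g hg1 hgδ n N
    by_contra hcon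
    push Not at hcon
    set B := SR \ SB
    set C := SB \ SR
    have h1 : (B.card : ℝ) * C.card = ee G B C + ee Gᶜ B C := by
      unfold ee
      rw [← sum_add_distrib, sum_congr rfl fun v hv => dg_add_compl_of_not_mem G
        (fun h => (mem_sdiff.1 h).2 (mem_sdiff.1 hv).1)]
      simp [B, C]
    have h2 : ee G C B ≤ C.card * δ := ee_le_of G fun v hv =>
      (dg_mono G sdiff_subset v).trans (hR2 v (mem_sdiff.1 hv).2)
    have h3 : ee Gᶜ B C ≤ B.card * δ := ee_le_of Gᶜ fun v hv =>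
      (dg_mono Gᶜ sdiff_subset v).trans (hB2 v (mem_sdiff.1 hv).2)
    rw [ee_comm] at h2
    have hδ0 : 0 < δ := lt_of_lt_of_le (by exact_mod_cast hg1) hgδ
    nlinarith [mul_pos (sub_pos.2 hcon.1) (sub_pos.2 hcon.2)]
  rcases hBC with h | h
  · left
    exact stage1_aux G hm hn hD (by positivity) (by positivity) hg1 hgδ hKR hKB hB2 hR3 hB3 h hτ
  · right
    refine stage1_aux Gᶜ hm hn hD (by positivity) (by positivity) hg1 hgδ hKB ?_ ?_ hB3 ?_ h hτ
    · rwa [compl_compl]
    · rwa [compl_compl]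
    · rwa [compl_compl]

end Pool.Agent.Work.MP_f2e3c0_co
end

-- merged part: Pool.Agent.Work.MP_f2e3c0_co.Stage2a
section
/-!
From cores to a partition of the typical vertices.
-/

set_option linter.unusedSectionVars false

namespace Pool.Agent.Work.MP_f2e3c0_co

open Finset

variable {V : Type*} [Fintype V] [DecidableEq V]

/-- the vertices of `T` with label `i` -/
def part {m : ℕ} (p : V → Fin m) (T : Finset V) (i : Fin m) : Finset V :=
  T.filter (fun v => p v = i)

@[simp] lemma mem_part {m : ℕ} {p : V → Fin m} {T : Finset V} {i : Fin m} {v : V} :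
    v ∈ part p T i ↔ v ∈ T ∧ p v = i := by simp [part]

lemma part_subset {m : ℕ} (p : V → Fin m) (T : Finset V) (i : Fin m) : part p T i ⊆ T :=
  filter_subset _ _

lemma sum_card_part {m : ℕ} (p : V → Fin m) (T : Finset V) :
    ∑ i, ((part p T i).card : ℝ) = T.card := by
  rw [card_eq_sum_card_fiberwise (f := p) (t := univ) (fun _ _ => mem_univ _), Nat.cast_sum]
  rfl

lemma sum_part {m : ℕ} (p : V → Fin m) (T : Finset V) (F : V → ℝ) :
    ∑ v ∈ T, F v = ∑ i, ∑ v ∈ part p T i, F v :=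
  (sum_fiberwise_of_maps_to (fun _ _ => mem_univ _) F).symm

/-- the rough structure -/
structure Good (G : SimpleGraph V) (m : ℕ) (D η : ℝ) (p : V → Fin m) (T : Finset V) : Prop where
  size : ∀ i, D - η ≤ (part p T i).card
  cross : ∀ v ∈ T, dg G (T \ part p T (p v)) v ≤ (2 * m + 3) * η
  out : ∀ x ∉ T, D + η ≤ dg G T x
  own : ∀ x ∉ T, D - (m + 2) * η ≤ dg G (part p T (p x)) x

lemma stage2a (G : SimpleGraph V) {m l : ℕ} (hm : 3 ≤ m) {D η : ℝ}
    (hn : (Fintype.card V : ℝ) = m * D) (hη : 0 < η) (hs : 40 * (m : ℝ) ^ 2 * η ≤ D)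
    {C : Fin m → Finset V} (hC : Cores G m D η C)
    (hV : ∀ v, kv Gᶜ m v * wk Gᶜ (l + 1) v < η ^ (m + 1) * (19 / 10 * D) ^ l) :
    ∃ p T, Good G m D η p T := by
  classical
  obtain ⟨hd, hc, hx⟩ := hC
  have hm3 : (3 : ℝ) ≤ m := by exact_mod_cast hm
  have hmη : (m : ℝ) * η ≤ D / 120 := by clear * - m η D hs hm3 hη; nlinarith [mul_pos (show (0 : ℝ) < m by linarith) hη]
  have hηD : η ≤ D / 360 := by nlinarith
  have hD : 0 < D := by linarith
  set Z := univ.biUnion C with hZ
  have hdZ : ∀ (H : SimpleGraph V) v, dg H Z v = ∑ j, dg H (C j) v := fun H v =>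
    dg_biUnion H univ C (fun i _ j _ hij => hd i j hij) v
  have hone : ∀ i j, i ≠ j → ∀ v ∈ C i, dg G (C j) v ≤ η := by
    intro i j hij v hv
    exact (single_le_sum (f := fun j => dg G (C j) v) (fun _ _ => dg_nonneg _ _ _)
      (mem_erase.2 ⟨hij.symm, mem_univ _⟩)).trans (hx i v hv)
  have hblue : ∀ z ∈ Z, 19 / 10 * D ≤ dg Gᶜ Z z := by
    clear * - V Z m C D G hdZ η hd hc hx hm3 hη hηD hm
    intro z hz
    obtain ⟨i, _, hi⟩ := mem_biUnion.1 hz
    rw [hdZ, ← add_sum_erase _ _ (mem_univ i)]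
    have h1 : ∑ j ∈ univ.erase i, (D - η - dg G (C j) z) ≤ ∑ j ∈ univ.erase i, dg Gᶜ (C j) z := by
      refine sum_le_sum fun j hj => ?_
      have := dg_add_compl_of_not_mem G (disjoint_left.1 (hd i j (ne_of_mem_erase hj).symm) hi)
      linarith [hc j]
    rw [sum_sub_distrib, sum_const, card_erase_of_mem (mem_univ i), card_univ, Fintype.card_fin,
      nsmul_eq_mul, Nat.cast_sub (by omega)] at h1
    have h2 := hx i z hi
    have h3 := dg_nonneg Gᶜ (C i) z
    have h4 : 2 * (D - η) ≤ ((m : ℝ) - (1 : ℕ)) * (D - η) := by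
      gcongr
      · linarith
      · push_cast; linarith
    linarith
  have hp : ∀ v, ∃ i, dg Gᶜ (C i) v < (m + 1) * η := by
    clear * - V m G C η hη hd hone Z D l hD hblue hm hV
    intro v
    by_contra hcon
    push Not at hcon
    have h1 := greedy_clique Gᶜ hη.le hη.le (univ : Finset (Fin m)) (nb Gᶜ univ v)
      (fun i => nb Gᶜ (C i) v) (fun i _ => nb_mono _ (subset_univ _) v) (by
        intro i _ j _ hij y hy
        have hyi := nb_subset _ _ _ hy
        refine (nn_mono _ (nb_subset _ _ _) y).trans ?_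
        rw [nn_of_not_mem _ (disjoint_left.1 (hd i j hij) hyi), compl_compl]
        exact hone i j hij y hyi) (by
        intro i _
        have := hcon i
        unfold dg at this
        simp only [card_univ, Fintype.card_fin]
        linarith)
    simp only [card_univ, Fintype.card_fin] at h1
    have h2 := wk_succ_ge Gᶜ (by positivity) hblue l v
    have h3 : η ≤ dg Gᶜ Z v := by
      have := hcon ⟨0, by omega⟩
      have h4 := dg_mono Gᶜ (subset_biUnion_of_mem C (mem_univ (⟨0, by omega⟩ : Fin m))) v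
      have : 0 ≤ (m : ℝ) * η := by positivity
      linarith
    have h4 := hV v
    have h5 : η ^ m * (η * (19 / 10 * D) ^ l) ≤ kv Gᶜ m v * wk Gᶜ (l + 1) v :=
      mul_le_mul h1 (le_trans (by gcongr) h2) (by positivity) (kv_nonneg _ _ _)
    rw [pow_succ] at h4
    linarith
  choose p hp using hp
  set T := univ.filter (fun v => ∑ j ∈ univ.erase (p v), dg G (C j) v ≤ (m + 3) * η) with hT
  have hmT : ∀ v, v ∈ T ↔ ∑ j ∈ univ.erase (p v), dg G (C j) v ≤ (m + 3) * η := by
    clear * - V T m p G C η hT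
    intro v; simp [hT]
  have hCp : ∀ i, C i ⊆ part p T i := by
    clear * - m V C p G η hone hp hd D hc hη hmη hηD T hmT hx hm
    intro i v hv
    have hpi : p v = i := by
      by_contra hne
      have h1 := hone i (p v) (Ne.symm hne) v hv
      have h2 := hp v
      have h3 := dg_add_compl_of_not_mem G (disjoint_left.1 (hd i (p v) (Ne.symm hne)) hv)
      have h4 := hc (p v)
      linarith
    rw [mem_part, hmT, hpi]
    refine ⟨(hx i v hv).trans ?_, rfl⟩
    have : 0 ≤ (m : ℝ) * η := by positivity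
    linarith
  have hown : ∀ x ∉ T, D - (m + 2) * η ≤ dg G (C (p x)) x := by
    intro x hx'
    have h1 : x ∉ C (p x) := fun h => hx' (part_subset _ _ _ (hCp _ h))
    have h3 := dg_add_compl_of_not_mem G h1
    have := hp x
    have := hc (p x)
    linarith
  refine ⟨p, T, fun i => (hc i).trans (by exact_mod_cast card_le_card (hCp i)), ?_, ?_, ?_⟩
  · intro v hv
    have h1 := dg_le_add G (T \ part p T (p v)) ((univ.erase (p v)).biUnion C) v
    rw [dg_biUnion G _ C (fun i _ j _ hij => hd i j hij)] at h1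
    have h2 := (hmT v).1 hv
    have h3 : (T \ part p T (p v)) \ (univ.erase (p v)).biUnion C ⊆ Zᶜ := by
      intro u hu
      rw [mem_sdiff, mem_sdiff] at hu
      rw [mem_compl]
      intro huZ
      obtain ⟨j, _, hj⟩ := mem_biUnion.1 huZ
      by_cases e : j = p v
      · exact hu.1.2 (e ▸ hCp j hj)
      · exact hu.2 (mem_biUnion.2 ⟨j, mem_erase.2 ⟨e, mem_univ _⟩, hj⟩)
    have h4 : ((Zᶜ).card : ℝ) ≤ m * η := by
      rw [card_compl, Nat.cast_sub (card_le_univ _), hZ,
        card_biUnion (fun i _ j _ hij => hd i j hij), Nat.cast_sum, hn]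
      have := sum_le_sum fun i (_ : i ∈ (univ : Finset (Fin m))) => hc i
      simp only [sum_const, card_univ, Fintype.card_fin, nsmul_eq_mul] at this
      linarith
    have h5 : (((T \ part p T (p v)) \ (univ.erase (p v)).biUnion C).card : ℝ) ≤ (Zᶜ).card := by
      exact_mod_cast card_le_card h3
    linarith
  · intro x hx'
    have h1 : dg G Z x ≤ dg G T x :=
      dg_mono G (biUnion_subset.2 fun i _ => (hCp i).trans (part_subset _ _ _)) x
    rw [hdZ, ← add_sum_erase _ _ (mem_univ (p x))] at h1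
    have h2 := hown x hx'
    rw [hmT, not_le] at hx'
    linarith
  · intro x hx'
    exact (hown x hx').trans (dg_mono G (hCp _) x)

section consequences

variable {G : SimpleGraph V} {m : ℕ} {D η : ℝ} {p : V → Fin m} {T : Finset V}

lemma Good.cross_one (h : Good G m D η p T) {v : V} (hv : v ∈ T) {j : Fin m} (hj : p v ≠ j) :
    nn Gᶜ (part p T j) v ≤ (2 * m + 3) * η := by
  rw [nn_of_not_mem _ (fun h' => hj (mem_part.1 h').2), compl_compl]
  refine le_trans (dg_mono G ?_ v) (h.cross v hv)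
  intro u hu
  rw [mem_part] at hu
  rw [mem_sdiff, mem_part]
  exact ⟨hu.1, fun h' => hj (h'.2.symm.trans hu.2)⟩

lemma Good.blue_deg (h : Good G m D η p T) (hm : 3 ≤ m) (hη : 0 < η)
    (hs : 40 * (m : ℝ) ^ 2 * η ≤ D) : ∀ v ∈ T, 19 / 10 * D ≤ dg Gᶜ T v := by
  intro v hv
  have hm3 : (3 : ℝ) ≤ m := by exact_mod_cast hm
  have hmη : (m : ℝ) * η ≤ D / 120 := by clear * - m η D hs hm3 hη; nlinarith [mul_pos (show (0 : ℝ) < m by linarith) hη]
  have hηD : η ≤ D / 360 := by nlinarith
  have h1 := dg_mono Gᶜ (sdiff_subset : T \ part p T (p v) ⊆ T) v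
  have h2 := dg_add_compl_of_not_mem G (U := T \ part p T (p v)) (v := v) (by simp [hv])
  have h3 := h.cross v hv
  rw [card_sdiff_of_subset (part_subset _ _ _), Nat.cast_sub (card_le_card (part_subset _ _ _)),
    ← sum_card_part p T, ← add_sum_erase _ _ (mem_univ (p v))] at h2
  have h4 := sum_le_sum fun i (_ : i ∈ univ.erase (p v)) => h.size i
  rw [sum_const, card_erase_of_mem (mem_univ _), card_univ, Fintype.card_fin,
    nsmul_eq_mul, Nat.cast_sub (by omega)] at h4
  have h5 : 2 * (D - η) ≤ ((m : ℝ) - (1 : ℕ)) * (D - η) := by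
    clear * - D η m hm3 hη hηD
    gcongr
    · linarith
    · push_cast; linarith
  linarith

lemma Good.blue_walk (h : Good G m D η p T) (hm : 3 ≤ m) (hη : 0 < η)
    (hs : 40 * (m : ℝ) ^ 2 * η ≤ D) (l : ℕ) : ∀ v ∈ T, (19 / 10 * D) ^ l ≤ wk Gᶜ l v := by
  have hD : 0 < D := lt_of_lt_of_le (by have : (0 : ℝ) < m := by exact_mod_cast (by omega : 0 < m)
                                        positivity) hs
  exact wk_ge Gᶜ (by positivity) (h.blue_deg hm hη hs) l

lemma Good.common (h : Good G m D η p T) (hm : 3 ≤ m) (hη : 0 < η)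
    (hs : 40 * (m : ℝ) ^ 2 * η ≤ D) {u v : V} (hu : u ∈ T) (hv : v ∈ T) (huv : p u = p v) :
    (D / 2) ^ (m - 1) ≤ (kq Gᶜ (m - 1) (nb Gᶜ (nb Gᶜ univ u) v) : ℝ) := by
  have hm3 : (3 : ℝ) ≤ m := by exact_mod_cast hm
  have hmη : (m : ℝ) * η ≤ D / 120 := by clear * - m η D hs hm3 hη; nlinarith [mul_pos (show (0 : ℝ) < m by linarith) hη]
  have hηD : η ≤ D / 360 := by nlinarith
  have hD : 0 < D := by linarith
  have hcard : (univ.erase (p u)).card = m - 1 := by
    rw [card_erase_of_mem (mem_univ _), card_univ, Fintype.card_fin]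
  have h1 := greedy_clique Gᶜ (s := D / 2) (r := (2 * m + 3) * η) (by positivity) (by positivity)
    (univ.erase (p u)) (nb Gᶜ (nb Gᶜ univ u) v) (fun j => nb Gᶜ (nb Gᶜ (part p T j) u) v)
    (fun j _ => nb_mono _ (nb_mono _ (subset_univ _) _) _) (by
      intro i _ j _ hij y hy
      have hy' := mem_part.1 (nb_subset _ _ _ (nb_subset _ _ _ hy))
      refine (nn_mono _ ((nb_subset _ _ _).trans (nb_subset _ _ _)) y).trans ?_
      exact h.cross_one hy'.1 (hy'.2 ▸ hij)) (by
      intro j hj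
      have hj' := (ne_of_mem_erase hj).symm
      have e1 := dg_add_nn Gᶜ (part p T j) u
      have e2 := dg_add_nn Gᶜ (nb Gᶜ (part p T j) u) v
      have e3 := h.cross_one hu hj'
      have e4 := (nn_mono Gᶜ (nb_subset Gᶜ (part p T j) u) v).trans (h.cross_one hv (huv ▸ hj'))
      have e5 := h.size j
      rw [hcard, Nat.cast_sub (by omega)]
      unfold dg at e1 e2
      push_cast
      clear * - D m η V G p T j u v hη hs hmη hηD e1 e2 e3 e4 e5
      linarith)
  rwa [hcard] at h1

lemma Good.sparse (h : Good G m D η p T) (hm : 3 ≤ m) (hη : 0 < η)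
    (hs : 40 * (m : ℝ) ^ 2 * η ≤ D) (l : ℕ) {v : V} (hv : v ∈ T) :
    dg Gᶜ (part p T (p v)) v * (D / 2) ^ (m - 1) * (19 / 10 * D) ^ l ≤ kv Gᶜ m v * wk Gᶜ l v := by
  have hD : 0 < D := lt_of_lt_of_le (by have : (0 : ℝ) < m := by exact_mod_cast (by omega : 0 < m)
                                        positivity) hs
  refine mul_le_mul ?_ (h.blue_walk hm hη hs l v hv) (by positivity) (kv_nonneg _ _ _)
  have hc := fun u hu huv => h.common hm hη hs (u := v) (v := u) hv hu huv
  obtain ⟨m', rfl⟩ : ∃ m', m = m' + 1 := ⟨m - 1, by omega⟩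
  simp only [Nat.add_sub_cancel] at hc ⊢
  unfold kv dg
  rw [kq, Nat.cast_sum]
  calc ((nb Gᶜ (part p T (p v)) v).card : ℝ) * (D / 2) ^ m'
      = ∑ _u ∈ nb Gᶜ (part p T (p v)) v, (D / 2) ^ m' := by simp
    _ ≤ ∑ u ∈ nb Gᶜ (part p T (p v)) v, (kq Gᶜ m' (nb Gᶜ (nb Gᶜ univ v) u) : ℝ) := by
      refine sum_le_sum fun u hu => ?_
      have := mem_part.1 (nb_subset _ _ _ hu)
      exact hc u this.1 this.2.symm
    _ ≤ _ := sum_le_sum_of_subset_of_nonneg (nb_mono _ (subset_univ _) _)
      fun _ _ _ => Nat.cast_nonneg _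

end consequences

end Pool.Agent.Work.MP_f2e3c0_co
end

-- merged part: Pool.Agent.Work.MP_f2e3c0_co.Stage2b
section
/-!
Precise part sizes through the entropy bound, and removal of the atypical vertices.
-/

set_option linter.unusedSectionVars false

namespace Pool.Agent.Work.MP_f2e3c0_co

open Finset

variable {V : Type*} [Fintype V] [DecidableEq V]

variable {G : SimpleGraph V} {m : ℕ} {D η : ℝ} {p : V → Fin m} {T : Finset V}

lemma kv_ge_of_mem {r : ℝ} (hr : 0 ≤ r) (hnn : ∀ v ∈ T, nn G (part p T (p v)) v ≤ r)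
    {s : ℝ} (hs : 0 ≤ s) {v : V} (hc : s + m * r ≤ dg G (part p T (p v)) v) :
    s ^ m ≤ kv G m v := by
  refine greedy_clique_one G hs hr m (nb_mono G (subset_univ (part p T (p v))) v) ?_ hc
  intro y hy
  have hy' := mem_part.1 (nb_subset _ _ _ hy)
  refine (nn_mono G (nb_subset _ _ _) y).trans ?_
  rw [← hy'.2]
  exact hnn y hy'.1

lemma dg_split (G : SimpleGraph V) (p : V → Fin m) (T : Finset V) (v : V) :
    dg G univ v = dg G (part p T (p v)) v + dg G (T \ part p T (p v)) v + dg G Tᶜ v := by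
  rw [dg_sdiff G (subset_univ T), dg_sdiff G (part_subset p T (p v)), compl_eq_univ_sdiff]

lemma stage2b (h : Good G m D η p T) (hm : 3 ≤ m) (hn : (Fintype.card V : ℝ) = m * D)
    (hη : 0 < η) (hs : 40 * (m : ℝ) ^ 2 * η ≤ D) {r ξ : ℝ} (hr : 0 ≤ r) (hξ : 0 ≤ ξ)
    (hnn : ∀ v ∈ T, nn G (part p T (p v)) v ≤ r) (hrD : (m + 1) * r ≤ D / 4) {l : ℕ}
    (hl : 3 * (m : ℝ) ^ 2 * D ≤ η * (l + 1))
    (hG : ∑ v, kv G m v * wk G (l + 1) v ≤ (1 + ξ) * Fintype.card V * D ^ (m + l + 1)) :
    ∑ i, (((part p T i).card : ℝ) - D) ^ 2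
      ≤ ξ * (Fintype.card V : ℝ) ^ 2 + 2 * r * Fintype.card V := by
  classical
  have hm3 : (3 : ℝ) ≤ m := by exact_mod_cast hm
  have hmη : (m : ℝ) * η ≤ D / 120 := by clear * - m η D hs hm3 hη; nlinarith [mul_pos (show (0 : ℝ) < m by linarith) hη]
  have hηD : η ≤ D / 360 := by clear * - η D m hmη hη hm3; nlinarith
  have hD : 0 < D := by linarith
  have hmr : 0 ≤ (m : ℝ) * r := by positivity
  set n : ℝ := (Fintype.card V : ℝ) with hnd
  have hDn : D ≤ n := by rw [hn]; exact le_mul_of_one_le_left hD.le (by linarith)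
  have hnpos : 0 < n := by linarith
  have : Nonempty V := Fintype.card_pos_iff.1 (Nat.cast_pos.1 (hnd ▸ hnpos))
  set a : V → ℝ := fun v => if v ∈ T then ((part p T (p v)).card : ℝ) - (m + 1) * r else D / 2
    with ha
  have haT : ∀ v ∈ T, a v = ((part p T (p v)).card : ℝ) - (m + 1) * r := fun v hv => if_pos hv
  have haX : ∀ v ∉ T, a v = D / 2 := fun v hv => if_neg hv
  have ha2 : ∀ v, D / 2 ≤ a v := by
    intro v
    by_cases hv : v ∈ T
    · rw [haT v hv]; linarith [h.size (p v)]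
    · rw [haX v hv]
  have hapos : ∀ v, 0 < a v := fun v => lt_of_lt_of_le (by linarith) (ha2 v)
  have hkv : ∀ v, a v ^ m ≤ kv G m v := by
    clear * - V G m p T r hr hnn a hapos haT D haX η hη hrD hmη hηD h
    intro v
    refine kv_ge_of_mem hr hnn (hapos v).le ?_
    by_cases hv : v ∈ T
    · rw [haT v hv]
      linarith [dg_add_nn G (part p T (p v)) v, hnn v hv]
    · rw [haX v hv]
      linarith [h.own v hv]
  have hdpos : ∀ v, 0 < dg G univ v := by
    clear * - V G T η m r D p hη hrD hηD hmr hnn h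
    intro v
    by_cases hv : v ∈ T
    · linarith [dg_add_nn G (part p T (p v)) v, hnn v hv, h.size (p v),
        dg_mono G (subset_univ (part p T (p v))) v]
    · linarith [h.out v hv, dg_mono G (subset_univ T) v]
  have hkpos : ∀ v, 0 < kv G m v := fun v => lt_of_lt_of_le (pow_pos (hapos v) m) (hkv v)
  have hent := entropy_bound G hdpos (kv G m) hkpos l
  rw [← hnd] at hent
  set Q := ee G univ univ with hQ
  have hQ' : Q = ∑ v, dg G univ v := rfl
  have hQpos : 0 < Q := by rw [hQ']; exact sum_pos (fun v _ => hdpos v) univ_nonempty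
  have hQn : Q ≤ n ^ 2 := by
    have := ee_le_of G (A := univ) (B := univ) (c := n) fun v _ => dg_le_card G univ v
    rw [card_univ, ← hnd] at this
    linarith
  have hsum_pos : 0 < ∑ v, kv G m v * wk G (l + 1) v :=
    sum_pos (fun v _ => mul_pos (hkpos v) (wk_pos G hdpos _ _)) univ_nonempty
  have h1 : Real.log ((∑ v, kv G m v * wk G (l + 1) v) / Q)
      ≤ ξ + (m + l + 1) * Real.log D - Real.log (Q / n) := by
    clear * - ξ n D m l Q hQpos hD hnpos hξ V G hsum_pos hG this
    have e : (1 + ξ) * n * D ^ (m + l + 1) / Q = (1 + ξ) * D ^ (m + l + 1) / (Q / n) := by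
      field_simp
    calc _ ≤ Real.log ((1 + ξ) * n * D ^ (m + l + 1) / Q) :=
          Real.log_le_log (div_pos hsum_pos hQpos) (by gcongr)
      _ = Real.log (1 + ξ) + (m + l + 1) * Real.log D - Real.log (Q / n) := by
          rw [e, Real.log_div (by positivity) (by positivity),
            Real.log_mul (by positivity) (by positivity), Real.log_pow]
          push_cast; ring
      _ ≤ _ := by
          have := Real.log_le_sub_one_of_pos (show 0 < 1 + ξ by linarith)
          linarith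
  have h2 : ∑ v, dg G univ v * (m * (Real.log D + (1 - D / a v)))
      ≤ ∑ v, dg G univ v * Real.log (kv G m v) := by
    refine sum_le_sum fun v _ => mul_le_mul_of_nonneg_left ?_ (hdpos v).le
    have e1 := Real.log_le_log (pow_pos (hapos v) m) (hkv v)
    rw [Real.log_pow] at e1
    have e2 := Real.log_le_sub_one_of_pos (div_pos hD (hapos v))
    rw [Real.log_div hD.ne' (hapos v).ne'] at e2
    refine le_trans (mul_le_mul_of_nonneg_left ?_ (Nat.cast_nonneg m)) e1
    linarith
  have h2' : ∑ v, dg G univ v * (m * (Real.log D + (1 - D / a v)))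
      = m * (Q * Real.log D) + m * ∑ v, dg G univ v * (1 - D / a v) := by
    rw [hQ', sum_mul, mul_sum, mul_sum, ← sum_add_distrib]
    exact sum_congr rfl fun v _ => by ring
  have h3 : Q - n * D ≤ Q * (Real.log (Q / n) - Real.log D) := by
    clear * - D Q n hD hQpos hnpos
    have e2 := Real.log_le_sub_one_of_pos (div_pos hD (div_pos hQpos hnpos))
    rw [Real.log_div hD.ne' (div_pos hQpos hnpos).ne'] at e2
    have e3 := mul_le_mul_of_nonneg_left e2 hQpos.le
    have e4 : Q * (D / (Q / n) - 1) = n * D - Q := by field_simp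
    linarith
  have h4 : ((l : ℝ) + 1) * (Q - n * D) ≤ ξ * n ^ 2 - m * ∑ v, dg G univ v * (1 - D / a v) := by
    clear * - Q V G m l ξ D n h1 hQpos h3 hQn hξ a hent h2 h2'
    have e1 := mul_le_mul_of_nonneg_left h1 hQpos.le
    have e2 := mul_le_mul_of_nonneg_left h3 (show (0 : ℝ) ≤ l + 1 by positivity)
    have e3 : ξ * Q ≤ ξ * n ^ 2 := by gcongr
    linarith
  set S := ∑ i, (((part p T i).card : ℝ) - D) ^ 2 with hS
  set Cr := ∑ v ∈ T, dg G (T \ part p T (p v)) v with hCr
  set x : ℝ := ((Tᶜ).card : ℝ) with hx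
  have hx0 : 0 ≤ x := Nat.cast_nonneg _
  have hCr0 : 0 ≤ Cr := sum_nonneg fun _ _ => dg_nonneg _ _ _
  have hS0 : 0 ≤ S := sum_nonneg fun _ _ => sq_nonneg _
  have hTx : (T.card : ℝ) = n - x := by
    rw [hx, card_compl, Nat.cast_sub (card_le_univ _)]; ring
  have hsq : ∑ v ∈ T, ((part p T (p v)).card : ℝ) = S + n * D - 2 * D * x := by
    rw [sum_part p T]
    have : ∀ i, ∑ v ∈ part p T i, ((part p T (p v)).card : ℝ) = ((part p T i).card : ℝ) ^ 2 := by
      intro i
      rw [sum_congr rfl fun v hv => by rw [(mem_part.1 hv).2]]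
      simp [sq]
    rw [sum_congr rfl fun i _ => this i, sum_sq_dev _ D, sum_card_part, hTx, hn]
    ring
  have hXT : x * (D + η) ≤ ee G Tᶜ T := le_ee_of G fun v hv => h.out v (mem_compl.1 hv)
  have hXT' : ee G Tᶜ T ≤ x * n := ee_le_of G fun v _ => (dg_le_card G T v).trans (card_le_n T)
  have hTX : ∑ v ∈ T, dg G Tᶜ v = ee G Tᶜ T := ee_comm G T Tᶜ
  have h5 : n * D + S + Cr + 2 * η * x - r * n ≤ Q := by
    clear * - n D S Cr η x r Q V G hQ' T m p hTX hnn hr hXT hTx hsq
    rw [hQ', ← sum_add_sum_compl T, sum_congr rfl fun v _ => dg_split G p T v, sum_add_distrib,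
      sum_add_distrib, hTX]
    have e1 : ∑ v ∈ T, (((part p T (p v)).card : ℝ) - r) ≤ ∑ v ∈ T, dg G (part p T (p v)) v :=
      sum_le_sum fun v hv => by linarith [dg_add_nn G (part p T (p v)) v, hnn v hv]
    rw [sum_sub_distrib, hsq, sum_const, nsmul_eq_mul, hTx] at e1
    have e2 : ee G Tᶜ T ≤ ∑ v ∈ Tᶜ, dg G univ v :=
      sum_le_sum fun v _ => dg_mono G (subset_univ T) v
    have e3 : 0 ≤ x * r := by positivity
    linarith
  have h6 : -(Cr + 3 * x * n + 2 * (m + 1) * r * n) ≤ ∑ v, dg G univ v * (1 - D / a v) := by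
    clear * - Cr x n m r V G D a T hapos ha2 p hnn haT hmr hDn hm hr S hS0 hXT' hTx hTX hsq hx
    rw [← sum_add_sum_compl T]
    have hq : ∀ v, -1 ≤ 1 - D / a v := by
      intro v
      have : D / a v ≤ 2 := by rw [div_le_iff₀ (hapos v)]; linarith [ha2 v]
      linarith
    have e1 : ∑ v ∈ T, (((part p T (p v)).card : ℝ) - (D + 2 * (m + 1) * r)
        - dg G (T \ part p T (p v)) v - dg G Tᶜ v) ≤ ∑ v ∈ T, dg G univ v * (1 - D / a v) := by
      refine sum_le_sum fun v hv => ?_
      rw [dg_split G p T v]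
      have f1 := dg_add_nn G (part p T (p v)) v
      have f2 := hnn v hv
      have f3 := nn_nonneg G (part p T (p v)) v
      have f4 := haT v hv
      have f5 := mul_le_mul_of_nonneg_left (hq v) (dg_nonneg G (T \ part p T (p v)) v)
      have f6 := mul_le_mul_of_nonneg_left (hq v) (dg_nonneg G Tᶜ v)
      have f7 := mul_le_mul_of_nonneg_left (hq v)
        (show 0 ≤ dg G (part p T (p v)) v - a v by linarith)
      have f8 : a v * (1 - D / a v) = a v - D := by have := (hapos v).ne'; field_simp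
      linarith
    rw [sum_sub_distrib, sum_sub_distrib, sum_sub_distrib, hsq, hTX, sum_const, nsmul_eq_mul,
      hTx] at e1
    have e2 : ∑ _v ∈ Tᶜ, (-n) ≤ ∑ v ∈ Tᶜ, dg G univ v * (1 - D / a v) := by
      refine sum_le_sum fun v _ => ?_
      have f5 := mul_le_mul_of_nonneg_left (hq v) (dg_nonneg G univ v)
      have := (dg_le_card G univ v).trans (card_le_n univ)
      linarith
    rw [sum_const, nsmul_eq_mul, ← hx] at e2
    have e3 : x * D ≤ x * n := by gcongr
    have e4 : 0 ≤ x * ((m + 1) * r) := by positivity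
    linarith
  set L : ℝ := (l : ℝ) + 1 with hL
  have hL1 : 1 ≤ L := by clear * - L l hL; rw [hL]; linarith [(Nat.cast_nonneg l : (0 : ℝ) ≤ l)]
  have hL2 : 3 * (m : ℝ) ^ 2 ≤ L := by
    clear * - D m L η hl hη hηD l hD
    refine le_of_mul_le_mul_right (hl.trans ?_) hD
    rw [mul_comm]; gcongr; linarith
  have hmm : (m : ℝ) * 3 ≤ m * m := by gcongr
  have k1 : (m : ℝ) * Cr ≤ L * Cr := by clear * - Cr m L l hm3 hL2 hmm hCr0; gcongr; linarith
  have k2 : (m : ℝ) * (3 * x * n) ≤ η * L * x := by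
    clear * - m x n D hn η L hl V T this
    have : (m : ℝ) * (3 * x * n) = 3 * m ^ 2 * D * x := by rw [hn]; ring
    rw [this]; gcongr
  have k3 : (m : ℝ) * (2 * (m + 1)) * (r * n) ≤ L * (r * n) := by clear * - r n m L l hm3 hL2 hmm hr V this; gcongr; linarith
  have k4 := mul_le_mul_of_nonneg_left h5 (show 0 ≤ L by clear * - L m l hm3 hL2 hmm h5; linarith)
  have k5 := mul_le_mul_of_nonneg_left h6 (Nat.cast_nonneg m : (0 : ℝ) ≤ m)
  have k6 : ξ * n ^ 2 ≤ L * (ξ * n ^ 2) := le_mul_of_one_le_left (by positivity) hL1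
  have k7 : 0 ≤ η * L * x := by clear * - η L x hη l V T; positivity
  refine le_of_mul_le_mul_left ?_ (show 0 < L by clear * - L m l hm3 hL2 hmm; linarith)
  clear * - L S ξ n r l Q D m V G a Cr x η h4 k1 k2 k3 k4 k5 k6 k7
  linarith

/-- An atypical vertex lies on too many copies. -/
lemma stage2c (h : Good G m D η p T) (hη : 0 < η) (hD : 0 < D) {r a : ℝ} (hr : 0 ≤ r)
    (ha : 0 ≤ a) (hnn : ∀ v ∈ T, nn G (part p T (p v)) v ≤ r)
    (hsz : ∀ i, a + (m + 1) * r ≤ (part p T i).card) (l : ℕ) {x : V} (hx : x ∉ T) :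
    (l + 1) * ((D + η) ^ 2 * a ^ (m + l))
      ≤ ∑ j : Fin (l + 2 + 1), (av G)^[j] (kv G m) x * wk G (l + 2 - j) x := by
  have hmr : 0 ≤ (m : ℝ) * r := by positivity
  have hd : ∀ z ∈ T, a + m * r ≤ dg G (part p T (p z)) z := by
    intro z hz
    linarith [dg_add_nn G (part p T (p z)) z, hnn z hz, hsz (p z)]
  have hd' : ∀ z ∈ T, a ≤ dg G T z := fun z hz => by
    linarith [hd z hz, dg_mono G (part_subset p T (p z)) z]
  have hk : ∀ z ∈ T, a ^ m ≤ kv G m z := fun z hz => kv_ge_of_mem hr hnn ha (hd z hz)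
  have hnonneg : ∀ j : ℕ, 0 ≤ (av G)^[j] (kv G m) x * wk G (l + 2 - j) x := fun j =>
    mul_nonneg (av_iter_nonneg G (kv_nonneg G m) j x) (wk_nonneg _ _ _)
  rw [Fin.sum_univ_eq_sum_range (fun j => (av G)^[j] (kv G m) x * wk G (l + 2 - j) x) (l + 2 + 1),
    sum_range_succ, sum_range_succ']
  have h1 : ∑ _j ∈ range (l + 1), (D + η) ^ 2 * a ^ (m + l)
      ≤ ∑ j ∈ range (l + 1), (av G)^[j + 1] (kv G m) x * wk G (l + 2 - (j + 1)) x := by
    clear * - D η a m l V G x T ha hk hd' p h hx hD hη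
    refine sum_le_sum fun j hj => ?_
    have hj' := mem_range.1 hj
    have e : l + 2 - (j + 1) = (l - j) + 1 := by omega
    rw [e]
    have f1 := av_iter_succ_ge G (kv_nonneg G m) (by positivity) ha hk hd' j x
    have f2 := wk_succ_ge G ha hd' (l - j) x
    have f3 := h.out x hx
    have e2 : (D + η) ^ 2 * a ^ (m + l) = ((D + η) * (a ^ j * a ^ m)) * ((D + η) * a ^ (l - j)) := by
      have : m + l = j + m + (l - j) := by omega
      rw [this, pow_add, pow_add]; ring
    rw [e2]
    refine mul_le_mul (le_trans ?_ f1) (le_trans ?_ f2) (by positivity)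
      (av_iter_nonneg G (kv_nonneg G m) _ x)
    · gcongr
    · gcongr
  rw [sum_const, card_range, nsmul_eq_mul, Nat.cast_add, Nat.cast_one] at h1
  linarith [hnonneg 0, hnonneg (l + 2)]

end Pool.Agent.Work.MP_f2e3c0_co
end

-- merged part: Pool.Agent.Work.MP_f2e3c0_co.Inj
section
/-!
Counting injective monochromatic maps, cloning, and pure colourings.
-/

set_option linter.unusedSectionVars false

namespace Pool.Agent.Work.MP_f2e3c0_co

open Finset

variable {V : Type*} [Fintype V] [DecidableEq V] {W : Type*} [Fintype W] [DecidableEq W]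

open Classical in
/-- injective homomorphisms -/
noncomputable def inj (H : SimpleGraph W) (G : SimpleGraph V) : Finset (W → V) :=
  univ.filter (fun f => Function.Injective f ∧ IsHom H G f)

open Classical in
/-- monochromatic injective maps -/
noncomputable def mono (H : SimpleGraph W) (G : SimpleGraph V) : Finset (W → V) :=
  univ.filter (fun f => Function.Injective f ∧ (IsHom H G f ∨ IsHom H Gᶜ f))

lemma mem_inj {H : SimpleGraph W} {G : SimpleGraph V} {f : W → V} :
    f ∈ inj H G ↔ Function.Injective f ∧ IsHom H G f := by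
  classical
  simp [inj]

lemma mem_mono {H : SimpleGraph W} {G : SimpleGraph V} {f : W → V} :
    f ∈ mono H G ↔ Function.Injective f ∧ (IsHom H G f ∨ IsHom H Gᶜ f) := by
  classical
  simp [mono]

lemma mono_compl (H : SimpleGraph W) (G : SimpleGraph V) : mono H Gᶜ = mono H G := by
  ext f; rw [mem_mono, mem_mono, compl_compl, or_comm]

lemma inj_subset_mono (H : SimpleGraph W) (G : SimpleGraph V) : inj H G ⊆ mono H G := by
  intro f hf; rw [mem_inj] at hf; exact mem_mono.2 ⟨hf.1, Or.inl hf.2⟩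

lemma card_mono_eq (H : SimpleGraph W) (G : SimpleGraph V) {a b : W} (hab : H.Adj a b) :
    (mono H G).card = (inj H G).card + (inj H Gᶜ).card := by
  rw [← card_union_of_disjoint]
  · congr 1
    ext f; rw [mem_union, mem_mono, mem_inj, mem_inj]; tauto
  · rw [disjoint_left]
    intro f h1 h2
    exact ((G.compl_adj _ _).1 ((mem_inj.1 h2).2 a b hab)).2 ((mem_inj.1 h1).2 a b hab)

lemma card_agree (J : Finset W) (c : W → V) (A : Finset V) (F : Finset (W → V))
    (hF : ∀ f ∈ F, (∀ j ∈ J, f j = c j) ∧ ∀ j ∉ J, f j ∈ A) :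
    F.card ≤ A.card ^ (Fintype.card W - J.card) := by
  have h1 : F ⊆ Fintype.piFinset (fun j => if j ∈ J then {c j} else A) := by
    intro f hf
    rw [Fintype.mem_piFinset]
    intro j
    split_ifs with hj
    · exact mem_singleton.2 ((hF f hf).1 j hj)
    · exact (hF f hf).2 j hj
  refine (card_le_card h1).trans (le_of_eq ?_)
  rw [Fintype.card_piFinset]
  have : ∀ j, (if j ∈ J then ({c j} : Finset V) else A).card = if j ∈ J then 1 else A.card := by
    intro j; split_ifs <;> simp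
  simp only [this]
  rw [prod_ite]
  simp only [prod_const_one, prod_const, one_mul]
  congr 1
  rw [← card_compl]
  congr 1
  ext j; simp

lemma card_pairs_le (F : Finset (W → V)) (P : W → W → Finset (W → V)) (M : ℕ)
    (hF : ∀ f ∈ F, ∃ a b, a ≠ b ∧ f ∈ P a b) (hP : ∀ a b, a ≠ b → (P a b).card ≤ M) :
    F.card ≤ Fintype.card W ^ 2 * M := by
  have h1 : F ⊆ (univ.filter (fun x : W × W => x.1 ≠ x.2)).biUnion (fun x => P x.1 x.2) := by
    intro f hf
    obtain ⟨a, b, hab, h⟩ := hF f hf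
    exact mem_biUnion.2 ⟨(a, b), by simpa using hab, h⟩
  refine (card_le_card h1).trans ((card_biUnion_le_card_mul _ _ M fun x hx =>
    hP _ _ (mem_filter.1 hx).2).trans (Nat.mul_le_mul_right _ ?_))
  refine (card_filter_le _ _).trans (le_of_eq ?_)
  simp [sq]

lemma card_noninj (J : Finset W) (c : W → V) (hc : Set.InjOn c J) (F : Finset (W → V))
    (hF : ∀ f ∈ F, (∀ j ∈ J, f j = c j) ∧ ¬ Function.Injective f) :
    F.card ≤ Fintype.card W ^ 2 * Fintype.card V ^ (Fintype.card W - (J.card + 1)) := by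
  refine card_pairs_le F (fun a b => F.filter (fun f => b ∉ J ∧ f a = f b)) _ ?_ ?_
  · intro f hf
    obtain ⟨h1, h2⟩ := hF f hf
    rw [Function.not_injective_iff] at h2
    obtain ⟨a, b, hab, hne⟩ := h2
    by_cases hb : b ∈ J
    · by_cases ha : a ∈ J
      · exact absurd (hc ha hb (by rw [← h1 a ha, ← h1 b hb, hab])) hne
      · exact ⟨b, a, hne.symm, mem_filter.2 ⟨hf, ha, hab.symm⟩⟩
    · exact ⟨a, b, hne, mem_filter.2 ⟨hf, hb, hab⟩⟩
  · intro a b hab
    by_cases hb : b ∈ J
    · simp [hb]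
    rw [← card_image_of_injOn (f := fun f : W → V => Function.update f b (c b))]
    · rw [← card_insert_of_notMem hb, ← card_univ (α := V)]
      refine card_agree (insert b J) c univ _ fun g hg => ⟨fun j hj => ?_, fun _ _ => mem_univ _⟩
      obtain ⟨f, hf, rfl⟩ := mem_image.1 hg
      rcases mem_insert.1 hj with rfl | hj
      · simp
      · rw [Function.update_of_ne (fun e : j = b => hb (e ▸ hj))]
        exact (hF f (mem_filter.1 hf).1).1 j hj
    · intro f hf g hg hfg
      have hf' := (mem_filter.1 hf).2.2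
      have hg' := (mem_filter.1 hg).2.2
      have key : ∀ j, j ≠ b → f j = g j := by
        intro j hj
        have := congrFun hfg j
        simpa [Function.update_of_ne hj] using this
      ext j
      by_cases hj : j = b
      · rw [hj, ← hf', ← hg', key a hab]
      · exact key j hj

lemma card_pair_le {a b : W} (hab : a ≠ b) (u v : V) (A : Finset V) (F : Finset (W → V))
    (hF : ∀ f ∈ F, f a = u ∧ f b = v ∧ ∀ j, f j ∈ A) :
    F.card ≤ A.card ^ (Fintype.card W - 2) := by
  have := card_agree {a, b} (fun w => if w = a then u else v) A F (by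
    intro f hf
    refine ⟨fun j hj => ?_, fun j _ => (hF f hf).2.2 j⟩
    rcases mem_insert.1 hj with rfl | hj
    · simpa using (hF f hf).1
    · rw [mem_singleton.1 hj, if_neg hab.symm]; exact (hF f hf).2.1)
  rwa [card_pair hab] at this

/-- homomorphisms with prescribed values are mostly injective -/
lemma card_homs_filter_le (H : SimpleGraph W) (G : SimpleGraph V) (J : Finset W) (c : W → V)
    (hc : Set.InjOn c J) (P : (W → V) → Prop) [DecidablePred P]
    (hP : ∀ f, P f → ∀ j ∈ J, f j = c j) :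
    ((homs H G).filter P).card ≤ ((inj H G).filter P).card
      + Fintype.card W ^ 2 * Fintype.card V ^ (Fintype.card W - (J.card + 1)) := by
  classical
  have h1 : (homs H G).filter P ⊆ (inj H G).filter P ∪
      ((homs H G).filter P).filter (fun f => ¬ Function.Injective f) := by
    intro f hf
    rw [mem_union, mem_filter, mem_filter, mem_inj]
    by_cases hi : Function.Injective f
    · exact Or.inl ⟨⟨hi, mem_homs.1 (mem_filter.1 hf).1⟩, (mem_filter.1 hf).2⟩
    · exact Or.inr ⟨hf, hi⟩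
  refine (card_le_card h1).trans ((card_union_le _ _).trans (Nat.add_le_add_left ?_ _))
  refine card_noninj J c hc _ fun f hf => ?_
  rw [mem_filter, mem_filter] at hf
  exact ⟨hP f hf.1.2, hf.2⟩

/-- number of monochromatic copies through a vertex -/
noncomputable def cnt (H : SimpleGraph W) (G : SimpleGraph V) (x : V) : ℕ :=
  ((mono H G).filter (fun f => ∃ a, f a = x)).card

lemma sum_cnt (H : SimpleGraph W) (G : SimpleGraph V) :
    ∑ x, cnt H G x = Fintype.card W * (mono H G).card := by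
  unfold cnt
  simp only [card_filter]
  rw [sum_comm, mul_comm, ← smul_eq_mul, ← sum_const]
  refine sum_congr rfl fun f hf => ?_
  rw [← card_filter, ← card_univ, ← card_image_of_injective univ (mem_mono.1 hf).1]
  congr 1
  ext x; simp

lemma clone_le (H : SimpleGraph W) (G : SimpleGraph V)
    (hmin : ∀ G' : SimpleGraph V, (mono H G).card ≤ (mono H G').card) (x u : V) :
    cnt H G x ≤ cnt H G u + Fintype.card W ^ 2 * Fintype.card V ^ (Fintype.card W - 2) := by
  by_cases hxu : x = u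
  · rw [hxu]; exact Nat.le_add_right _ _
  set φ : V → V := Function.update id x u with hφ
  have hφx : φ x = u := by simp [hφ]
  have hφo : ∀ v, v ≠ x → φ v = v := fun v hv => by simp [hφ, Function.update_of_ne hv]
  have hφinj : ∀ v w, φ v = φ w → v = w ∨ (v = x ∧ w = u) ∨ (v = u ∧ w = x) := by
    intro v w h
    by_cases hv : v = x <;> by_cases hw : w = x
    · exact Or.inl (hv.trans hw.symm)
    · rw [hv, hφx, hφo w hw] at h; exact Or.inr (Or.inl ⟨hv, h.symm⟩)
    · rw [hw, hφx, hφo v hv] at h; exact Or.inr (Or.inr ⟨h, hw⟩)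
    · rw [hφo v hv, hφo w hw] at h; exact Or.inl h
  set G' := G.comap φ with hG'
  have key : ∀ f ∈ mono H G', ((¬ ∃ a, f a = x) ∨ (¬ ∃ a, f a = u)) → φ ∘ f ∈ mono H G := by
    intro f hf hx
    rw [mem_mono] at hf ⊢
    have hi : Function.Injective (φ ∘ f) := by
      intro a b hab
      rcases hφinj _ _ hab with h | h | h
      · exact hf.1 h
      · rcases hx with hx | hx
        · exact absurd ⟨a, h.1⟩ hx
        · exact absurd ⟨b, h.2⟩ hx
      · rcases hx with hx | hx
        · exact absurd ⟨b, h.2⟩ hx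
        · exact absurd ⟨a, h.1⟩ hx
    refine ⟨hi, hf.2.imp (fun h a b hab => h a b hab) (fun h a b hab => ?_)⟩
    have := (G'.compl_adj _ _).1 (h a b hab)
    exact (G.compl_adj _ _).2 ⟨fun e => hab.ne (hi e), this.2⟩
  set M := mono H G'
  set A := M.filter (fun f => ¬ ∃ a, f a = x) with hA
  set B := M.filter (fun f => (∃ a, f a = x) ∧ ¬ ∃ a, f a = u) with hB
  set C := M.filter (fun f => (∃ a, f a = x) ∧ ∃ a, f a = u) with hC
  have h0 : M.card ≤ A.card + B.card + C.card := by
    clear * - W V M A B C x u hA hB hC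
    refine le_trans (card_le_card ?_) ((card_union_le (A ∪ B) C).trans
      (Nat.add_le_add_right (card_union_le A B) _))
    intro f hf
    simp only [mem_union, hA, hB, hC, mem_filter]
    tauto
  have h1 : A.card ≤ ((mono H G).filter (fun f => ¬ ∃ a, f a = x)).card := by
    refine card_le_card fun f hf => ?_
    rw [hA, mem_filter] at hf
    have h := key f hf.1 (Or.inl hf.2)
    have e : φ ∘ f = f := funext fun a => hφo _ fun e => hf.2 ⟨a, e⟩
    rw [e] at h
    exact mem_filter.2 ⟨h, hf.2⟩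
  have h2 : B.card ≤ cnt H G u := by
    refine card_le_card_of_injOn (fun f => φ ∘ f) (fun f hf => ?_) (fun f hf g hg hfg => ?_)
    · rw [mem_coe, hB, mem_filter] at hf
      obtain ⟨a, ha⟩ := hf.2.1
      exact mem_coe.2 (mem_filter.2 ⟨key f hf.1 (Or.inr hf.2.2), a, by simp [ha, hφx]⟩)
    · rw [mem_coe, hB, mem_filter] at hf hg
      ext a
      rcases hφinj _ _ (congrFun hfg a) with h | h | h
      · exact h
      · exact absurd ⟨a, h.2⟩ hg.2.2
      · exact absurd ⟨a, h.1⟩ hf.2.2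
  have h3 : C.card ≤ Fintype.card W ^ 2 * Fintype.card V ^ (Fintype.card W - 2) := by
    refine card_pairs_le C (fun a b => C.filter (fun f => f a = x ∧ f b = u)) _ ?_ ?_
    · intro f hf
      obtain ⟨_, ⟨a, ha⟩, ⟨b, hb⟩⟩ := mem_filter.1 hf
      exact ⟨a, b, fun e => hxu (by rw [← ha, ← hb, e]), mem_filter.2 ⟨hf, ha, hb⟩⟩
    · intro a b hab
      exact card_pair_le hab x u univ _ fun f hf =>
        ⟨(mem_filter.1 hf).2.1, (mem_filter.1 hf).2.2, fun _ => mem_univ _⟩
  have h4 := card_filter_add_card_filter_not (s := mono H G) (fun f => ∃ a, f a = x)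
  have h5 : (mono H G).card ≤ M.card := hmin G'
  unfold cnt at *
  omega

lemma cnt_le (H : SimpleGraph W) (G : SimpleGraph V)
    (hmin : ∀ G' : SimpleGraph V, (mono H G).card ≤ (mono H G').card) (x : V) :
    Fintype.card V * cnt H G x ≤ Fintype.card W * (mono H G).card
      + Fintype.card V * (Fintype.card W ^ 2 * Fintype.card V ^ (Fintype.card W - 2)) := by
  have := sum_le_sum fun u (_ : u ∈ (univ : Finset V)) => clone_le H G hmin x u
  rw [sum_add_distrib, sum_cnt] at this
  simpa using this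

lemma sum_inj_at_le (H : SimpleGraph W) (G : SimpleGraph V) {ι : Type*} [Fintype ι] (e : ι → W)
    (he : Function.Injective e) (x : V) :
    ∑ j, ((inj H G).filter (fun f => f (e j) = x)).card ≤ cnt H G x := by
  classical
  rw [← card_biUnion]
  · refine card_le_card fun f hf => ?_
    obtain ⟨j, _, hj⟩ := mem_biUnion.1 hf
    rw [mem_filter] at hj
    exact mem_filter.2 ⟨inj_subset_mono H G hj.1, e j, hj.2⟩
  · intro i _ j _ hij
    rw [Function.onFun, disjoint_left]
    intro f h1 h2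
    rw [mem_filter] at h1 h2
    exact hij (he ((mem_inj.1 h1.1).1 (h1.2.trans h2.2.symm)))

/-- the colouring whose red graph consists of the pairs with equal label -/
def pureG {m : ℕ} (p : V → Fin m) : SimpleGraph V where
  Adj u v := u ≠ v ∧ p u = p v
  symm := ⟨fun _ _ h => ⟨h.1.symm, h.2.symm⟩⟩
  loopless := ⟨fun _ h => h.1 rfl⟩

lemma pureG_compl_adj {m : ℕ} (p : V → Fin m) (u v : V) : (pureG p)ᶜ.Adj u v ↔ p u ≠ p v := by
  rw [SimpleGraph.compl_adj]
  constructor
  · rintro ⟨h1, h2⟩ h; exact h2 ⟨h1, h⟩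
  · intro h; exact ⟨fun e => h (by rw [e]), fun h' => h h'.2⟩

open Classical in
/-- injective maps into one part -/
noncomputable def pset (W : Type*) [Fintype W] [DecidableEq W] {m : ℕ} (p : V → Fin m) :
    Finset (W → V) :=
  univ.filter (fun f => Function.Injective f ∧ ∀ a b, p (f a) = p (f b))

lemma mem_pset {m : ℕ} {p : V → Fin m} {f : W → V} :
    f ∈ pset W p ↔ Function.Injective f ∧ ∀ a b, p (f a) = p (f b) := by
  classical
  simp [pset]

lemma mono_pure {H : SimpleGraph W} (hH : H.Preconnected) {m : ℕ} (c : Fin (m + 1) → W)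
    (hc : ∀ i j, i ≠ j → H.Adj (c i) (c j)) (p : V → Fin m) :
    mono H (pureG p) = pset W p := by
  ext f
  rw [mem_mono, mem_pset]
  refine and_congr_right fun hi => ⟨?_, fun h => Or.inl fun a b hab =>
    ⟨fun e => hab.ne (hi e), h a b⟩⟩
  rintro (h | h)
  · intro a b
    obtain ⟨w⟩ := hH a b
    induction w with
    | nil => rfl
    | cons hadj _ ih => exact (h _ _ hadj).2.trans ih
  · obtain ⟨i, j, hij, e⟩ := Fintype.exists_ne_map_eq_of_card_lt (fun i => p (f (c i))) (by simp)
    exact absurd e ((pureG_compl_adj p _ _).1 (h _ _ (hc i j hij)))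

lemma card_inj_into (A : Finset V) (F : Finset (W → V))
    (hF : ∀ f, f ∈ F ↔ Function.Injective f ∧ ∀ a, f a ∈ A) :
    F.card = A.card.descFactorial (Fintype.card W) := by
  have := Fintype.card_embedding_eq (α := W) (β := A)
  rw [Fintype.card_coe] at this
  rw [← this, ← card_univ]
  refine card_bij (fun f hf => ⟨fun a => ⟨f a, ((hF f).1 hf).2 a⟩,
    fun a b h => ((hF f).1 hf).1 (congrArg Subtype.val h)⟩) (fun _ _ => mem_univ _) ?_ ?_
  · intro f hf g hg h
    ext a
    exact congrArg Subtype.val (DFunLike.congr_fun h a)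
  · intro e _
    refine ⟨fun a => (e a : V), (hF _).2 ⟨fun a b h => e.injective (Subtype.ext h),
      fun a => (e a).2⟩, ?_⟩
    ext a; rfl

lemma card_pset [Nonempty W] {m : ℕ} (p : V → Fin m) :
    (pset W p).card = ∑ i, (part p univ i).card.descFactorial (Fintype.card W) := by
  obtain ⟨w⟩ := ‹Nonempty W›
  rw [card_eq_sum_card_fiberwise (f := fun f => p (f w)) (t := univ) (fun _ _ => mem_univ _)]
  refine sum_congr rfl fun i _ => card_inj_into _ _ fun f => ?_
  rw [mem_filter, mem_pset]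
  simp only [mem_part, mem_univ, true_and]
  constructor
  · rintro ⟨⟨h1, h2⟩, h3⟩
    exact ⟨h1, fun a => (h2 a w).trans h3⟩
  · rintro ⟨h1, h2⟩
    exact ⟨⟨h1, fun a b => (h2 a).trans (h2 b).symm⟩, h2 w⟩

end Pool.Agent.Work.MP_f2e3c0_co
end
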