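import Mathlib
import Pool.Agent.Work.MP_f2e3c0_co.Inj

-- merged part: Pool.Agent.Work.MP_f2e3c0_co.Stage3
section
/-!
Exact structure: a minimiser close to a pure colouring is a balanced pure colouring.
-/

set_option linter.unusedSectionVars false

namespace Pool.Agent.Work.MP_f2e3c0_co

open Finset

variable {V : Type*} [Fintype V] [DecidableEq V] {W : Type*} [Fintype W] [DecidableEq W]

lemma no_wrong_blue {H : SimpleGraph W} (hH : H.Preconnected) {m : ℕ} (c : Fin (m + 1) → W)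
    (hc : ∀ i j, i ≠ j → H.Adj (c i) (c j)) {a0 b0 : W} (hab : H.Adj a0 b0) {G : SimpleGraph V}
    (hmin : ∀ G' : SimpleGraph V, (mono H G).card ≤ (mono H G').card) (p : V → Fin m)
    {B γ : ℝ} (hB : ∀ i, ((part p univ i).card : ℝ) ≤ B)
    (hγ : ∀ u v, p u = p v → Gᶜ.Adj u v →
      γ ≤ ((inj H Gᶜ).filter (fun f => f a0 = u ∧ f b0 = v)).card)
    (hlt : (Fintype.card W : ℝ) ^ 2 * B ^ (Fintype.card W - 2) < γ) :
    ∀ u v, p u = p v → ¬ Gᶜ.Adj u v := by
  classical
  set Wb := univ.filter (fun x : V × V => p x.1 = p x.2 ∧ Gᶜ.Adj x.1 x.2) with hWb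
  have hmem : ∀ x : V × V, x ∈ Wb ↔ p x.1 = p x.2 ∧ Gᶜ.Adj x.1 x.2 := by
    intro x; rw [hWb, mem_filter]; simp only [mem_univ, true_and]
  set L : V × V → Finset (W → V) := fun x =>
    (pset W p).filter (fun f => ∃ a b, a ≠ b ∧ f a = x.1 ∧ f b = x.2) with hL
  have hLc : ∀ x, ((L x).card : ℝ) ≤ (Fintype.card W : ℝ) ^ 2 * B ^ (Fintype.card W - 2) := by
    clear * - V W L m p B hB hab
    intro x
    have h1 := card_pairs_le (L x) (fun a b => (pset W p).filter (fun f => f a = x.1 ∧ f b = x.2))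
      ((part p univ (p x.1)).card ^ (Fintype.card W - 2)) (by
        intro f hf
        obtain ⟨h, a, b, hab, h'⟩ := mem_filter.1 hf
        exact ⟨a, b, hab, mem_filter.2 ⟨h, h'⟩⟩) (by
        intro a b hab
        refine card_pair_le hab x.1 x.2 _ _ fun f hf => ?_
        obtain ⟨h, h1, h2⟩ := mem_filter.1 hf
        refine ⟨h1, h2, fun j => mem_part.2 ⟨mem_univ _, ?_⟩⟩
        rw [← h1]; exact (mem_pset.1 h).2 j a)
    refine (Nat.cast_le.2 h1).trans ?_
    push_cast
    gcongr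
    exact hB _
  have h1 : pset W p ⊆ inj H G ∪ Wb.biUnion L := by
    intro f hf
    rw [mem_union]
    by_cases h : IsHom H G f
    · exact Or.inl (mem_inj.2 ⟨(mem_pset.1 hf).1, h⟩)
    · right
      unfold IsHom at h
      push Not at h
      obtain ⟨a, b, hadj, hn⟩ := h
      refine mem_biUnion.2 ⟨(f a, f b), (hmem _).2 ⟨(mem_pset.1 hf).2 a b, ?_⟩,
        mem_filter.2 ⟨hf, a, b, hadj.ne, rfl, rfl⟩⟩
      exact (G.compl_adj _ _).2 ⟨fun e => hadj.ne ((mem_pset.1 hf).1 e), hn⟩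
  have h2 : ((pset W p).card : ℝ) ≤ (inj H G).card
      + Wb.card * ((Fintype.card W : ℝ) ^ 2 * B ^ (Fintype.card W - 2)) := by
    have := (card_le_card h1).trans ((card_union_le _ _).trans
      (Nat.add_le_add_left card_biUnion_le _))
    have h' : ((pset W p).card : ℝ) ≤ (inj H G).card + ∑ x ∈ Wb, ((L x).card : ℝ) := by
      exact_mod_cast this
    have h'' := sum_le_sum fun x (_ : x ∈ Wb) => hLc x
    rw [sum_const, nsmul_eq_mul] at h''
    linarith
  have h3 : (Wb.card : ℝ) * γ ≤ (inj H Gᶜ).card := by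
    have e1 : ∑ x ∈ Wb, ((inj H Gᶜ).filter (fun f => f a0 = x.1 ∧ f b0 = x.2)).card
        ≤ (inj H Gᶜ).card := by
      rw [← card_biUnion]
      · exact card_le_card (biUnion_subset.2 fun x _ => filter_subset _ _)
      · intro x _ y _ hxy
        rw [Function.onFun, disjoint_left]
        intro f h1 h2
        rw [mem_filter] at h1 h2
        exact hxy (Prod.ext (h1.2.1.symm.trans h2.2.1) (h1.2.2.symm.trans h2.2.2))
    have e2 : ∑ x ∈ Wb, (((inj H Gᶜ).filter (fun f => f a0 = x.1 ∧ f b0 = x.2)).card : ℝ)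
        ≤ (inj H Gᶜ).card := by exact_mod_cast e1
    have e3 := sum_le_sum fun x (hx : x ∈ Wb) => hγ x.1 x.2 ((hmem x).1 hx).1 ((hmem x).1 hx).2
    rw [sum_const, nsmul_eq_mul] at e3
    linarith
  have h4 := hmin (pureG p)
  rw [mono_pure hH c hc, card_mono_eq H G hab] at h4
  have h4' : ((inj H G).card : ℝ) + (inj H Gᶜ).card ≤ (pset W p).card := by exact_mod_cast h4
  intro u v huv hadj
  have h5 : (0 : ℝ) < Wb.card := by
    exact_mod_cast card_pos.2 ⟨(u, v), (hmem _).2 ⟨huv, hadj⟩⟩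
  have := mul_lt_mul_of_pos_left hlt h5
  linarith

lemma eq_pure {H : SimpleGraph W} (hH : H.Preconnected) {m : ℕ} (c : Fin (m + 1) → W)
    (hc : ∀ i j, i ≠ j → H.Adj (c i) (c j)) {a b : W} (hab : H.Adj a b)
    (hleaf : ∀ w, H.Adj w b → w = a) {G : SimpleGraph V}
    (hmin : ∀ G' : SimpleGraph V, (mono H G).card ≤ (mono H G').card) (p : V → Fin m)
    (hsz : ∀ i, Fintype.card W ≤ (part p univ i).card)
    (hb : ∀ u v, p u = p v → ¬ Gᶜ.Adj u v) : G = pureG p := by
  classical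
  have hin : ∀ u v, u ≠ v → p u = p v → G.Adj u v := by
    intro u v hne h
    by_contra hn
    exact hb u v h ((G.compl_adj _ _).2 ⟨hne, hn⟩)
  ext u v
  refine ⟨fun huv => ⟨huv.ne, ?_⟩, fun h => hin u v h.1 h.2⟩
  by_contra hp
  have h1 : pset W p ⊆ mono H G := by
    intro f hf
    rw [mem_pset] at hf
    exact mem_mono.2 ⟨hf.1, Or.inl fun x y hxy => hin _ _ (fun e => hxy.ne (hf.1 e)) (hf.2 x y)⟩
  obtain ⟨e⟩ : Nonempty (W ↪ part p univ (p u)) :=
    Function.Embedding.nonempty_of_card_le (by rw [Fintype.card_coe]; exact hsz _)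
  set f0 : W → V := fun w => Equiv.swap (e a : V) u (e w) with hf0
  have hf0i : Function.Injective f0 := fun x y h =>
    e.injective (Subtype.ext ((Equiv.swap (e a : V) u).injective h))
  have hf0a : f0 a = u := by simp [hf0]
  have hf0p : ∀ w, p (f0 w) = p u := by
    intro w
    have h1 := (mem_part.1 (e w).2).2
    have h2 := (mem_part.1 (e a).2).2
    simp only [hf0, Equiv.swap_apply_def]
    split_ifs
    · rfl
    · exact h2
    · exact h1
  set f := Function.update f0 b v with hf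
  have hfb : f b = v := by simp [hf]
  have hfo : ∀ w, w ≠ b → f w = f0 w := fun w hw => by simp [hf, Function.update_of_ne hw]
  have hfi : Function.Injective f := by
    intro x y h
    by_cases hx : x = b <;> by_cases hy : y = b
    · exact hx.trans hy.symm
    · rw [hx, hfb, hfo y hy] at h
      exact absurd (by rw [h, hf0p]) hp
    · rw [hy, hfb, hfo x hx] at h
      exact absurd (by rw [← h, hf0p]) hp
    · rw [hfo x hx, hfo y hy] at h; exact hf0i h
  have hfm : f ∈ mono H G := by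
    refine mem_mono.2 ⟨hfi, Or.inl fun x y hxy => ?_⟩
    by_cases hx : x = b <;> by_cases hy : y = b
    · exact absurd (hx.trans hy.symm) hxy.ne
    · rw [hx] at hxy
      rw [hx, hleaf y hxy.symm, hfb, hfo a hab.ne, hf0a]; exact huv.symm
    · rw [hy] at hxy
      rw [hy, hleaf x hxy, hfb, hfo a hab.ne, hf0a]; exact huv
    · refine hin _ _ (fun e => hxy.ne (hfi e)) ?_
      rw [hfo x hx, hfo y hy, hf0p, hf0p]
  have hfn : f ∉ pset W p := by
    intro h
    have := (mem_pset.1 h).2 a b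
    rw [hfb, hfo a hab.ne, hf0a] at this
    exact hp this
  have h2 := card_lt_card ((ssubset_iff_of_subset h1).2 ⟨f, hfm, hfn⟩)
  have h3 := hmin (pureG p)
  rw [mono_pure hH c hc] at h3
  omega

lemma descFactorial_step (n k : ℕ) :
    (n + 1).descFactorial (k + 1) = n.descFactorial (k + 1) + (k + 1) * n.descFactorial k := by
  rw [Nat.succ_descFactorial_succ, Nat.descFactorial_succ]
  rcases le_or_gt k n with h | h
  · obtain ⟨d, rfl⟩ := Nat.exists_eq_add_of_le h
    rw [Nat.add_sub_cancel_left]; ring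
  · simp [Nat.descFactorial_eq_zero_iff_lt.2 h]

lemma descFactorial_convex {a b k : ℕ} (hab : b < a) (hk : k + 1 ≤ a) :
    a.descFactorial (k + 2) + (b + 1).descFactorial (k + 2)
      < (a + 1).descFactorial (k + 2) + b.descFactorial (k + 2) := by
  change a.descFactorial (k + 1 + 1) + (b + 1).descFactorial (k + 1 + 1)
      < (a + 1).descFactorial (k + 1 + 1) + b.descFactorial (k + 1 + 1)
  rw [descFactorial_step a, descFactorial_step b]
  have : b.descFactorial (k + 1) < a.descFactorial (k + 1) := by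
    obtain ⟨a', rfl⟩ : ∃ a', a = a' + 1 := ⟨a - 1, by omega⟩
    rw [descFactorial_step]
    have h1 : b.descFactorial (k + 1) ≤ a'.descFactorial (k + 1) :=
      Nat.descFactorial_le _ (by omega)
    have h2 : 0 < (k + 1) * a'.descFactorial k :=
      Nat.mul_pos (by omega) (Nat.descFactorial_pos.2 (by omega))
    omega
  have := Nat.mul_lt_mul_of_pos_left this (show 0 < k + 1 + 1 by omega)
  omega

lemma balanced {m : ℕ} (p : V → Fin m) (ht : 2 ≤ Fintype.card W)
    (hsz : ∀ i, Fintype.card W ≤ (part p univ i).card)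
    (hmin : ∀ q : V → Fin m, (pset W p).card ≤ (pset W q).card) (i j : Fin m) :
    (part p univ i).card ≤ (part p univ j).card + 1 := by
  by_contra hcon
  push Not at hcon
  have : Nonempty W := Fintype.card_pos_iff.1 (by omega)
  have hij : i ≠ j := by rintro rfl; omega
  obtain ⟨v, hv⟩ := card_pos.1 (show 0 < (part p univ i).card by omega)
  have hpv := (mem_part.1 hv).2
  have h := hmin (Function.update p v j)
  rw [card_pset, card_pset] at h
  have ei : part (Function.update p v j) univ i = (part p univ i).erase v := by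
    ext u
    simp only [mem_part, mem_univ, true_and, mem_erase]
    by_cases hu : u = v
    · subst hu; simp [hij.symm]
    · simp [hu]
  have ej : part (Function.update p v j) univ j = insert v (part p univ j) := by
    ext u
    simp only [mem_part, mem_univ, true_and, mem_insert]
    by_cases hu : u = v
    · subst hu; simp
    · simp [hu]
  have ek : ∀ k ∈ (univ.erase i).erase j,
      (part (Function.update p v j) univ k).card.descFactorial (Fintype.card W)
        = (part p univ k).card.descFactorial (Fintype.card W) := by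
    intro k hk
    simp only [mem_erase, mem_univ, and_true] at hk
    congr 2
    ext u
    simp only [mem_part, mem_univ, true_and]
    by_cases hu : u = v
    · subst hu; simp [hpv, hk.1.symm, hk.2.symm]
    · simp [Function.update_of_ne hu]
  have hj : j ∈ univ.erase i := mem_erase.2 ⟨hij.symm, mem_univ _⟩
  rw [← add_sum_erase _ _ (mem_univ i), ← add_sum_erase _ _ hj,
    ← add_sum_erase _ _ (mem_univ i), ← add_sum_erase _ _ hj, sum_congr rfl ek, ei, ej,
    card_erase_of_mem hv, card_insert_of_notMem (by simp [hpv, hij])] at h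
  have h1 := hsz i
  obtain ⟨k, hk⟩ : ∃ k, Fintype.card W = k + 2 := ⟨Fintype.card W - 2, by omega⟩
  obtain ⟨a, ha⟩ : ∃ a, (part p univ i).card = a + 1 := ⟨(part p univ i).card - 1, by omega⟩
  rw [hk, ha] at h h1
  rw [Nat.add_sub_cancel] at h
  have := descFactorial_convex (a := a) (b := (part p univ j).card) (k := k) (by omega) (by omega)
  omega

lemma iso_turan {n m : ℕ} (p : Fin n → Fin m) (hne : ∀ i, (part p univ i).Nonempty)
    (hbal : ∀ i j, (part p univ i).card ≤ (part p univ j).card + 1) :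
    Nonempty ((pureG p)ᶜ ≃g SimpleGraph.turanGraph n m) := by
  classical
  set P : Finpartition (univ : Finset (Fin n)) := Finpartition.ofSetoid (Setoid.ker p) with hP
  have hpart : ∀ a, P.part a = part p univ (p a) := by
    intro a
    ext b
    rw [hP, Finpartition.mem_part_ofSetoid_iff_rel, mem_part, Setoid.ker_def]
    simp [eq_comm]
  have hinj : Function.Injective (part p univ) := by
    intro i j h
    obtain ⟨v, hv⟩ := hne i
    have hv' := h ▸ hv
    exact (mem_part.1 hv).2.symm.trans (mem_part.1 hv').2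
  have hparts : P.parts = univ.image (part p univ) := by
    ext t
    rw [mem_image]
    constructor
    · intro ht
      obtain ⟨a, ha⟩ := P.nonempty_of_mem_parts ht
      exact ⟨p a, mem_univ _, by rw [← hpart, P.part_eq_of_mem ht ha]⟩
    · rintro ⟨i, _, rfl⟩
      obtain ⟨v, hv⟩ := hne i
      rw [← (mem_part.1 hv).2, ← hpart]
      exact P.part_mem.2 (mem_univ _)
  have hcard : P.parts.card = m := by
    rw [hparts, card_image_of_injective _ hinj]; simp
  have heq : P.IsEquipartition := by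
    intro s t hs ht
    rw [mem_coe, hparts, mem_image] at hs ht
    obtain ⟨i, _, rfl⟩ := hs
    obtain ⟨j, _, rfl⟩ := ht
    exact hbal i j
  obtain ⟨z, hz⟩ := heq.exists_partPreservingEquiv
  refine ⟨⟨((Equiv.subtypeUnivEquiv mem_univ).symm.trans z).trans (finCongr (by simp)), ?_⟩⟩
  intro a b
  have := hz ⟨a, mem_univ a⟩ ⟨b, mem_univ b⟩
  rw [hcard, hpart, hpart, hinj.eq_iff] at this
  rw [pureG_compl_adj, SimpleGraph.turanGraph_adj, ne_eq, ne_eq, this]
  rfl

end Pool.Agent.Work.MP_f2e3c0_co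
end

-- merged part: Pool.Agent.Work.MP_f2e3c0_co.Lolli
section
/-!
Properties of the lollipop graph and the counting bounds satisfied by a minimiser.
-/

set_option linter.unusedSectionVars false

namespace Pool.Agent.Work.MP_f2e3c0_co

open Finset

variable {V : Type*} [Fintype V] [DecidableEq V]

lemma card_LV (m l : ℕ) : Fintype.card (LV m l) = m + l + 1 := by simp [LV]; ring

lemma lolli_adj_inl {m l : ℕ} {i j : Fin m} (h : i ≠ j) :
    (lollipop m l).Adj (.inl i) (.inl j) := by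
  rw [lollipop, SimpleGraph.fromRel_adj]
  exact ⟨fun e => h (Sum.inl.inj e), Or.inl trivial⟩

lemma lolli_adj_root {m l : ℕ} (i : Fin m) : (lollipop m l).Adj (.inr 0) (.inl i) := by
  rw [lollipop, SimpleGraph.fromRel_adj]
  exact ⟨Sum.inr_ne_inl, Or.inr rfl⟩

lemma lolli_adj_path {m l : ℕ} (i : Fin l) :
    (lollipop m l).Adj (.inr i.castSucc) (.inr i.succ) := by
  rw [lollipop, SimpleGraph.fromRel_adj]
  refine ⟨fun e => ?_, Or.inl rfl⟩
  have := congrArg Fin.val (Sum.inr.inj e)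
  simp at this

lemma lolli_connected (m l : ℕ) : (lollipop m l).Connected := by
  refine (SimpleGraph.connected_iff_exists_forall_reachable _).2 ⟨.inr 0, ?_⟩
  rintro (i | j)
  · exact (lolli_adj_root i).reachable
  · induction j using Fin.induction with
    | zero => rfl
    | succ i ih => exact ih.trans (lolli_adj_path i).reachable

/-- the clique of the lollipop -/
def lolliClique (m l : ℕ) : Fin (m + 1) → LV m l := Fin.cons (.inr 0) Sum.inl

lemma lolliClique_adj (m l : ℕ) (i j : Fin (m + 1)) (h : i ≠ j) :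
    (lollipop m l).Adj (lolliClique m l i) (lolliClique m l j) := by
  revert h
  refine Fin.cases ?_ (fun i => ?_) i <;> refine Fin.cases ?_ (fun j => ?_) j <;> intro h
  · exact absurd rfl h
  · exact lolli_adj_root j
  · exact (lolli_adj_root i).symm
  · exact lolli_adj_inl (i := i) (j := j) fun e => h (by rw [e])

lemma lolli_leaf {m l : ℕ} (w : LV m (l + 1)) (h : (lollipop m (l + 1)).Adj w (.inr (Fin.last _))) :
    w = .inr (Fin.last l).castSucc := by
  rw [lollipop, SimpleGraph.fromRel_adj] at h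
  rcases w with i | i
  · rcases h.2 with h' | h'
    · simp at h'
    · exact h'.elim
  · rcases h.2 with h' | h'
    · congr 1
      ext
      simp only [Fin.val_last, Fin.val_castSucc] at h' ⊢
      omega
    · have := i.2
      simp only [Fin.val_last] at h'
      omega

lemma lolli_chromatic {m : ℕ} (hm : 1 ≤ m) (l : ℕ) : (lollipop m l).chromaticNumber = m + 1 := by
  apply le_antisymm
  · have : (lollipop m l).Colorable (m + 1) := by
      refine ⟨SimpleGraph.Coloring.mk (Sum.elim Fin.succ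
        (fun j => ⟨j.val % 2, by have := Nat.mod_lt j.val (show 0 < 2 by norm_num); omega⟩)) ?_⟩
      have key : ∀ a b : LV m l, a ≠ b → (match a, b with
          | .inl _, .inl _ => True
          | .inl _, .inr j => j.val = 0
          | .inr _, .inl _ => False
          | .inr i, .inr j => j.val = i.val + 1) →
          (Sum.elim Fin.succ (fun j : Fin (l + 1) => (⟨j.val % 2, by
            have := Nat.mod_lt j.val (show 0 < 2 by norm_num); omega⟩ : Fin (m + 1))) a) ≠
          (Sum.elim Fin.succ (fun j : Fin (l + 1) => (⟨j.val % 2, by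
            have := Nat.mod_lt j.val (show 0 < 2 by norm_num); omega⟩ : Fin (m + 1))) b) := by
        rintro (i | i) (j | j) hab h e
        · exact hab (by rw [Fin.succ_injective _ e])
        · have := congrArg Fin.val e
          simp only [Sum.elim_inl, Sum.elim_inr, Fin.val_succ] at this h
          omega
        · exact h
        · have := congrArg Fin.val e
          simp only [Sum.elim_inr] at this h
          omega
      intro a b hab
      rw [lollipop, SimpleGraph.fromRel_adj] at hab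
      rcases hab.2 with h | h
      · exact key a b hab.1 h
      · exact (key b a hab.1.symm h).symm
    exact_mod_cast this.chromaticNumber_le
  · have := (lollipop m l).le_chromaticNumber_of_pairwise_adj (n := m + 1) (ι := Fin (m + 1))
      (by simp) (lolliClique m l) (lolliClique_adj m l)
    exact_mod_cast this

lemma hom_bound [Nonempty V] (m l : ℕ) (G : SimpleGraph V) :
    ∑ v, kv G m v * wk G l v ≤ (mono (lollipop m l) G).card
      + ((m + l + 1 : ℕ) : ℝ) ^ 2 * (Fintype.card V : ℝ) ^ (m + l) := by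
  obtain ⟨v⟩ := ‹Nonempty V›
  have h := card_homs_filter_le (lollipop m l) G ∅ (fun _ => v) (by simp) (fun _ => True) (by simp)
  rw [filter_true, filter_true, card_LV] at h
  simp only [card_empty, zero_add, Nat.add_sub_cancel] at h
  rw [← card_homs]
  have h2 := card_le_card (inj_subset_mono (lollipop m l) G)
  exact_mod_cast h.trans (Nat.add_le_add_right h2 _)

lemma vertex_bound (m l : ℕ) (hm : 1 ≤ m) (G : SimpleGraph V)
    (hmin : ∀ G' : SimpleGraph V,
      (mono (lollipop m l) G).card ≤ (mono (lollipop m l) G').card) (x : V) :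
    Fintype.card V * ∑ j : Fin (l + 1), (av G)^[j] (kv G m) x * wk G (l - j) x
      ≤ ((m + l + 1 : ℕ) : ℝ) * ((mono (lollipop m l) G).card
        + ((m + l + 1 : ℕ) : ℝ) ^ 2 * (Fintype.card V : ℝ) ^ (m + l)) := by
  set n := Fintype.card V with hn
  set t := m + l + 1 with ht
  have h1 : ∀ j : Fin (l + 1), ((homs (lollipop m l) G).filter (fun f => f (.inr j) = x)).card
      ≤ ((inj (lollipop m l) G).filter (fun f => f (.inr j) = x)).card + t ^ 2 * n ^ (t - 2) := by
    intro j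
    have h := card_homs_filter_le (lollipop m l) G {.inr j} (fun _ => x) (by simp)
      (fun f => f (.inr j) = x) (by simp)
    rwa [card_LV, card_singleton] at h
  have h2 := sum_le_sum fun j (_ : j ∈ (univ : Finset (Fin (l + 1)))) => h1 j
  rw [sum_add_distrib, sum_const, card_univ, Fintype.card_fin, smul_eq_mul] at h2
  have h3 := sum_inj_at_le (lollipop m l) G Sum.inr Sum.inr_injective x
  have h4 := cnt_le (lollipop m l) G hmin x
  rw [card_LV, ← hn, ← ht] at h4
  have e : n * (t ^ 2 * n ^ (t - 2)) = t ^ 2 * n ^ (m + l) := by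
    have : m + l = (t - 2) + 1 := by omega
    rw [this]; ring
  have h5 : n * ∑ j : Fin (l + 1), ((homs (lollipop m l) G).filter (fun f => f (.inr j) = x)).card
      ≤ t * ((mono (lollipop m l) G).card + t ^ 2 * n ^ (m + l)) := by
    clear * - n l m V x G t h2 h3 e h4 hm
    calc _ ≤ n * (cnt (lollipop m l) G x + (l + 1) * (t ^ 2 * n ^ (t - 2))) :=
          Nat.mul_le_mul_left _ (h2.trans (Nat.add_le_add_right h3 _))
      _ = n * cnt (lollipop m l) G x + (l + 1) * (n * (t ^ 2 * n ^ (t - 2))) := by ring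
      _ ≤ t * (mono (lollipop m l) G).card + (l + 2) * (t ^ 2 * n ^ (m + l)) := by
          rw [e] at h4 ⊢; linarith
      _ ≤ t * (mono (lollipop m l) G).card + t * (t ^ 2 * n ^ (m + l)) := by
          gcongr; omega
      _ = _ := by ring
  simp only [← card_homs_at]
  exact_mod_cast h5

lemma gain_bound {G : SimpleGraph V} {m : ℕ} {D η : ℝ} {p : V → Fin m} {T : Finset V}
    (h : Good G m D η p T) (hm : 3 ≤ m) (hη : 0 < η) (hs : 40 * (m : ℝ) ^ 2 * η ≤ D) (l : ℕ)
    {u v : V} (hu : u ∈ T) (hv : v ∈ T) (huv : p u = p v) (hadj : Gᶜ.Adj u v) :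
    (D / 2) ^ (m - 1) * (19 / 10 * D) ^ l
        - ((m + l + 1 : ℕ) : ℝ) ^ 2 * (Fintype.card V : ℝ) ^ (m + l + 1 - 3)
      ≤ ((inj (lollipop m l) Gᶜ).filter
        (fun f => f (.inr 0) = u ∧ f (.inl ⟨0, by omega⟩) = v)).card := by
  have h1 := h.common hm hη hs hu hv huv
  have h2 := h.blue_walk hm hη hs l u hu
  have hD : 0 < D := lt_of_lt_of_le (by have : (0 : ℝ) < m := by exact_mod_cast (by omega : 0 < m)
                                        positivity) hs
  have hm0 : 0 < m := by omega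
  have h3 := card_homs_filter_le (lollipop m l) Gᶜ {.inr 0, .inl ⟨0, hm0⟩}
    (Sum.elim (fun _ => v) (fun _ => u)) (by
      intro a ha b hb hab
      simp only [coe_insert, coe_singleton, Set.mem_insert_iff, Set.mem_singleton_iff] at ha hb
      rcases ha with rfl | rfl <;> rcases hb with rfl | rfl
      · rfl
      · exact absurd hab hadj.ne
      · exact absurd hab hadj.ne'
      · rfl)
    (fun f => f (.inr 0) = u ∧ f (.inl ⟨0, hm0⟩) = v) (by
      intro f hf j hj
      rcases mem_insert.1 hj with rfl | hj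
      · exact hf.1
      · rw [mem_singleton.1 hj]; exact hf.2)
  rw [card_LV, card_pair Sum.inr_ne_inl] at h3
  obtain ⟨m', rfl⟩ : ∃ m', m = m' + 1 := ⟨m - 1, by omega⟩
  have h4 := card_homs_pair m' l Gᶜ hadj
  have h5 : (D / 2) ^ (m' + 1 - 1) * (19 / 10 * D) ^ l
      ≤ kq Gᶜ m' (nb Gᶜ (nb Gᶜ univ u) v) * wk Gᶜ l u :=
    mul_le_mul h1 h2 (by positivity) (Nat.cast_nonneg _)
  rw [← h4] at h5
  have h6 := (Nat.cast_le (α := ℝ)).2 h3
  rw [Nat.cast_add, Nat.cast_mul, Nat.cast_pow, Nat.cast_pow] at h6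
  exact sub_le_iff_le_add.2 (h5.trans h6)

lemma card_mono_le_of_iso {V' W : Type*} [Fintype V'] [DecidableEq V'] [Fintype W] [DecidableEq W]
    (H : SimpleGraph W) {G : SimpleGraph V} {G' : SimpleGraph V'} (e : G ≃g G') :
    (mono H G).card ≤ (mono H G').card := by
  refine card_le_card_of_injOn (fun f => e ∘ f) (fun f hf => ?_) (fun f _ g _ h => ?_)
  · rw [mem_coe, mem_mono] at hf ⊢
    refine ⟨e.injective.comp hf.1, hf.2.imp (fun h a b hab => e.map_adj_iff.2 (h a b hab))
      (fun h a b hab => ?_)⟩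
    have := (G.compl_adj _ _).1 (h a b hab)
    exact (G'.compl_adj _ _).2 ⟨fun e' => this.1 (e.injective e'),
      fun h' => this.2 (e.map_adj_iff.1 h')⟩
  · ext a; exact e.injective (congrFun h a)

lemma card_mono_eq_of_iso {V' W : Type*} [Fintype V'] [DecidableEq V'] [Fintype W] [DecidableEq W]
    (H : SimpleGraph W) {G : SimpleGraph V} {G' : SimpleGraph V'} (e : G ≃g G') :
    (mono H G).card = (mono H G').card :=
  le_antisymm (card_mono_le_of_iso H e) (card_mono_le_of_iso H e.symm)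

lemma monoCount_eq {W : Type} [Fintype W] [DecidableEq W] (H : SimpleGraph W) {n : ℕ}
    (G : SimpleGraph (Fin n)) : monoCount H G = (mono H G).card := by
  rw [monoCount, ← Nat.card_eq_finsetCard]
  refine Nat.card_congr ⟨fun f => ⟨f.1, mem_mono.2 ⟨f.1.injective, f.2⟩⟩,
    fun f => ⟨⟨f.1, (mem_mono.1 f.2).1⟩, (mem_mono.1 f.2).2⟩, fun f => rfl, fun f => rfl⟩

lemma min_le_turan {m l n : ℕ} (hm : 1 ≤ m) (G : SimpleGraph (Fin n))
    (hmin : ∀ G' : SimpleGraph (Fin n),
      (mono (lollipop m l) G).card ≤ (mono (lollipop m l) G').card) :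
    ((mono (lollipop m l) G).card : ℝ) ≤ m * ((n : ℝ) / m + 1) ^ (m + l + 1) := by
  set p : Fin n → Fin m := fun v => ⟨v.val % m, Nat.mod_lt _ hm⟩ with hp
  have h := hmin (pureG p)
  rw [mono_pure (lolli_connected m l).preconnected _ (lolliClique_adj m l), card_pset,
    card_LV] at h
  have h1 : ∀ i, (((part p univ i).card.descFactorial (m + l + 1) : ℕ) : ℝ)
      ≤ ((n : ℝ) / m + 1) ^ (m + l + 1) := by
    intro i
    have h2 : (part p univ i).card ≤ n / m + 1 := by
      rw [← card_range (n / m + 1)]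
      refine card_le_card_of_injOn (fun v => v.val / m) (fun v _ => ?_) (fun u hu v hv huv => ?_)
      · exact mem_coe.2 (mem_range.2 (Nat.lt_succ_of_le (Nat.div_le_div_right v.2.le)))
      · have e1 := congrArg Fin.val ((mem_part.1 hu).2.trans (mem_part.1 hv).2.symm)
        simp only [hp] at e1 huv
        ext
        rw [← Nat.div_add_mod u.val m, ← Nat.div_add_mod v.val m, e1, huv]
    have h3 : ((part p univ i).card : ℝ) ≤ (n : ℝ) / m + 1 := by
      have := (Nat.cast_le (α := ℝ)).2 h2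
      push_cast at this
      linarith [Nat.cast_div_le (α := ℝ) (m := n) (n := m)]
    refine le_trans (Nat.cast_le.2 (Nat.descFactorial_le_pow _ _)) ?_
    push_cast
    gcongr
  have h4 := sum_le_sum fun i (_ : i ∈ (univ : Finset (Fin m))) => h1 i
  rw [sum_const, card_univ, Fintype.card_fin, nsmul_eq_mul, ← Nat.cast_sum] at h4
  exact (Nat.cast_le.2 h).trans h4

end Pool.Agent.Work.MP_f2e3c0_co
end

-- merged part: Pool.Agent.Work.MP_f2e3c0_co.Exact
section
/-!
From cores to the exact structure of a minimiser.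
-/

set_option linter.unusedSectionVars false

namespace Pool.Agent.Work.MP_f2e3c0_co

open Finset

variable {V : Type*} [Fintype V] [DecidableEq V]

/-- the inequalities between the constants -/
structure Par (m l N : ℕ) (κ σ ρ ξ : ℝ) : Prop where
  hm : 3 ≤ m
  κ0 : 0 < κ
  κ1 : 40 * (m : ℝ) ^ 2 * κ ≤ 1
  N1 : 1 ≤ N
  hN : 32 * (m : ℝ) ^ 2 * 9 ^ (m + 1) ≤ κ ^ 2 * N
  l1 : 2 * (N : ℝ) ^ (N + m + 1) < (1 + 1 / (N : ℝ)) ^ (l + 2)
  l2 : 2 * ((m + (l + 2) + 1 : ℕ) : ℝ) < κ ^ (m + 1) * (19 / 10) ^ (l + 1)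
  l3 : 3 * (m : ℝ) ^ 2 ≤ κ * (l + 2)
  l4 : 2 ^ (m + 1) * ((m + (l + 2) + 1 : ℕ) : ℝ) ≤ ρ * (19 / 10) ^ (l + 2)
  σ0 : 0 < σ
  ρ0 : 0 < ρ
  ξ0 : 0 < ξ
  hσ : σ * ((m + (l + 2) + 1 : ℕ) : ℝ) ≤ κ / 2
  hξρ : ξ * (m : ℝ) ^ 2 + 2 * ρ * m ≤ σ ^ 2 / 4

namespace Par

variable {m l N : ℕ} {κ σ ρ ξ : ℝ} (h : Par m l N κ σ ρ ξ)
include h

lemma m3 : (3 : ℝ) ≤ m := by exact_mod_cast h.hm

lemma κ_le : κ ≤ 1 / 360 := by
  have := h.m3
  have h9 : (9 : ℝ) ≤ (m : ℝ) ^ 2 := by nlinarith
  have := h.κ1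
  have := h.κ0
  nlinarith

lemma σ_le : σ ≤ κ / 2 := by
  refine le_trans (le_mul_of_one_le_right h.σ0.le ?_) h.hσ
  exact_mod_cast (by omega : 1 ≤ m + (l + 2) + 1)

lemma ρ_le : (m + 1) * ρ ≤ σ / 2 := by
  have h1 := h.hξρ
  have h2 := h.σ_le
  have h3 := h.κ_le
  have h4 := h.σ0
  have h5 := h.ρ0
  have h6 := h.m3
  have h7 : 0 ≤ ξ * (m : ℝ) ^ 2 := by have := h.ξ0; positivity
  nlinarith

lemma ξ_le : ξ ≤ κ / 2 := by
  have h1 := h.hξρ
  have h2 := h.σ_le
  have h3 := h.κ_le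
  have h4 := h.σ0
  have h5 := h.ξ0
  have h6 := h.m3
  have h7 : 0 ≤ 2 * ρ * (m : ℝ) := by have := h.ρ0; positivity
  have h9 : (1 : ℝ) ≤ (m : ℝ) ^ 2 := by clear * - m σ κ h2 h3 h4 h6; nlinarith
  clear * - ξ κ m ρ σ h1 h4 h7 h2 h3 h9
  nlinarith

lemma final2c : (1 + ξ) * ((m + (l + 2) + 1 : ℕ) : ℝ) < (l + 1) * ((1 + κ) ^ 2 * (1 - σ) ^ (m + l)) := by
  have h1 := h.κ_le
  have h2 := h.σ_le
  have h3 := h.κ0
  have h4 := h.σ0
  have h5 := h.ξ_le
  have h6 := h.m3
  have h7 := h.l3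
  have h8 := h.hσ
  have hl0 : (0 : ℝ) ≤ l := Nat.cast_nonneg _
  have e1 := one_add_mul_le_pow (a := -σ) (by linarith) (m + l)
  push_cast at e1 h8 ⊢
  have e2 : 1 - κ / 2 ≤ (1 - σ) ^ (m + l) := by
    clear * - κ σ m l h4 e1 h8
    rw [sub_eq_add_neg 1 σ]; nlinarith
  have e3 : 1 + κ ≤ (1 + κ) ^ 2 * (1 - σ) ^ (m + l) := by
    clear * - κ σ m l h1 h3 e2
    refine le_trans ?_ (mul_le_mul_of_nonneg_left e2 (by positivity))
    nlinarith [mul_pos h3 h3]
  refine lt_of_lt_of_le ?_ (mul_le_mul_of_nonneg_left e3 (by positivity))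
  have e4 : (1 + ξ) * ((m : ℝ) + (l + 2) + 1) ≤ (1 + κ / 2) * (m + (l + 2) + 1) := by gcongr
  refine lt_of_le_of_lt e4 ?_
  have e5 : κ * m ≤ m := by clear * - κ m σ h1 h2 h4 h6; nlinarith
  clear * - κ m l σ h1 h2 h4 h6 h7
  nlinarith

lemma pow_lt : (1 + σ / 2) ^ (m + l + 1) < 3 := by
  have h4 := h.σ0
  have h8 := h.hσ
  have h1 := h.κ_le
  push_cast at h8
  calc (1 + σ / 2) ^ (m + l + 1) ≤ (Real.exp (σ / 2)) ^ (m + l + 1) := by
        gcongr; linarith [Real.add_one_le_exp (σ / 2)]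
    _ = Real.exp (((m + l + 1 : ℕ) : ℝ) * (σ / 2)) := by rw [Real.exp_nat_mul]
    _ ≤ Real.exp 1 := by
        refine Real.exp_le_exp.2 ?_
        push_cast; linarith
    _ < 3 := by linarith [Real.exp_one_lt_d9]

lemma gain_ge : 4 * ((m + (l + 2) + 1 : ℕ) : ℝ) ^ 2 ≤ (1 / 2) ^ (m - 1) * (19 / 10) ^ (l + 2) := by
  have h1 := h.l4
  have h2 := h.ρ_le
  have h3 := h.hσ
  have h4 := h.κ_le
  have h5 := h.ρ0
  have h6 := h.m3
  have h7 := h.σ0
  set t : ℝ := ((m + (l + 2) + 1 : ℕ) : ℝ)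
  have ht : 0 < t := by positivity
  have h8 : ρ ≤ σ := by clear * - ρ σ m h2 h7 h5; nlinarith
  have h9 : ρ * t ≤ 1 := le_trans (by gcongr) (h3.trans (by linarith))
  have e : (2 : ℝ) ^ (m + 1) = 4 * 2 ^ (m - 1) := by
    have : m + 1 = (m - 1) + 2 := by have := h.hm; omega
    rw [this, pow_add]; ring
  rw [e] at h1
  rw [one_div, inv_pow, inv_mul_eq_div, le_div_iff₀ (by positivity)]
  have h10 := mul_le_mul_of_nonneg_right h1 ht.le
  have h11 := mul_le_mul_of_nonneg_right h9 (show (0 : ℝ) ≤ (19 / 10) ^ (l + 2) by positivity)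
  linarith

end Par

lemma term_zero_le (G : SimpleGraph V) (m l : ℕ) (x : V) :
    kv G m x * wk G l x ≤ ∑ j : Fin (l + 1), (av G)^[j] (kv G m) x * wk G (l - j) x :=
  single_le_sum (f := fun j : Fin (l + 1) => (av G)^[j] (kv G m) x * wk G (l - j) x)
    (fun j _ => mul_nonneg (av_iter_nonneg G (kv_nonneg G m) j x) (wk_nonneg _ _ _)) (mem_univ 0)

lemma exact_structure {m l N : ℕ} {κ σ ρ ξ D : ℝ} (hP : Par m l N κ σ ρ ξ) (G : SimpleGraph V)
    (hmin : ∀ G' : SimpleGraph V,
      (mono (lollipop m (l + 2)) G).card ≤ (mono (lollipop m (l + 2)) G').card)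
    (hn : (Fintype.card V : ℝ) = m * D) (hD : 0 < D) (hρD : 2 ≤ ρ * D)
    (hnD : (Fintype.card V : ℝ) ^ (m + l) ≤ D ^ (m + l + 1))
    (htD : ((m + (l + 2) + 1 : ℕ) : ℝ) ≤ D / 2)
    (hG : ∑ v, kv G m v * wk G (l + 2) v ≤ (1 + ξ) * Fintype.card V * D ^ (m + (l + 2)))
    (hVR : ∀ x, ∑ j : Fin (l + 2 + 1), (av G)^[j] (kv G m) x * wk G (l + 2 - j) x
      ≤ (1 + ξ) * ((m + (l + 2) + 1 : ℕ) : ℝ) * D ^ (m + (l + 2)))
    (hVB : ∀ x, ∑ j : Fin (l + 2 + 1), (av Gᶜ)^[j] (kv Gᶜ m) x * wk Gᶜ (l + 2 - j) x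
      ≤ (1 + ξ) * ((m + (l + 2) + 1 : ℕ) : ℝ) * D ^ (m + (l + 2)))
    {C : Fin m → Finset V} (hC : Cores G m D (κ * D) C) :
    ∃ p : V → Fin m, G = pureG p ∧ ∀ i, m + (l + 2) + 1 ≤ (part p univ i).card := by
  have hm := hP.hm
  have hκ := hP.κ0
  have hσ := hP.σ0
  have hρ := hP.ρ0
  have hξ := hP.ξ0
  have hκ1 := hP.κ_le
  have hσ1 := hP.σ_le
  have hρ1 := hP.ρ_le
  have hξ1 := hP.ξ_le
  set t : ℝ := ((m + (l + 2) + 1 : ℕ) : ℝ) with ht
  have ht0 : 0 < t := by positivity
  have hη : 0 < κ * D := by positivity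
  have hs : 40 * (m : ℝ) ^ 2 * (κ * D) ≤ D := by
    have := mul_le_mul_of_nonneg_right hP.κ1 hD.le
    linarith
  have hB0 : ∀ v, kv Gᶜ m v * wk Gᶜ (l + 2) v ≤ 2 * t * D ^ (m + (l + 2)) := by
    clear * - V G m l t D ξ hVB σ κ hσ hκ1 hσ1 hξ1 hm hD
    intro v
    refine (term_zero_le Gᶜ m (l + 2) v).trans ((hVB v).trans ?_)
    gcongr; linarith
  obtain ⟨p, T, hT⟩ := stage2a G (l := l + 1) hm hn hη hs hC (by
    intro v
    refine lt_of_le_of_lt (hB0 v) ?_
    have e : (κ * D) ^ (m + 1) * (19 / 10 * D) ^ (l + 1)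
        = κ ^ (m + 1) * (19 / 10) ^ (l + 1) * D ^ (m + (l + 2)) := by
      rw [mul_pow, mul_pow]; ring
    rw [e]
    exact mul_lt_mul_of_pos_right hP.l2 (by positivity))
  have hnn : ∀ v ∈ T, nn G (part p T (p v)) v ≤ ρ * D := by
    intro v hv
    have h1 := (hT.sparse hm hη hs (l + 2) hv).trans (hB0 v)
    have h2 := nn_le G (part p T (p v)) v
    set b := dg Gᶜ (part p T (p v)) v
    have h3 : b ≤ ρ * D / 2 := by
      have e1 : b * (D / 2) ^ (m - 1) * (19 / 10 * D) ^ (l + 2)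
          = b * (19 / 10) ^ (l + 2) * (D ^ (m - 1 + (l + 2)) / 2 ^ (m - 1)) := by
        rw [div_pow, mul_pow, pow_add D]; ring
      have e2 : 2 * t * D ^ (m + (l + 2))
          = 2 ^ (m + 1) * t * (D / 2) * (D ^ (m - 1 + (l + 2)) / 2 ^ (m - 1)) := by
        obtain ⟨m', rfl⟩ : ∃ m', m = m' + 1 := ⟨m - 1, by omega⟩
        simp only [Nat.add_sub_cancel]
        field_simp
        ring
      rw [e1, e2] at h1
      have h4 := le_of_mul_le_mul_right h1 (by positivity)
      have h5 := mul_le_mul_of_nonneg_right hP.l4 (show 0 ≤ D / 2 by positivity)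
      refine le_of_mul_le_mul_right ?_ (show (0 : ℝ) < (19 / 10) ^ (l + 2) by positivity)
      clear * - b l ρ D m t h4 h5
      linarith
    linarith
  have hrD : (m + 1) * (ρ * D) ≤ σ / 2 * D := by
    have := mul_le_mul_of_nonneg_right hρ1 hD.le
    linarith
  have hσD : σ * D ≤ 1 / 4 * D := by clear * - D σ κ hσ hκ1 hσ1 hD; gcongr; linarith
  have hS := stage2b hT hm hn hη hs (r := ρ * D) (by positivity) hξ.le hnn (by linarith)
    (l := l + 1) (by
      have := mul_le_mul_of_nonneg_right hP.l3 hD.le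
      push_cast; linarith) hG
  have hsz : ∀ i, (1 - σ / 2) * D ≤ (part p T i).card ∧ (part p T i).card ≤ (1 + σ / 2) * D := by
    clear * - m V p T D σ ξ ρ hS l N κ hP hD hn hσ
    intro i
    have h1 : (((part p T i).card : ℝ) - D) ^ 2 ≤ (σ / 2 * D) ^ 2 := by
      refine (single_le_sum (f := fun i => (((part p T i).card : ℝ) - D) ^ 2)
        (fun _ _ => sq_nonneg _) (mem_univ i)).trans (hS.trans ?_)
      have := mul_le_mul_of_nonneg_right hP.hξρ (show 0 ≤ D ^ 2 by positivity)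
      rw [hn]
      linarith
    have := abs_le_of_sq_le_sq' h1 (by positivity)
    constructor <;> linarith [this.1, this.2]
  have hTu : T = univ := by
    clear * - V T l D κ σ m ξ t G p hT hη hD ρ hρ htD ht0 hσD hnn hrD hsz hVR N hP
    refine eq_univ_of_forall fun x => ?_
    by_contra hx
    have h1 := (stage2c hT hη hD (r := ρ * D) (a := (1 - σ) * D) (by positivity)
      (by linarith) hnn (fun i => by linarith [(hsz i).1]) l hx).trans (hVR x)
    have e : ((l : ℝ) + 1) * ((D + κ * D) ^ 2 * ((1 - σ) * D) ^ (m + l))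
        = (l + 1) * ((1 + κ) ^ 2 * (1 - σ) ^ (m + l)) * D ^ (m + (l + 2)) := by
      rw [mul_pow]; ring
    rw [e] at h1
    exact absurd (le_of_mul_le_mul_right h1 (by positivity)) (not_le.2 hP.final2c)
  subst hTu
  have hcard : ∀ i, m + (l + 2) + 1 ≤ (part p univ i).card := by
    intro i
    have : t ≤ (part p univ i).card := by linarith [(hsz i).1]
    exact Nat.cast_le.1 (ht ▸ this)
  refine ⟨p, ?_, hcard⟩
  refine eq_pure (lolli_connected m (l + 2)).preconnected _ (lolliClique_adj m (l + 2))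
    (lolli_adj_path (Fin.last (l + 1))) lolli_leaf hmin p (by rw [card_LV]; exact hcard) ?_
  refine no_wrong_blue (lolli_connected m (l + 2)).preconnected _ (lolliClique_adj m (l + 2))
    (lolli_adj_root ⟨0, by omega⟩) hmin p (fun i => (hsz i).2)
    (fun u v huv hadj => gain_bound hT hm hη hs (l + 2) (mem_univ u) (mem_univ v) huv hadj) ?_
  rw [card_LV, ← ht]
  have e1 : m + (l + 2) + 1 - 2 = m + l + 1 := by omega
  have e2 : m + (l + 2) + 1 - 3 = m + l := by omega
  rw [e1, e2]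
  have e3 : (D / 2) ^ (m - 1) * (19 / 10 * D) ^ (l + 2)
      = (1 / 2) ^ (m - 1) * (19 / 10) ^ (l + 2) * D ^ (m + l + 1) := by
    have : m + l + 1 = (m - 1) + (l + 2) := by omega
    rw [this, show D / 2 = 1 / 2 * D by ring, mul_pow, mul_pow, pow_add D (m - 1)]; ring
  rw [e3, mul_pow]
  have h1 := mul_le_mul_of_nonneg_right hP.gain_ge (show 0 ≤ D ^ (m + l + 1) by positivity)
  have h2 := mul_le_mul_of_nonneg_left hnD (show 0 ≤ t ^ 2 by positivity)
  have h3 := mul_lt_mul_of_pos_right hP.pow_lt (show 0 < t ^ 2 * D ^ (m + l + 1) by positivity)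
  clear * - t σ m l D V h1 h2 h3
  linarith

end Pool.Agent.Work.MP_f2e3c0_co
end

-- merged part: Pool.Agent.Work.MP_f2e3c0_co.Final
section
/-!
Choice of the constants and the main theorem.
-/

set_option linter.unusedSectionVars false

namespace Pool.Agent.Work.MP_f2e3c0_co

open Finset Filter Topology

lemma ev_cube (c : ℝ) (s : ℕ) : ∀ᶠ l : ℕ in atTop, c * ((l + s : ℕ) : ℝ) ^ 3 < (19 / 10) ^ l := by
  have h1 := (tendsto_pow_const_div_const_pow_of_one_lt 3
    (show (1 : ℝ) < 19 / 10 by norm_num)).comp (tendsto_add_atTop_nat s)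
  have h2 := h1.const_mul (c * (19 / 10) ^ s)
  rw [mul_zero] at h2
  filter_upwards [h2.eventually (gt_mem_nhds zero_lt_one)] with l hl
  simp only [Function.comp] at hl
  have e : c * (19 / 10) ^ s * (((l + s : ℕ) : ℝ) ^ 3 / (19 / 10) ^ (l + s))
      = c * ((l + s : ℕ) : ℝ) ^ 3 / (19 / 10) ^ l := by
    rw [pow_add]; field_simp
  rwa [e, div_lt_one (by positivity)] at hl

lemma exists_par {m : ℕ} (hm : 3 ≤ m) :
    ∀ᶠ l : ℕ in atTop, ∃ (N : ℕ) (κ σ ρ ξ : ℝ), Par m l N κ σ ρ ξ := by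
  have hm0 : (0 : ℝ) < m := by exact_mod_cast (by omega : 0 < m)
  set κ : ℝ := 1 / (40 * (m : ℝ) ^ 2) with hκ
  have hκ0 : 0 < κ := by positivity
  set N : ℕ := ⌈32 * (m : ℝ) ^ 2 * 9 ^ (m + 1) / κ ^ 2⌉₊ with hN
  have hN1 : 1 ≤ N := Nat.one_le_iff_ne_zero.2 (Nat.ceil_pos.2 (by positivity)).ne'
  have hN0 : (0 : ℝ) < N := by exact_mod_cast hN1
  have e1 := (tendsto_pow_atTop_atTop_of_one_lt (show (1 : ℝ) < 1 + 1 / (N : ℝ) by
    have : (0 : ℝ) < 1 / N := by positivity
    linarith)).eventually_gt_atTop (2 * (N : ℝ) ^ (N + m + 1))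
  have e2 := ev_cube (2 / κ ^ (m + 1)) (m + 3)
  have e3 := (tendsto_natCast_atTop_atTop (R := ℝ)).eventually_ge_atTop (3 * (m : ℝ) ^ 2 / κ)
  have e4 := ev_cube (2 ^ (m + 1) * (64 * m) / κ ^ 2) (m + 3)
  filter_upwards [e1, e2, e3, e4] with l h1 h2 h3 h4
  have et : l + (m + 3) = m + (l + 2) + 1 := by ring
  rw [et] at h2 h4
  set t : ℝ := ((m + (l + 2) + 1 : ℕ) : ℝ) with ht
  have ht1 : 1 ≤ t := by rw [ht]; exact_mod_cast (by omega : 1 ≤ m + (l + 2) + 1)
  have ht0 : 0 < t := by clear * - t ht1; linarith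
  refine ⟨N, κ, κ / (2 * t), (κ / (2 * t)) ^ 2 / (16 * m), (κ / (2 * t)) ^ 2 / (8 * m ^ 2),
    hm, hκ0, ?_, hN1, ?_, ?_, ?_, ?_, ?_, by positivity, by positivity, by positivity, ?_, ?_⟩
  · rw [hκ]; field_simp; rfl
  · have := Nat.le_ceil (32 * (m : ℝ) ^ 2 * 9 ^ (m + 1) / κ ^ 2)
    rw [← hN, div_le_iff₀ (by positivity)] at this
    clear * - m κ N this
    linarith
  · refine h1.trans_le (pow_le_pow_right₀ ?_ (by omega))
    have : (0 : ℝ) < 1 / N := by positivity
    clear * - N this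
    linarith
  · rw [← ht]
    rw [div_mul_eq_mul_div, div_lt_iff₀ (by positivity)] at h2
    have k1 : t ≤ t ^ 3 := le_self_pow₀ ht1 (by norm_num)
    have k2 : ((19 : ℝ) / 10) ^ l ≤ (19 / 10) ^ (l + 1) := pow_le_pow_right₀ (by norm_num) (by omega)
    have k3 := mul_le_mul_of_nonneg_left k2 (show 0 ≤ κ ^ (m + 1) by positivity)
    clear * - t κ m l h2 k1 k3
    linarith
  · rw [div_le_iff₀ hκ0] at h3
    clear * - m κ l hκ0 h3
    linarith
  · rw [← ht]
    rw [div_mul_eq_mul_div, div_lt_iff₀ (by positivity)] at h4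
    have k2 : ((19 : ℝ) / 10) ^ l ≤ (19 / 10) ^ (l + 2) := pow_le_pow_right₀ (by norm_num) (by omega)
    have k3 := mul_le_mul_of_nonneg_right k2 (show 0 ≤ κ ^ 2 by positivity)
    have e : (κ / (2 * t)) ^ 2 / (16 * m) * (19 / 10) ^ (l + 2)
        = (19 / 10) ^ (l + 2) * κ ^ 2 / (64 * m * t ^ 2) := by field_simp; ring
    rw [e, le_div_iff₀ (by positivity)]
    clear * - m t l κ h4 k3
    linarith
  · rw [← ht]; apply le_of_eq; field_simp
  · apply le_of_eq; field_simp; ring

lemma ev_big (m s : ℕ) (hm : 1 ≤ m) {ξ : ℝ} (hξ : 0 < ξ) : ∀ᶠ D : ℝ in atTop,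
    m * (D + 1) ^ (s + 1) + ((s + 1 : ℕ) : ℝ) ^ 2 * (m * D) ^ s ≤ (1 + ξ) * (m * D) * D ^ s := by
  have hm0 : (0 : ℝ) < m := by exact_mod_cast hm
  have hc : Continuous (fun y : ℝ => m * (1 + y) ^ (s + 1) + ((s + 1 : ℕ) : ℝ) ^ 2 * m ^ s * y) := by
    fun_prop
  have h1 := (hc.tendsto 0).comp tendsto_inv_atTop_zero
  have h2 : (m : ℝ) * (1 + 0) ^ (s + 1) + ((s + 1 : ℕ) : ℝ) ^ 2 * m ^ s * 0 < (1 + ξ) * m := by
    simp; nlinarith
  filter_upwards [h1.eventually (gt_mem_nhds h2), eventually_gt_atTop 0] with D hD hD0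
  simp only [Function.comp] at hD
  have h3 := mul_le_mul_of_nonneg_right hD.le (show 0 ≤ D ^ (s + 1) by positivity)
  have e1 : (m * (1 + D⁻¹) ^ (s + 1) + ((s + 1 : ℕ) : ℝ) ^ 2 * m ^ s * D⁻¹) * D ^ (s + 1)
      = m * (D + 1) ^ (s + 1) + ((s + 1 : ℕ) : ℝ) ^ 2 * (m * D) ^ s := by
    have : D + 1 = (1 + D⁻¹) * D := by field_simp
    rw [this, mul_pow, mul_pow, pow_succ D]
    field_simp
  rw [e1] at h3
  refine h3.trans (le_of_eq ?_)
  ring

lemma min_structure {m l N : ℕ} {κ σ ρ ξ : ℝ} (hP : Par m l N κ σ ρ ξ) :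
    ∀ᶠ n : ℕ in atTop, ∀ G : SimpleGraph (Fin n),
      (∀ G' : SimpleGraph (Fin n),
        (mono (lollipop m (l + 2)) G).card ≤ (mono (lollipop m (l + 2)) G').card) →
      Nonempty (Gᶜ ≃g SimpleGraph.turanGraph n m) ∨ Nonempty (G ≃g SimpleGraph.turanGraph n m) := by
  have hm := hP.hm
  have hm0 : (0 : ℝ) < m := by exact_mod_cast (by omega : 0 < m)
  have hT : Tendsto (fun n : ℕ => (n : ℝ) / m) atTop atTop :=
    tendsto_natCast_atTop_atTop.atTop_div_const hm0
  filter_upwards [hT.eventually (ev_big m (m + (l + 2)) (by omega) hP.ξ0),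
    hT.eventually_ge_atTop (2 / ρ), hT.eventually_ge_atTop ((m : ℝ) ^ (m + l)),
    hT.eventually_ge_atTop (2 * ((m + (l + 2) + 1 : ℕ) : ℝ)), eventually_ge_atTop N]
    with n h1 h2 h3 h4 h5
  set D : ℝ := (n : ℝ) / m with hDd
  have hn : (Fintype.card (Fin n) : ℝ) = m * D := by
    rw [Fintype.card_fin, hDd]; field_simp
  have hD : 0 < D := lt_of_lt_of_le (by positivity) h4
  have hn0 : (0 : ℝ) < Fintype.card (Fin n) := by rw [hn]; positivity
  have : Nonempty (Fin n) := Fintype.card_pos_iff.1 (Nat.cast_pos.1 hn0)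
  have hρD : 2 ≤ ρ * D := by
    rw [div_le_iff₀ hP.ρ0] at h2; linarith
  have hnD : (Fintype.card (Fin n) : ℝ) ^ (m + l) ≤ D ^ (m + l + 1) := by
    rw [hn, mul_pow, pow_succ' D]; gcongr
  rw [← hn] at h1
  have key : ∀ G : SimpleGraph (Fin n), (∀ G' : SimpleGraph (Fin n),
      (mono (lollipop m (l + 2)) G).card ≤ (mono (lollipop m (l + 2)) G').card) →
      (∑ v, kv G m v * wk G (l + 2) v ≤ (1 + ξ) * Fintype.card (Fin n) * D ^ (m + (l + 2))) ∧
      ∀ x, ∑ j : Fin (l + 2 + 1), (av G)^[j] (kv G m) x * wk G (l + 2 - j) x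
        ≤ (1 + ξ) * ((m + (l + 2) + 1 : ℕ) : ℝ) * D ^ (m + (l + 2)) := by
    clear * - n m l N hm ξ D this h1 hDd hn0
    intro G hmin
    have k1 := min_le_turan (by omega) G hmin
    rw [← hDd] at k1
    refine ⟨(hom_bound m (l + 2) G).trans (by linarith), fun x => ?_⟩
    have k2 := vertex_bound m (l + 2) (by omega) G hmin x
    refine le_of_mul_le_mul_left (k2.trans ?_) hn0
    have k3 : ((mono (lollipop m (l + 2)) G).card : ℝ) + ((m + (l + 2) + 1 : ℕ) : ℝ) ^ 2
        * (Fintype.card (Fin n) : ℝ) ^ (m + (l + 2))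
        ≤ (1 + ξ) * Fintype.card (Fin n) * D ^ (m + (l + 2)) := by linarith
    refine (mul_le_mul_of_nonneg_left k3 (Nat.cast_nonneg _)).trans (le_of_eq ?_)
    ring
  have hcompl : ∀ G : SimpleGraph (Fin n), (∀ G' : SimpleGraph (Fin n),
      (mono (lollipop m (l + 2)) G).card ≤ (mono (lollipop m (l + 2)) G').card) →
      (∀ G' : SimpleGraph (Fin n),
      (mono (lollipop m (l + 2)) Gᶜ).card ≤ (mono (lollipop m (l + 2)) G').card) := by
    intro G hmin G'; rw [mono_compl]; exact hmin G'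
  have main : ∀ G : SimpleGraph (Fin n), (∀ G' : SimpleGraph (Fin n),
      (mono (lollipop m (l + 2)) G).card ≤ (mono (lollipop m (l + 2)) G').card) →
      (∃ C, Cores G m D (κ * D) C) → Nonempty (Gᶜ ≃g SimpleGraph.turanGraph n m) := by
    rintro G hmin ⟨C, hC⟩
    obtain ⟨p, hp, hsz⟩ := exact_structure hP G hmin hn hD hρD hnD (by linarith)
      (key G hmin).1 (key G hmin).2 (key Gᶜ (hcompl G hmin)).2 hC
    rw [hp]
    refine iso_turan p (fun i => card_pos.1 (lt_of_lt_of_le (by omega) (hsz i))) ?_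
    refine balanced (W := LV m (l + 2)) p (by rw [card_LV]; omega)
      (by rw [card_LV]; exact hsz) fun q => ?_
    have := hmin (pureG q)
    rwa [hp, mono_pure (lolli_connected m (l + 2)).preconnected _ (lolliClique_adj m (l + 2)),
      mono_pure (lolli_connected m (l + 2)).preconnected _ (lolliClique_adj m (l + 2))] at this
  intro G hmin
  have hξ : 1 + ξ ≤ 2 := by linarith [hP.ξ_le, hP.κ_le]
  rcases stage1 G (l := l + 2) hm hn hD hP.κ0 hP.N1 hP.hN hP.l1 (by simpa using h5)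
    ((key G hmin).1.trans (by gcongr)) ((key Gᶜ (hcompl G hmin)).1.trans (by gcongr)) with h | h
  · exact Or.inl (main G hmin h)
  · right
    have := main Gᶜ (hcompl G hmin) h
    rwa [compl_compl] at this

lemma lollipop_bonbon {m l N : ℕ} {κ σ ρ ξ : ℝ} (hP : Par m l N κ σ ρ ξ) :
    IsBonbon (lollipop m (l + 2)) := by
  refine ⟨lolli_connected _ _, ?_⟩
  obtain ⟨n₀, h⟩ := eventually_atTop.1 (min_structure hP)
  have hχ : (lollipop m (l + 2)).chromaticNumber.toNat - 1 = m := by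
    rw [lolli_chromatic (by have := hP.hm; omega)]
    have : ((m : ℕ∞) + 1) = ((m + 1 : ℕ) : ℕ∞) := by push_cast; rfl
    rw [this, ENat.toNat_natCast]; rfl
  refine ⟨n₀, fun n hn G => ?_⟩
  simp only [hχ, monoCount_eq]
  refine ⟨h n hn G, fun hG G' => ?_⟩
  have val : ∀ G : SimpleGraph (Fin n), (Nonempty (Gᶜ ≃g SimpleGraph.turanGraph n m) ∨
      Nonempty (G ≃g SimpleGraph.turanGraph n m)) → (mono (lollipop m (l + 2)) G).card
        = (mono (lollipop m (l + 2)) (SimpleGraph.turanGraph n m)).card := by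
    rintro G (⟨⟨e⟩⟩ | ⟨⟨e⟩⟩)
    · rw [← mono_compl]; exact card_mono_eq_of_iso _ e
    · exact card_mono_eq_of_iso _ e
  obtain ⟨G0, hG0⟩ := Finite.exists_min
    (fun G : SimpleGraph (Fin n) => (mono (lollipop m (l + 2)) G).card)
  rw [val G hG, ← val G0 (h n hn G0 hG0)]
  exact hG0 G'

theorem lollipop_main (k : ℕ) (hk : 4 ≤ k) :
    ∃ T : ℕ, ∀ t ≥ T, k < t ∧ IsBonbon (lollipop (k - 1) (t - k)) := by
  obtain ⟨L, hL⟩ := eventually_atTop.1 (exists_par (m := k - 1) (by omega))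
  refine ⟨L + k + 2, fun t ht => ⟨by omega, ?_⟩⟩
  obtain ⟨N, κ, σ, ρ, ξ, hP⟩ := hL (t - k - 2) (by omega)
  have := lollipop_bonbon hP
  rwa [show t - k - 2 + 2 = t - k by omega] at this

end Pool.Agent.Work.MP_f2e3c0_co
end
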